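import Pool.Agent.Helper85.Chern.Basic1

/-!
# M1b: correlation inequality, likelihood ratio order, nice functions, chains
-/

namespace Pool.Agent.Helper85.Chern

open MeasureTheory Filter Topology

/-- the basic correlation inequality -/
theorem assoc {p0 p1 m : ℝ → ℝ} (h : MLR p0 p1) (hm : Monotone m)
    (h0 : Integrable p0) (h1 : Integrable p1)
    (hm0 : Integrable fun y => m y * p0 y) (hm1 : Integrable fun y => m y * p1 y) :
    (∫ y, m y * p0 y) * (∫ y, p1 y) ≤ (∫ y, m y * p1 y) * (∫ y, p0 y) := by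
  -- the four product functions
  have i1 := Integrable.mul_prod h0 hm1
  have i2 := Integrable.mul_prod h1 hm0
  have i3 := Integrable.mul_prod hm0 h1
  have i4 := Integrable.mul_prod hm1 h0
  have e1 := integral_prod_mul (μ := (volume : Measure ℝ)) (ν := (volume : Measure ℝ)) p0
    (fun y => m y * p1 y)
  have e2 := integral_prod_mul (μ := (volume : Measure ℝ)) (ν := (volume : Measure ℝ)) p1
    (fun y => m y * p0 y)
  have e3 := integral_prod_mul (μ := (volume : Measure ℝ)) (ν := (volume : Measure ℝ))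
    (fun y => m y * p0 y) p1
  have e4 := integral_prod_mul (μ := (volume : Measure ℝ)) (ν := (volume : Measure ℝ))
    (fun y => m y * p1 y) p0
  have hnn : 0 ≤ ∫ z : ℝ × ℝ, (m z.2 - m z.1) * (p1 z.2 * p0 z.1 - p1 z.1 * p0 z.2) := by
    apply integral_nonneg
    intro z
    rcases le_total z.1 z.2 with hz | hz
    · exact mul_nonneg (sub_nonneg.2 (hm hz)) (sub_nonneg.2 (h _ _ hz))
    · exact mul_nonneg_of_nonpos_of_nonpos (sub_nonpos.2 (hm hz)) (sub_nonpos.2 (h _ _ hz))
  have hexp : ∫ z : ℝ × ℝ, (m z.2 - m z.1) * (p1 z.2 * p0 z.1 - p1 z.1 * p0 z.2)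
      = ∫ z : ℝ × ℝ, ((p0 z.1 * (m z.2 * p1 z.2) + (m z.1 * p1 z.1) * p0 z.2)
        - (p1 z.1 * (m z.2 * p0 z.2) + (m z.1 * p0 z.1) * p1 z.2)) := by
    congr 1
    funext z
    ring
  have s1 : ∫ z : ℝ × ℝ, (p0 z.1 * (m z.2 * p1 z.2) + (m z.1 * p1 z.1) * p0 z.2)
      ∂((volume : Measure ℝ).prod (volume : Measure ℝ)) = _ := integral_add i1 i4
  have s2 : ∫ z : ℝ × ℝ, (p1 z.1 * (m z.2 * p0 z.2) + (m z.1 * p0 z.1) * p1 z.2)
      ∂((volume : Measure ℝ).prod (volume : Measure ℝ)) = _ := integral_add i2 i3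
  have s3 : ∫ z : ℝ × ℝ, ((p0 z.1 * (m z.2 * p1 z.2) + (m z.1 * p1 z.1) * p0 z.2)
        - (p1 z.1 * (m z.2 * p0 z.2) + (m z.1 * p0 z.1) * p1 z.2))
      ∂((volume : Measure ℝ).prod (volume : Measure ℝ)) = _ :=
    integral_sub (i1.add i4) (i2.add i3)
  rw [hexp] at hnn
  simp only [MeasureTheory.Measure.volume_eq_prod] at hnn
  rw [s3] at hnn
  rw [s1, s2, e1, e2, e3, e4] at hnn
  linarith

theorem MLR_phi {p0 p1 : ℝ → ℝ} (h : MLR p0 p1) {s : ℝ} (hs : 0 < s) (x : ℝ) :
    MLR (fun y => phi s (y - x) * p0 y) (fun y => phi s (y - x) * p1 y) := by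
  intro u v huv
  have h1 := h u v huv
  have h2 := (mul_pos (phi_pos hs (u - x)) (phi_pos hs (v - x))).le
  have := mul_le_mul_of_nonneg_left h1 h2
  calc phi s (u - x) * p1 u * (phi s (v - x) * p0 v)
      = phi s (u - x) * phi s (v - x) * (p1 u * p0 v) := by ring
    _ ≤ phi s (u - x) * phi s (v - x) * (p1 v * p0 u) := this
    _ = _ := by ring

/-- the correlation inequality inside `P` -/
theorem assoc_P {s : ℝ} (hs : 0 < s) {p0 p1 m : ℝ → ℝ} (h : MLR p0 p1) (hm : Monotone m)
    (h0 : EG p0) (h1 : EG p1) (hm0 : EG fun y => m y * p0 y) (hm1 : EG fun y => m y * p1 y)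
    (x : ℝ) :
    P s (fun y => m y * p0 y) x * P s p1 x ≤ P s (fun y => m y * p1 y) x * P s p0 x := by
  have c0 : (fun y => phi s (y - x) * (m y * p0 y)) = fun y => m y * (phi s (y - x) * p0 y) := by
    funext y; ring
  have c1 : (fun y => phi s (y - x) * (m y * p1 y)) = fun y => m y * (phi s (y - x) * p1 y) := by
    funext y; ring
  have g0 := EG_integrable hs hm0 x
  have g1 := EG_integrable hs hm1 x
  rw [c0] at g0
  rw [c1] at g1
  have := assoc (MLR_phi h hs x) hm (EG_integrable hs h0 x) (EG_integrable hs h1 x) g0 g1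
  unfold P
  rw [c0, c1]
  exact this

theorem MLR_P {s : ℝ} (hs : 0 < s) {p0 p1 : ℝ → ℝ} (h : MLR p0 p1) (h0 : EG p0) (h1 : EG p1) :
    MLR (P s p0) (P s p1) := by
  intro x x' hx
  have ha : 0 ≤ (x' - x) / s := div_nonneg (sub_nonneg.2 hx) hs.le
  have hm : Monotone fun y => Real.exp ((x' - x) / s * y) := by
    intro u v huv
    exact Real.exp_le_exp.2 (mul_le_mul_of_nonneg_left huv ha)
  have key := assoc_P hs h hm h0 h1 (EG_mul (EG_exp _) h0) (EG_mul (EG_exp _) h1) x
  rw [P_tilt hs, P_tilt hs] at key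
  have e : x + (x' - x) / s * s = x' := by field_simp; ring
  rw [e] at key
  have hE := Real.exp_pos ((x' - x) / s * x + ((x' - x) / s) ^ 2 * s / 2)
  rw [mul_assoc, mul_assoc] at key
  have := le_of_mul_le_mul_left key hE
  linarith

/-- cuts with ordered levels preserve the order, for nonnegative functions -/
theorem MLR_cut {p0 p1 : ℝ → ℝ} (h : MLR p0 p1) (h0 : ∀ x, 0 ≤ p0 x) (h1 : ∀ x, 0 ≤ p1 x)
    {b0 b1 : ℝ} (hb : b0 ≤ b1) : MLR (cut b0 p0) (cut b1 p1) := by
  intro x y hxy
  unfold cut
  by_cases hy : y < b0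
  · have hx : x < b0 := hxy.trans_lt hy
    rw [if_pos (hx.trans_le hb), if_pos hy, if_pos (hy.trans_le hb), if_pos hx]
    exact h x y hxy
  · rw [if_neg hy, mul_zero]
    apply mul_nonneg
    · split_ifs
      · exact h1 y
      · exact le_rfl
    · split_ifs
      · exact h0 x
      · exact le_rfl

theorem MLR_mul {p0 p1 q0 q1 : ℝ → ℝ} (h : MLR p0 p1) (h' : MLR q0 q1)
    (hp0 : ∀ x, 0 ≤ p0 x) (hp1 : ∀ x, 0 ≤ p1 x) (hq0 : ∀ x, 0 ≤ q0 x) (hq1 : ∀ x, 0 ≤ q1 x) :
    MLR (fun x => p0 x * q0 x) (fun x => p1 x * q1 x) := by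
  intro x y hxy
  have a := h x y hxy
  have b := h' x y hxy
  calc p1 x * q1 x * (p0 y * q0 y) = (p1 x * p0 y) * (q1 x * q0 y) := by ring
    _ ≤ (p1 y * p0 x) * (q1 y * q0 x) :=
        mul_le_mul a b (mul_nonneg (hq1 x) (hq0 y)) (mul_nonneg (hp1 y) (hp0 x))
    _ = _ := by ring

theorem Nice.measurable {K : ℝ → ℝ} (hK : Nice K) : Measurable K := hK.eg.1

theorem Nice.hasDerivAt {K : ℝ → ℝ} (hK : Nice K) (x : ℝ) : HasDerivAt K (deriv K x) x :=
  (hK.diff x).hasDerivAt

theorem Nice.hasDerivAt_log {K : ℝ → ℝ} (hK : Nice K) (x : ℝ) :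
    HasDerivAt (fun t => Real.log (K t)) (deriv K x / K x) x :=
  (hK.hasDerivAt x).log (hK.pos x).ne'

/-- the four point form of log-concavity for a cut nice function -/
theorem Nice.four {K : ℝ → ℝ} (hK : Nice K) (b : ℝ) {x y d : ℝ} (hxy : x ≤ y) (hd : 0 ≤ d) :
    cut b K x * cut b K (y + d) ≤ cut b K y * cut b K (x + d) := by
  have hnn : ∀ t, 0 ≤ cut b K t := by
    intro t
    unfold cut
    split_ifs
    · exact (hK.pos t).le
    · exact le_rfl
  by_cases hb : y + d < b
  · have hanti : Antitone fun t => Real.log (K (t + d)) - Real.log (K t) := by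
      have hder : ∀ t, HasDerivAt (fun t => Real.log (K (t + d)) - Real.log (K t))
          (deriv K (t + d) / K (t + d) - deriv K t / K t) t := by
        intro t
        have h1 : HasDerivAt (fun t => Real.log (K (t + d))) (deriv K (t + d) / K (t + d)) t := by
          have := (hK.hasDerivAt_log (t + d)).comp t ((hasDerivAt_id t).add_const d)
          simpa [Function.comp_def] using this
        exact h1.sub (hK.hasDerivAt_log t)
      apply antitone_of_deriv_nonpos
      · intro t
        exact (hder t).differentiableAt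
      · intro t
        rw [(hder t).deriv]
        have := hK.anti (show t ≤ t + d by linarith)
        simp only at this
        linarith
    have h := hanti hxy
    simp only at h
    unfold cut
    rw [if_pos hb, if_pos (by linarith : x < b), if_pos (by linarith : y < b),
      if_pos (by linarith : x + d < b)]
    have hx := hK.pos x
    have hy := hK.pos y
    have hxd := hK.pos (x + d)
    have hyd := hK.pos (y + d)
    have hlog : Real.log (K x * K (y + d)) ≤ Real.log (K y * K (x + d)) := by
      rw [Real.log_mul hx.ne' hyd.ne', Real.log_mul hy.ne' hxd.ne']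
      linarith
    exact (Real.log_le_log_iff (mul_pos hx hyd) (mul_pos hy hxd)).1 hlog
  · have : cut b K (y + d) = 0 := by
      unfold cut
      rw [if_neg hb]
    rw [this, mul_zero]
    exact mul_nonneg (hnn _) (hnn _)

theorem Nice.hasDerivAt_tilt {K : ℝ → ℝ} (hK : Nice K) (a y : ℝ) :
    HasDerivAt (fun y => K y * Real.exp (a * y))
      (K y * Real.exp (a * y) * (deriv K y / K y + a)) y := by
  have h1 : HasDerivAt (fun y => Real.exp (a * y)) (Real.exp (a * y) * a) y := by
    have := ((hasDerivAt_id y).const_mul a).exp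
    simpa using this
  have h2 := (hK.hasDerivAt y).mul h1
  have e : K y * Real.exp (a * y) * (deriv K y / K y + a)
      = deriv K y * Real.exp (a * y) + K y * (Real.exp (a * y) * a) := by
    have := (hK.pos y).ne'
    field_simp
  rw [e]
  exact h2

/-- the tilted function `K y * exp (-(log K)'(x) * y)` increases up to `x` -/
theorem Nice.tilt_monotoneOn {K : ℝ → ℝ} (hK : Nice K) (x : ℝ) :
    MonotoneOn (fun y => K y * Real.exp (-(deriv K x / K x) * y)) (Set.Iic x) := by
  apply monotoneOn_of_deriv_nonneg (convex_Iic x)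
  · exact fun y _ => (hK.hasDerivAt_tilt _ y).continuousAt.continuousWithinAt
  · exact fun y _ => (hK.hasDerivAt_tilt _ y).differentiableAt.differentiableWithinAt
  · intro y hy
    rw [interior_Iic] at hy
    rw [(hK.hasDerivAt_tilt _ y).deriv]
    have := hK.anti (le_of_lt hy)
    simp only at this
    exact mul_nonneg (mul_pos (hK.pos y) (Real.exp_pos _)).le (by linarith)

/-- the tilted function `K y * exp (-(log K)'(x) * y)` decreases after `x` -/
theorem Nice.tilt_antitoneOn {K : ℝ → ℝ} (hK : Nice K) (x : ℝ) :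
    AntitoneOn (fun y => K y * Real.exp (-(deriv K x / K x) * y)) (Set.Ici x) := by
  apply antitoneOn_of_deriv_nonpos (convex_Ici x)
  · exact fun y _ => (hK.hasDerivAt_tilt _ y).continuousAt.continuousWithinAt
  · exact fun y _ => (hK.hasDerivAt_tilt _ y).differentiableAt.differentiableWithinAt
  · intro y hy
    rw [interior_Ici] at hy
    rw [(hK.hasDerivAt_tilt _ y).deriv]
    have := hK.anti (le_of_lt hy)
    simp only at this
    exact mul_nonpos_of_nonneg_of_nonpos (mul_pos (hK.pos y) (Real.exp_pos _)).le (by linarith)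

/-- supergradient inequality -/
theorem Nice.super {K : ℝ → ℝ} (hK : Nice K) (x y : ℝ) :
    K y ≤ K x * Real.exp (deriv K x / K x * (y - x)) := by
  have key : K y * Real.exp (-(deriv K x / K x) * y) ≤ K x * Real.exp (-(deriv K x / K x) * x) := by
    rcases le_total y x with h | h
    · exact hK.tilt_monotoneOn x h (Set.mem_Iic.2 le_rfl) h
    · exact hK.tilt_antitoneOn x (Set.mem_Ici.2 le_rfl) h h
  have hE := Real.exp_pos (deriv K x / K x * y)
  have h2 := mul_le_mul_of_nonneg_right key hE.le
  have e1 : K y * Real.exp (-(deriv K x / K x) * y) * Real.exp (deriv K x / K x * y) = K y := by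
    rw [mul_assoc, ← Real.exp_add]
    have : -(deriv K x / K x) * y + deriv K x / K x * y = 0 := by ring
    rw [this, Real.exp_zero, mul_one]
  have e2 : K x * Real.exp (-(deriv K x / K x) * x) * Real.exp (deriv K x / K x * y)
      = K x * Real.exp (deriv K x / K x * (y - x)) := by
    rw [mul_assoc, ← Real.exp_add]
    congr 2
    ring
  rw [e1, e2] at h2
  exact h2

theorem Nice.mul {K K' : ℝ → ℝ} (hK : Nice K) (hK' : Nice K') :
    Nice (fun y => K y * K' y) where
  pos := fun x => mul_pos (hK.pos x) (hK'.pos x)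
  diff := hK.diff.mul hK'.diff
  anti := by
    have e : (fun x => deriv (fun y => K y * K' y) x / (K x * K' x))
        = fun x => deriv K x / K x + deriv K' x / K' x := by
      funext x
      have h := ((hK.hasDerivAt x).mul (hK'.hasDerivAt x)).deriv
      have e2 : deriv (fun y => K y * K' y) x = deriv K x * K' x + K x * deriv K' x := h
      rw [e2]
      have h1 := (hK.pos x).ne'
      have h2 := (hK'.pos x).ne'
      field_simp
    rw [e]
    intro x y hxy
    have h1 := hK.anti hxy
    have h2 := hK'.anti hxy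
    simp only at h1 h2 ⊢
    linarith
  eg := EG_mul hK.eg hK'.eg

theorem Nice_exp (a : ℝ) : Nice (fun x => Real.exp (a * x)) where
  pos := fun x => Real.exp_pos _
  diff := by fun_prop
  anti := by
    have e : (fun x => deriv (fun x => Real.exp (a * x)) x / Real.exp (a * x)) = fun _ => a := by
      funext x
      have h1 : HasDerivAt (fun y => Real.exp (a * y)) (Real.exp (a * x) * a) x := by
        have := ((hasDerivAt_id x).const_mul a).exp
        simpa using this
      rw [h1.deriv]
      have := (Real.exp_pos (a * x)).ne'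
      field_simp
    rw [e]
    exact antitone_const
  eg := EG_exp a

theorem Nice_one : Nice (fun _ => 1) := by
  have := Nice_exp 0
  simpa using this

/-- exponential tilt of a nice function is nice -/
theorem Nice.tilt {K : ℝ → ℝ} (hK : Nice K) (a : ℝ) :
    Nice (fun y => Real.exp (a * y) * K y) := (Nice_exp a).mul hK

theorem Nice.scale {K : ℝ → ℝ} (hK : Nice K) {c : ℝ} (hc : 0 < c) :
    Nice (fun y => K (c * y)) := by
  have hder : ∀ x, HasDerivAt (fun y => K (c * y)) (deriv K (c * x) * c) x := by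
    intro x
    have := (hK.hasDerivAt (c * x)).comp x ((hasDerivAt_id x).const_mul c)
    simpa [Function.comp_def] using this
  refine ⟨fun x => hK.pos _, fun x => (hder x).differentiableAt, ?_, ?_⟩
  · intro x y hxy
    simp only
    rw [(hder x).deriv, (hder y).deriv]
    have h := hK.anti (mul_le_mul_of_nonneg_left hxy hc.le)
    simp only at h
    calc deriv K (c * y) * c / K (c * y) = deriv K (c * y) / K (c * y) * c := by ring
      _ ≤ deriv K (c * x) / K (c * x) * c := mul_le_mul_of_nonneg_right h hc.le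
      _ = _ := by ring
  · have := EG_affine hK.eg c 0
    simpa using this

theorem EG_chain {s : ℝ} (hs : 0 < s) (b : ℕ → ℝ) (k j : ℕ) {g : ℝ → ℝ} (hg : EG g) :
    EG (chain s b k j g) := by
  induction j generalizing k with
  | zero => exact hg
  | succ j ih => exact EG_P hs (EG_cut (ih (k + 1)) _)

/-- peeling off the last step -/
theorem chain_succ_last (s : ℝ) (b : ℕ → ℝ) (k j : ℕ) (g : ℝ → ℝ) :
    chain s b k (j + 1) g = chain s b k j (P s (cut (b (k + j + 1)) g)) := by
  induction j generalizing k with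
  | zero => rfl
  | succ j ih =>
    have h1 : chain s b k (j + 1 + 1) g
        = P s (cut (b (k + 1)) (chain s b (k + 1) (j + 1) g)) := rfl
    have h2 : chain s b k (j + 1) (P s (cut (b (k + (j + 1) + 1)) g))
        = P s (cut (b (k + 1)) (chain s b (k + 1) j (P s (cut (b (k + (j + 1) + 1)) g)))) := rfl
    rw [h1, h2, ih (k + 1)]
    have : k + 1 + j + 1 = k + (j + 1) + 1 := by ring
    rw [this]

theorem chain_add' (s : ℝ) (b : ℕ → ℝ) (k i j : ℕ) (g : ℝ → ℝ) :
    chain s b k (i + j) g = chain s b k i (chain s b (k + i) j g) := by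
  induction i generalizing k with
  | zero =>
    rw [Nat.zero_add, Nat.add_zero]
    rfl
  | succ i ih =>
    have e : i + 1 + j = (i + j) + 1 := by ring
    rw [e]
    have h1 : chain s b k (i + j + 1) g
        = P s (cut (b (k + 1)) (chain s b (k + 1) (i + j) g)) := rfl
    have h2 : chain s b k (i + 1) (chain s b (k + (i + 1)) j g)
        = P s (cut (b (k + 1)) (chain s b (k + 1) i (chain s b (k + (i + 1)) j g))) := rfl
    rw [h1, h2, ih (k + 1)]
    have : k + 1 + i = k + (i + 1) := by ring
    rw [this]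

theorem chain_mono {s : ℝ} (hs : 0 < s) (b : ℕ → ℝ) (k j : ℕ) {f g : ℝ → ℝ}
    (hf : EG f) (hg : EG g) (h : ∀ x, f x ≤ g x) (x : ℝ) :
    chain s b k j f x ≤ chain s b k j g x := by
  induction j generalizing k x with
  | zero => exact h x
  | succ j ih =>
    refine P_mono hs (EG_cut (EG_chain hs b (k + 1) j hf) _)
      (EG_cut (EG_chain hs b (k + 1) j hg) _) ?_ x
    intro y
    unfold cut
    split_ifs
    · exact ih (k + 1) y
    · exact le_rfl

theorem chain_nonneg {s : ℝ} (hs : 0 < s) (b : ℕ → ℝ) (k j : ℕ) {g : ℝ → ℝ}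
    (h : ∀ x, 0 ≤ g x) (x : ℝ) : 0 ≤ chain s b k j g x := by
  induction j generalizing k x with
  | zero => exact h x
  | succ j ih =>
    refine P_nonneg hs ?_ x
    intro y
    unfold cut
    split_ifs
    · exact ih (k + 1) y
    · exact le_rfl

theorem chain_pos {s : ℝ} (hs : 0 < s) (b : ℕ → ℝ) (k j : ℕ) {g : ℝ → ℝ} (hg : EG g)
    (h : ∀ x, 0 < g x) (x : ℝ) : 0 < chain s b k j g x := by
  induction j generalizing k x with
  | zero => exact h x
  | succ j ih => exact P_cut_pos hs (EG_chain hs b (k + 1) j hg) (fun y => ih (k + 1) y) _ x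

theorem chain_add_fun {s : ℝ} (hs : 0 < s) (b : ℕ → ℝ) (k j : ℕ) {f g : ℝ → ℝ}
    (hf : EG f) (hg : EG g) (x : ℝ) :
    chain s b k j (fun y => f y + g y) x = chain s b k j f x + chain s b k j g x := by
  induction j generalizing k x with
  | zero => rfl
  | succ j ih =>
    have h1 : chain s b k (j + 1) (fun y => f y + g y) x
        = P s (cut (b (k + 1)) (chain s b (k + 1) j (fun y => f y + g y))) x := rfl
    have h2 : chain s b k (j + 1) f x = P s (cut (b (k + 1)) (chain s b (k + 1) j f)) x := rfl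
    have h3 : chain s b k (j + 1) g x = P s (cut (b (k + 1)) (chain s b (k + 1) j g)) x := rfl
    rw [h1, h2, h3, ← P_add hs (EG_cut (EG_chain hs b (k + 1) j hf) _)
      (EG_cut (EG_chain hs b (k + 1) j hg) _)]
    congr 1
    funext y
    unfold cut
    split_ifs
    · exact ih (k + 1) y
    · simp

theorem chain_const_mul (s : ℝ) (b : ℕ → ℝ) (k j : ℕ) (c : ℝ) (g : ℝ → ℝ) (x : ℝ) :
    chain s b k j (fun y => c * g y) x = c * chain s b k j g x := by
  induction j generalizing k x with
  | zero => rfl
  | succ j ih =>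
    have h1 : chain s b k (j + 1) (fun y => c * g y) x
        = P s (cut (b (k + 1)) (chain s b (k + 1) j (fun y => c * g y))) x := rfl
    have h2 : chain s b k (j + 1) g x = P s (cut (b (k + 1)) (chain s b (k + 1) j g)) x := rfl
    rw [h1, h2, ← P_const_mul]
    congr 1
    funext y
    unfold cut
    split_ifs
    · exact ih (k + 1) y
    · simp

theorem chain_one_le {s : ℝ} (hs : 0 < s) (b : ℕ → ℝ) (k j : ℕ) (x : ℝ) :
    chain s b k j (fun _ => 1) x ≤ 1 := by
  induction j generalizing k x with
  | zero => exact le_rfl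
  | succ j ih =>
    have h1 : chain s b k (j + 1) (fun _ => 1) x
        = P s (cut (b (k + 1)) (chain s b (k + 1) j (fun _ => 1))) x := rfl
    rw [h1]
    calc P s (cut (b (k + 1)) (chain s b (k + 1) j (fun _ => 1))) x
        ≤ P s (fun _ => 1) x := by
          refine P_mono hs (EG_cut (EG_chain hs b (k + 1) j (EG_const 1)) _) (EG_const 1) ?_ x
          intro y
          unfold cut
          split_ifs
          · exact ih (k + 1) y
          · exact zero_le_one
      _ = 1 := P_one hs x

end Pool.Agent.Helper85.Chern
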