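import Pool.Agent.Helper85.Chern.Defs

/-!
# M1a: the Gaussian kernel, exponential growth, the operator `P`
-/

namespace Pool.Agent.Helper85.Chern

open MeasureTheory Filter Topology

theorem phi_pos {s : ℝ} (hs : 0 < s) (u : ℝ) : 0 < phi s u := by
  unfold phi
  positivity

theorem phi_neg (s u : ℝ) : phi s (-u) = phi s u := by
  unfold phi
  rw [neg_sq]

theorem continuous_phi (s : ℝ) : Continuous (phi s) := by
  unfold phi
  fun_prop

theorem phi_eq_pdf {s : ℝ} (hs : 0 < s) (u : ℝ) :
    phi s u = ProbabilityTheory.gaussianPDFReal 0 s.toNNReal u := by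
  unfold phi ProbabilityTheory.gaussianPDFReal
  rw [Real.coe_toNNReal _ hs.le, sub_zero]

theorem integrable_phi {s : ℝ} (hs : 0 < s) : Integrable (phi s) := by
  have h : phi s = ProbabilityTheory.gaussianPDFReal 0 s.toNNReal := funext (phi_eq_pdf hs)
  rw [h]
  exact ProbabilityTheory.integrable_gaussianPDFReal _ _

theorem integral_phi {s : ℝ} (hs : 0 < s) : ∫ u, phi s u = 1 := by
  have h : phi s = ProbabilityTheory.gaussianPDFReal 0 s.toNNReal := funext (phi_eq_pdf hs)
  rw [h]
  exact ProbabilityTheory.integral_gaussianPDFReal_eq_one _ (by simpa using hs)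

/-- tilting the kernel -/
theorem phi_tilt {s : ℝ} (hs : 0 < s) (a x y : ℝ) :
    phi s (y - x) * Real.exp (a * y)
      = Real.exp (a * x + a ^ 2 * s / 2) * phi s (y - (x + a * s)) := by
  unfold phi
  rw [mul_assoc, ← Real.exp_add, mul_left_comm, ← Real.exp_add]
  congr 2
  field_simp
  ring

/-! ### exponential growth -/

theorem EG_of_le {f : ℝ → ℝ} (hf : Measurable f) {A B : ℝ} (hA : 0 ≤ A) (hB : 0 ≤ B)
    (h : ∀ x, |f x| ≤ A * Real.exp (B * |x|)) : EG f := ⟨hf, A, B, hA, hB, h⟩

theorem EG_add {f g : ℝ → ℝ} (hf : EG f) (hg : EG g) : EG (fun x => f x + g x) := by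
  obtain ⟨hfm, A, B, hA, hB, hf⟩ := hf
  obtain ⟨hgm, A', B', hA', hB', hg⟩ := hg
  refine EG_of_le (hfm.add hgm) (add_nonneg hA hA') (add_nonneg hB hB') fun x => ?_
  have h1 : Real.exp (B * |x|) ≤ Real.exp ((B + B') * |x|) := by
    rw [Real.exp_le_exp]
    nlinarith [abs_nonneg x]
  have h2 : Real.exp (B' * |x|) ≤ Real.exp ((B + B') * |x|) := by
    rw [Real.exp_le_exp]
    nlinarith [abs_nonneg x]
  calc |f x + g x| ≤ |f x| + |g x| := abs_add_le _ _
    _ ≤ A * Real.exp (B * |x|) + A' * Real.exp (B' * |x|) := add_le_add (hf x) (hg x)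
    _ ≤ A * Real.exp ((B + B') * |x|) + A' * Real.exp ((B + B') * |x|) :=
        add_le_add (mul_le_mul_of_nonneg_left h1 hA) (mul_le_mul_of_nonneg_left h2 hA')
    _ = (A + A') * Real.exp ((B + B') * |x|) := by ring

theorem EG_neg {f : ℝ → ℝ} (hf : EG f) : EG (fun x => - f x) := by
  obtain ⟨hfm, A, B, hA, hB, hf⟩ := hf
  exact EG_of_le hfm.neg hA hB fun x => by rw [abs_neg]; exact hf x

theorem EG_sub {f g : ℝ → ℝ} (hf : EG f) (hg : EG g) : EG (fun x => f x - g x) := by
  have h := EG_add hf (EG_neg hg)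
  simpa [sub_eq_add_neg] using h

theorem EG_mul {f g : ℝ → ℝ} (hf : EG f) (hg : EG g) : EG (fun x => f x * g x) := by
  obtain ⟨hfm, A, B, hA, hB, hf⟩ := hf
  obtain ⟨hgm, A', B', hA', hB', hg⟩ := hg
  refine EG_of_le (hfm.mul hgm) (mul_nonneg hA hA') (add_nonneg hB hB') fun x => ?_
  rw [abs_mul, add_mul, Real.exp_add]
  calc |f x| * |g x| ≤ (A * Real.exp (B * |x|)) * (A' * Real.exp (B' * |x|)) :=
        mul_le_mul (hf x) (hg x) (abs_nonneg _) (by positivity)
    _ = A * A' * (Real.exp (B * |x|) * Real.exp (B' * |x|)) := by ring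

theorem EG_abs {f : ℝ → ℝ} (hf : EG f) : EG (fun x => |f x|) := by
  obtain ⟨hfm, A, B, hA, hB, hf⟩ := hf
  exact EG_of_le (measurable_abs_comp hfm) hA hB fun x => by rw [abs_abs]; exact hf x
where
  measurable_abs_comp {f : ℝ → ℝ} (hf : Measurable f) : Measurable (fun x => |f x|) := by
    fun_prop

theorem EG_const (c : ℝ) : EG (fun _ => c) :=
  EG_of_le measurable_const (abs_nonneg c) le_rfl fun x => by simp

theorem EG_id : EG (fun x => x) := by
  refine EG_of_le measurable_id zero_le_one zero_le_one fun x => ?_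
  rw [one_mul, one_mul]
  have := Real.add_one_le_exp |x|
  linarith

theorem EG_exp (a : ℝ) : EG (fun x => Real.exp (a * x)) := by
  refine EG_of_le (by fun_prop) zero_le_one (abs_nonneg a) fun x => ?_
  rw [Real.abs_exp, one_mul, Real.exp_le_exp, ← abs_mul]
  exact le_abs_self _

theorem EG_pow {f : ℝ → ℝ} (hf : EG f) (k : ℕ) : EG (fun x => f x ^ k) := by
  induction k with
  | zero => simpa using EG_const 1
  | succ k ih =>
    have h := EG_mul ih hf
    simpa [pow_succ] using h

theorem measurable_cut {f : ℝ → ℝ} (hf : Measurable f) (b : ℝ) : Measurable (cut b f) := by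
  unfold cut
  exact Measurable.ite measurableSet_Iio hf measurable_const

theorem abs_cut_le (f : ℝ → ℝ) (b x : ℝ) : |cut b f x| ≤ |f x| := by
  unfold cut
  split_ifs
  · exact le_rfl
  · simp

theorem EG_cut {f : ℝ → ℝ} (hf : EG f) (b : ℝ) : EG (cut b f) := by
  obtain ⟨hfm, A, B, hA, hB, hf⟩ := hf
  exact EG_of_le (measurable_cut hfm b) hA hB fun x => (abs_cut_le f b x).trans (hf x)

theorem EG_affine {f : ℝ → ℝ} (hf : EG f) (a c : ℝ) : EG (fun x => f (a * x + c)) := by
  obtain ⟨hfm, A, B, hA, hB, hf⟩ := hf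
  refine EG_of_le (hfm.comp (by fun_prop)) (A := A * Real.exp (B * |c|)) (B := B * |a|)
    (by positivity) (by positivity) fun x => ?_
  refine (hf _).trans ?_
  rw [mul_assoc, ← Real.exp_add]
  refine mul_le_mul_of_nonneg_left (Real.exp_le_exp.2 ?_) hA
  have h1 : |a * x + c| ≤ |a| * |x| + |c| := by
    rw [← abs_mul]
    exact abs_add_le _ _
  nlinarith

theorem EG_mono {f g : ℝ → ℝ} (hg : EG g) (hf : Measurable f) (h : ∀ x, |f x| ≤ |g x|) :
    EG f := by
  obtain ⟨_, A, B, hA, hB, hg⟩ := hg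
  exact EG_of_le hf hA hB fun x => (h x).trans (hg x)

theorem EG_exp_abs {b : ℝ} (hb : 0 ≤ b) (x : ℝ) : EG (fun y => Real.exp (b * |y - x|)) := by
  refine EG_of_le (by fun_prop) (A := Real.exp (b * |x|)) (B := b) (by positivity) hb
    fun y => ?_
  rw [Real.abs_exp, ← Real.exp_add, Real.exp_le_exp]
  have : |y - x| ≤ |y| + |x| := abs_sub y x
  nlinarith

/-! ### integrability -/

theorem integrable_phi_exp {s : ℝ} (hs : 0 < s) (a x : ℝ) :
    Integrable (fun y => phi s (y - x) * Real.exp (a * y)) := by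
  have h : (fun y => phi s (y - x) * Real.exp (a * y))
      = fun y => Real.exp (a * x + a ^ 2 * s / 2) * phi s (y - (x + a * s)) :=
    funext fun y => phi_tilt hs a x y
  rw [h]
  exact ((integrable_phi hs).comp_sub_right _).const_mul _

theorem EG_integrable {s : ℝ} (hs : 0 < s) {g : ℝ → ℝ} (hg : EG g) (x : ℝ) :
    Integrable (fun y => phi s (y - x) * g y) := by
  obtain ⟨hgm, A, B, hA, hB, hg⟩ := hg
  have h1 : Integrable (fun y => A * (phi s (y - x) * Real.exp (B * y))
      + A * (phi s (y - x) * Real.exp (-B * y))) :=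
    ((integrable_phi_exp hs B x).const_mul A).add ((integrable_phi_exp hs (-B) x).const_mul A)
  refine h1.mono' ?_ (Eventually.of_forall fun y => ?_)
  · exact (((continuous_phi s).comp (continuous_id.sub continuous_const)).measurable.mul
      hgm).aestronglyMeasurable
  · rw [Real.norm_eq_abs, abs_mul, abs_of_pos (phi_pos hs _)]
    have h2 : Real.exp (B * |y|) ≤ Real.exp (B * y) + Real.exp (-B * y) := by
      rcases le_total 0 y with hy | hy
      · rw [abs_of_nonneg hy]
        linarith [Real.exp_pos (-B * y)]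
      · rw [abs_of_nonpos hy]
        have : B * -y = -B * y := by ring
        rw [this]
        linarith [Real.exp_pos (B * y)]
    have hp := (phi_pos hs (y - x)).le
    calc phi s (y - x) * |g y| ≤ phi s (y - x) * (A * Real.exp (B * |y|)) :=
          mul_le_mul_of_nonneg_left (hg y) hp
      _ ≤ phi s (y - x) * (A * (Real.exp (B * y) + Real.exp (-B * y))) :=
          mul_le_mul_of_nonneg_left (mul_le_mul_of_nonneg_left h2 hA) hp
      _ = _ := by ring

theorem P_add {s : ℝ} (hs : 0 < s) {f g : ℝ → ℝ} (hf : EG f) (hg : EG g) (x : ℝ) :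
    P s (fun y => f y + g y) x = P s f x + P s g x := by
  unfold P
  rw [← integral_add (EG_integrable hs hf x) (EG_integrable hs hg x)]
  congr 1
  funext y
  ring

theorem P_sub {s : ℝ} (hs : 0 < s) {f g : ℝ → ℝ} (hf : EG f) (hg : EG g) (x : ℝ) :
    P s (fun y => f y - g y) x = P s f x - P s g x := by
  unfold P
  rw [← integral_sub (EG_integrable hs hf x) (EG_integrable hs hg x)]
  congr 1
  funext y
  ring

theorem P_const_mul (s c : ℝ) (g : ℝ → ℝ) (x : ℝ) :
    P s (fun y => c * g y) x = c * P s g x := by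
  unfold P
  rw [← integral_const_mul]
  congr 1
  funext y
  ring

theorem P_mono {s : ℝ} (hs : 0 < s) {f g : ℝ → ℝ} (hf : EG f) (hg : EG g)
    (h : ∀ y, f y ≤ g y) (x : ℝ) : P s f x ≤ P s g x := by
  unfold P
  exact integral_mono (EG_integrable hs hf x) (EG_integrable hs hg x) fun y =>
    mul_le_mul_of_nonneg_left (h y) (phi_pos hs _).le

theorem P_nonneg {s : ℝ} (hs : 0 < s) {g : ℝ → ℝ} (h : ∀ y, 0 ≤ g y) (x : ℝ) :
    0 ≤ P s g x :=
  integral_nonneg fun y => mul_nonneg (phi_pos hs _).le (h y)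

theorem P_cut_pos {s : ℝ} (hs : 0 < s) {g : ℝ → ℝ} (hg : EG g) (h : ∀ y, 0 < g y) (b x : ℝ) :
    0 < P s (cut b g) x := by
  unfold P
  have h0 : ∀ y, 0 ≤ cut b g y := fun y => by
    unfold cut
    split_ifs
    · exact (h y).le
    · exact le_rfl
  rw [integral_pos_iff_support_of_nonneg (fun y => mul_nonneg (phi_pos hs _).le (h0 y))
    (EG_integrable hs (EG_cut hg b) x)]
  have hsub : Set.Iio b ⊆ Function.support (fun y => phi s (y - x) * cut b g y) := by
    intro y hy
    rw [Function.mem_support]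
    have : cut b g y = g y := by
      unfold cut
      exact if_pos hy
    rw [this]
    exact (mul_pos (phi_pos hs _) (h y)).ne'
  refine lt_of_lt_of_le ?_ (measure_mono hsub)
  simp

theorem P_one {s : ℝ} (hs : 0 < s) (x : ℝ) : P s (fun _ => 1) x = 1 := by
  unfold P
  simp only [mul_one]
  rw [integral_sub_right_eq_self (phi s) x]
  exact integral_phi hs

theorem P_tilt {s : ℝ} (hs : 0 < s) (g : ℝ → ℝ) (a x : ℝ) :
    P s (fun y => Real.exp (a * y) * g y) x
      = Real.exp (a * x + a ^ 2 * s / 2) * P s g (x + a * s) := by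
  unfold P
  rw [← integral_const_mul]
  congr 1
  funext y
  rw [← mul_assoc, phi_tilt hs, mul_assoc]

theorem P_exp {s : ℝ} (hs : 0 < s) (a x : ℝ) :
    P s (fun y => Real.exp (a * y)) x = Real.exp (a * x + a ^ 2 * s / 2) := by
  have h := P_tilt hs (fun _ => 1) a x
  rw [P_one hs, mul_one] at h
  rw [← h]
  congr 1
  funext y
  ring

/-- translation form -/
theorem P_shift (s : ℝ) (g : ℝ → ℝ) (x : ℝ) : P s g x = ∫ u, phi s u * g (x + u) := by
  unfold P
  rw [← integral_sub_right_eq_self (fun u => phi s u * g (x + u)) x]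
  congr 1
  funext y
  congr 2
  ring

theorem hasDerivAt_phi {s : ℝ} (hs : 0 < s) (y x : ℝ) :
    HasDerivAt (fun x => phi s (y - x)) (phi s (y - x) * ((y - x) / s)) x := by
  unfold phi
  have h1 : HasDerivAt (fun x => -((y - x) ^ 2) / (2 * s)) ((y - x) / s) x := by
    have h2 := (((hasDerivAt_id x).const_sub y).pow 2).neg.div_const (2 * s)
    refine h2.congr_deriv ?_
    field_simp
    simp
  have h3 := (h1.exp).const_mul ((Real.sqrt (2 * Real.pi * s))⁻¹)
  refine h3.congr_deriv ?_
  rw [← mul_assoc (Real.sqrt (2 * Real.pi * s))⁻¹]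

/-- the derivative of `P s g` -/
theorem hasDerivAt_P {s : ℝ} (hs : 0 < s) {g : ℝ → ℝ} (hg : EG g) (x : ℝ) :
    HasDerivAt (P s g) (P s (fun y => (y - x) * g y) x / s) x := by
  have hb : EG (fun y => Real.exp (1 / s * |y - x|) * ((|y - x| + 1) / s * |g y|)) := by
    refine EG_mul (EG_exp_abs (by positivity) x) (EG_mul ?_ (EG_abs hg))
    have h1 : EG (fun y => y - x) := EG_sub EG_id (EG_const x)
    have h2 := EG_mul (EG_add (EG_abs h1) (EG_const 1)) (EG_const (1 / s))
    simpa [div_eq_mul_inv] using h2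
  have hmeas : ∀ x', AEStronglyMeasurable (fun y => phi s (y - x') * g y) volume := fun x' =>
    (EG_integrable hs hg x').aestronglyMeasurable
  have key := hasDerivAt_integral_of_dominated_loc_of_deriv_le
    (F := fun x' y => phi s (y - x') * g y)
    (F' := fun x' y => phi s (y - x') * ((y - x') / s) * g y) (x₀ := x)
    (s := Metric.ball x 1) (μ := volume)
    (bound := fun y => phi s (y - x) * (Real.exp (1 / s * |y - x|) *
      ((|y - x| + 1) / s * |g y|)))
    (Metric.ball_mem_nhds x one_pos) (Eventually.of_forall hmeas) (EG_integrable hs hg x)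
    ?_ ?_ (EG_integrable hs hb x) ?_
  · have h2 := key.2
    have e : (∫ y, phi s (y - x) * ((y - x) / s) * g y) = P s (fun y => (y - x) * g y) x / s := by
      unfold P
      rw [← integral_div]
      congr 1
      funext y
      ring
    rw [e] at h2
    exact h2
  · have h1 : EG (fun y => (y - x) / s * g y) := by
      refine EG_mul ?_ hg
      have h1 : EG (fun y => y - x) := EG_sub EG_id (EG_const x)
      have h2 := EG_mul h1 (EG_const (1 / s))
      simpa [div_eq_mul_inv] using h2
    have h2 := (EG_integrable hs h1 x).aestronglyMeasurable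
    simpa [mul_assoc] using h2
  · refine Eventually.of_forall fun y x' hx' => ?_
    rw [Metric.mem_ball, Real.dist_eq] at hx'
    rw [Real.norm_eq_abs, abs_mul, abs_mul, abs_of_pos (phi_pos hs _), abs_div, abs_of_pos hs,
      mul_assoc]
    have h1 : |y - x'| ≤ |y - x| + 1 := by
      have : |y - x'| ≤ |y - x| + |x - x'| := abs_sub_le _ _ _
      rw [abs_sub_comm x x'] at this
      linarith
    have h2 : phi s (y - x') ≤ phi s (y - x) * Real.exp (1 / s * |y - x|) := by
      unfold phi
      rw [mul_assoc (Real.sqrt (2 * Real.pi * s))⁻¹, ← Real.exp_add]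
      refine mul_le_mul_of_nonneg_left (Real.exp_le_exp.2 ?_) (by positivity)
      have h3 : -((y - x') ^ 2) ≤ -((y - x) ^ 2) + 2 * |y - x| := by
        have e : (y - x') ^ 2 = (y - x) ^ 2 - 2 * ((y - x) * (x' - x)) + (x' - x) ^ 2 := by ring
        have h4 : (y - x) * (x' - x) ≤ |y - x| * 1 := by
          refine (le_abs_self _).trans ?_
          rw [abs_mul]
          exact mul_le_mul_of_nonneg_left hx'.le (abs_nonneg _)
        nlinarith [sq_nonneg (x' - x)]
      have h5 : -((y - x) ^ 2) / (2 * s) + 1 / s * |y - x|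
          = (-((y - x) ^ 2) + 2 * |y - x|) / (2 * s) := by
        field_simp
      rw [h5]
      exact div_le_div_of_nonneg_right h3 (by positivity)
    rw [← mul_assoc (phi s (y - x))]
    refine mul_le_mul h2 ?_ (by positivity) (mul_nonneg (phi_pos hs _).le (by positivity))
    exact mul_le_mul_of_nonneg_right (div_le_div_of_nonneg_right h1 hs.le) (abs_nonneg _)
  · refine Eventually.of_forall fun y x' _ => ?_
    exact (hasDerivAt_phi hs y x').mul_const (g y)

theorem EG_P {s : ℝ} (hs : 0 < s) {g : ℝ → ℝ} (hg : EG g) : EG (P s g) := by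
  have hcont : Continuous (P s g) :=
    continuous_iff_continuousAt.2 fun x => (hasDerivAt_P hs hg x).continuousAt
  obtain ⟨hgm, A, B, hA, hB, hg'⟩ := hg
  refine EG_of_le hcont.measurable (A := 2 * A * Real.exp (B ^ 2 * s / 2)) (B := B)
    (by positivity) hB fun x => ?_
  have hE : EG (fun y => A * (Real.exp (B * y) + Real.exp (-B * y))) :=
    EG_mul (EG_const A) (EG_add (EG_exp B) (EG_exp (-B)))
  have hgE : EG g := ⟨hgm, A, B, hA, hB, hg'⟩
  have h1 : |P s g x| ≤ P s (fun y => A * (Real.exp (B * y) + Real.exp (-B * y))) x := by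
    have h2 : |P s g x| ≤ P s (fun y => |g y|) x := by
      unfold P
      refine (abs_integral_le_integral_abs).trans (le_of_eq ?_)
      congr 1
      funext y
      rw [abs_mul, abs_of_pos (phi_pos hs _)]
    refine h2.trans (P_mono hs (EG_abs hgE) hE (fun y => (hg' y).trans ?_) x)
    refine mul_le_mul_of_nonneg_left ?_ hA
    rcases le_total 0 y with hy | hy
    · rw [abs_of_nonneg hy]
      linarith [Real.exp_pos (-B * y)]
    · rw [abs_of_nonpos hy]
      have : B * -y = -B * y := by ring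
      rw [this]
      linarith [Real.exp_pos (B * y)]
  rw [P_const_mul, P_add hs (EG_exp B) (EG_exp (-B)), P_exp hs, P_exp hs] at h1
  refine h1.trans ?_
  have e1 : Real.exp (B * x + B ^ 2 * s / 2) ≤ Real.exp (B ^ 2 * s / 2) * Real.exp (B * |x|) := by
    rw [← Real.exp_add, Real.exp_le_exp]
    nlinarith [le_abs_self x]
  have e2 : Real.exp (-B * x + (-B) ^ 2 * s / 2)
      ≤ Real.exp (B ^ 2 * s / 2) * Real.exp (B * |x|) := by
    rw [← Real.exp_add, Real.exp_le_exp, neg_sq]
    nlinarith [neg_abs_le x]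
  calc A * (Real.exp (B * x + B ^ 2 * s / 2) + Real.exp (-B * x + (-B) ^ 2 * s / 2))
      ≤ A * (Real.exp (B ^ 2 * s / 2) * Real.exp (B * |x|)
          + Real.exp (B ^ 2 * s / 2) * Real.exp (B * |x|)) :=
        mul_le_mul_of_nonneg_left (add_le_add e1 e2) hA
    _ = 2 * A * Real.exp (B ^ 2 * s / 2) * Real.exp (B * |x|) := by ring

theorem P_id {s : ℝ} (hs : 0 < s) (x : ℝ) : P s (fun y => y) x = x := by
  have h1 := hasDerivAt_P hs (EG_const 1) x
  have h2 : P s (fun _ => (1 : ℝ)) = fun _ => 1 := funext (P_one hs)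
  rw [h2] at h1
  have h3 := h1.unique (hasDerivAt_const x (1 : ℝ))
  have h4 : P s (fun y => (y - x) * 1) x = P s (fun y => y) x - x := by
    have h5 : (fun y : ℝ => (y - x) * 1) = fun y => y - x * 1 := by
      funext y
      ring
    rw [h5, P_sub hs EG_id (EG_const _), P_const_mul, P_one hs, mul_one]
  rw [h4, div_eq_zero_iff] at h3
  rcases h3 with h3 | h3
  · linarith
  · exact absurd h3 hs.ne'

theorem P_sq {s : ℝ} (hs : 0 < s) (x : ℝ) : P s (fun y => y ^ 2) x = x ^ 2 + s := by
  have h1 := hasDerivAt_P hs EG_id x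
  have h2 : P s (fun y => y) = fun x => x := funext (P_id hs)
  rw [h2] at h1
  have h3 := h1.unique (hasDerivAt_id x)
  have h4 : P s (fun y => (y - x) * y) x = P s (fun y => y ^ 2) x - x * x := by
    have h5 : (fun y : ℝ => (y - x) * y) = fun y => y ^ 2 - x * y := by
      funext y
      ring
    rw [h5, P_sub hs (EG_pow EG_id 2) (EG_mul (EG_const x) EG_id), P_const_mul, P_id hs]
  rw [h4, div_eq_one_iff_eq hs.ne'] at h3
  linarith

end Pool.Agent.Helper85.Chern
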