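import Mathlib

/-!
# Definitions for the strong log-concavity of Chernoff's density
-/

namespace Pool.Agent.Helper85.Chern

open MeasureTheory ProbabilityTheory Filter Topology

/-- Centred Gaussian density of variance `s`. -/
noncomputable def phi (s u : ℝ) : ℝ :=
  (Real.sqrt (2 * Real.pi * s))⁻¹ * Real.exp (-(u ^ 2) / (2 * s))

/-- The Gaussian operator `P s g x = E g (x + N(0,s))`. -/
noncomputable def P (s : ℝ) (g : ℝ → ℝ) (x : ℝ) : ℝ := ∫ y, phi s (y - x) * g y

/-- The function `g` killed on `[b, ∞)`. -/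
noncomputable def cut (b : ℝ) (g : ℝ → ℝ) (y : ℝ) : ℝ := if y < b then g y else 0

/-- Measurable functions of at most exponential growth. -/
def EG (g : ℝ → ℝ) : Prop :=
  Measurable g ∧ ∃ A B : ℝ, 0 ≤ A ∧ 0 ≤ B ∧ ∀ x, |g x| ≤ A * Real.exp (B * |x|)

/-- Monotone likelihood ratio order of (unnormalised) densities, `p0` below `p1`. -/
def MLR (p0 p1 : ℝ → ℝ) : Prop := ∀ x y, x ≤ y → p1 x * p0 y ≤ p1 y * p0 x

/-- Positive, differentiable, log-concave functions of exponential growth. -/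
structure Nice (K : ℝ → ℝ) : Prop where
  pos : ∀ x, 0 < K x
  diff : Differentiable ℝ K
  anti : Antitone fun x => deriv K x / K x
  eg : EG K

/-- The inductive property of the three backward functions. -/
structure Tri (v : ℝ) (K L Q : ℝ → ℝ) : Prop where
  nice : Nice K
  egL : EG L
  egQ : EG Q
  mono : Monotone fun x => L x / K x
  lip : ∀ x y, x ≤ y → L y / K y - L x / K x ≤ y - x
  var : ∀ x, Q x / K x - (L x / K x) ^ 2 ≤ v

/-- `chain s b k j g x = E [g (X (k+j)) ; X i < b i for k < i ≤ k+j | X k = x]` for the random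
walk `X` with Gaussian steps of variance `s`. -/
noncomputable def chain (s : ℝ) (b : ℕ → ℝ) : ℕ → ℕ → (ℝ → ℝ) → ℝ → ℝ
  | _, 0, g => g
  | k, j + 1, g => P s (cut (b (k + 1)) (chain s b (k + 1) j g))

/-- The forward functions: `qt s b k` is (up to the Gaussian factor) the density of the killed
walk at time `k+1`, before the cut at `b (k+1)`. -/
noncomputable def qt (s : ℝ) (b : ℕ → ℝ) : ℕ → ℝ → ℝ
  | 0 => fun _ => 1
  | k + 1 => fun y =>
      P (((k : ℝ) + 1) * s / ((k : ℝ) + 2)) (cut (b (k + 1)) (qt s b k))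
        (((k : ℝ) + 1) / ((k : ℝ) + 2) * y)

/-- The parabolic barrier on the grid of mesh `1/n`. -/
noncomputable def bq (n : ℕ) (j : ℕ) : ℝ := ((j : ℝ) / n) ^ 2

/-- `G n N z = P(X j < (j/n)^2 + 2 z (j/n), 1 ≤ j ≤ N)`, `X` the walk with steps `N(0,1/n)`. -/
noncomputable def G (n N : ℕ) (z : ℝ) : ℝ :=
  chain (1 / (n : ℝ)) (fun j => ((j : ℝ) / n) ^ 2 + 2 * z * ((j : ℝ) / n)) 0 N (fun _ => 1) 0

/-- The limit of `G n N z` as `N` tends to infinity (the sequence is nonincreasing). -/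
noncomputable def Ginf (n : ℕ) (z : ℝ) : ℝ := ⨅ N, G n N z

/-- `F n (k/n)` is the probability that the grid argmax equals `k/n`. -/
noncomputable def F (n : ℕ) (z : ℝ) : ℝ := Ginf n z * Ginf n (-z)

/-- Log-concavity of a nonnegative function. -/
def LogConc (H : ℝ → ℝ) : Prop :=
  (∀ x, 0 ≤ H x) ∧ ∀ x y a b : ℝ, 0 ≤ a → 0 ≤ b → a + b = 1 →
    H x ^ a * H y ^ b ≤ H (a * x + b * y)

/-- The mass which the grid law with weights `F n (k/n)` at `k/n` gives to `U`. -/
noncomputable def mass (F : ℕ → ℝ → ℝ) (n : ℕ) (U : Set ℝ) : ENNReal :=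
  ∑' k : ℤ, U.indicator (fun x => ENNReal.ofReal (F n x)) ((k : ℝ) / n)

/-- Two-sided standard Brownian motion. -/
structure IsTwoSidedBM {Ω : Type*} [MeasurableSpace Ω] (W : ℝ → Ω → ℝ) (μ : Measure Ω) :
    Prop where
  measurable : ∀ t, Measurable (W t)
  zero : ∀ᵐ ω ∂μ, W 0 ω = 0
  indep : HasIndepIncrements W μ
  gauss : ∀ s t : ℝ, s ≤ t →
    μ.map (fun ω => W t ω - W s ω) = gaussianReal 0 (Real.toNNReal (t - s))
  cont : ∀ᵐ ω ∂μ, Continuous fun t => W t ω

/-- The constant in the strong log-concavity. -/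
noncomputable def c0 : ℝ := Real.exp (-90) / 10

end Pool.Agent.Helper85.Chern
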