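import Pool.Agent.Helper85.Chern.Main

/-!
# Consequences for continuous and for smooth densities
-/

namespace Pool.Agent.Helper85.Chern

open MeasureTheory Filter Topology

theorem LogConc.min_le {h : ℝ → ℝ} (hh : LogConc h) {x y z : ℝ} (hxz : x ≤ z) (hzy : z ≤ y) :
    min (h x) (h y) ≤ h z := by
  rcases eq_or_lt_of_le (hxz.trans hzy) with hxy | hxy
  · have : z = x := le_antisymm (by rw [hxy]; exact hzy) hxz
    rw [this]; exact min_le_left _ _
  have hd : 0 < y - x := by linarith
  set a := (y - z) / (y - x) with ha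
  set b := (z - x) / (y - x) with hb
  have ha0 : 0 ≤ a := div_nonneg (by linarith) hd.le
  have hb0 : 0 ≤ b := div_nonneg (by linarith) hd.le
  have hab : a + b = 1 := by rw [ha, hb, ← add_div]; rw [div_eq_one_iff_eq hd.ne']; ring
  have hz : a * x + b * y = z := by rw [ha, hb]; field_simp; ring
  have h1 := hh.2 x y a b ha0 hb0 hab
  rw [hz] at h1
  refine le_trans ?_ h1
  have hx0 := hh.1 x
  have hy0 := hh.1 y
  have hm0 : 0 ≤ min (h x) (h y) := le_min hx0 hy0
  calc min (h x) (h y) = min (h x) (h y) ^ (a + b) := by rw [hab, Real.rpow_one]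
    _ ≤ min (h x) (h y) ^ a * min (h x) (h y) ^ b := by
        rcases eq_or_lt_of_le hm0 with hm | hm
        · rw [← hm, hab, Real.rpow_one]
          exact mul_nonneg (Real.rpow_nonneg le_rfl _) (Real.rpow_nonneg le_rfl _)
        · rw [Real.rpow_add hm]
    _ ≤ h x ^ a * h y ^ b := by
        apply mul_le_mul (Real.rpow_le_rpow hm0 (min_le_left _ _) ha0)
          (Real.rpow_le_rpow hm0 (min_le_right _ _) hb0) (Real.rpow_nonneg hm0 _)
          (Real.rpow_nonneg hx0 _)

theorem LogConc.measurable {h : ℝ → ℝ} (hh : LogConc h) : Measurable h := by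
  apply measurable_of_Ioi
  intro c
  apply Set.OrdConnected.measurableSet
  refine ⟨fun x hx y hy z hz => ?_⟩
  exact lt_of_lt_of_le (lt_min hx hy) (hh.min_le hz.1 hz.2)

theorem logConc_of_ae {h f : ℝ → ℝ} (hh : LogConc h) (hf : Continuous f) (hae : f =ᵐ[volume] h) :
    LogConc f := by
  -- the good shifts are dense
  have hshift : ∀ x : ℝ, ∀ᵐ δ : ℝ, f (x + δ) = h (x + δ) := by
    intro x
    exact (measurePreserving_add_left volume x).quasiMeasurePreserving.ae hae
  have hseq : ∀ x y a b : ℝ, ∃ u : ℕ → ℝ, Tendsto u atTop (𝓝 0) ∧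
      ∀ n, f (x + u n) = h (x + u n) ∧ f (y + u n) = h (y + u n) ∧
        f (a * x + b * y + u n) = h (a * x + b * y + u n) := by
    intro x y a b
    have hall : ∀ᵐ δ : ℝ, f (x + δ) = h (x + δ) ∧ f (y + δ) = h (y + δ) ∧
        f (a * x + b * y + δ) = h (a * x + b * y + δ) := by
      filter_upwards [hshift x, hshift y, hshift (a * x + b * y)] with δ h1 h2 h3
      exact ⟨h1, h2, h3⟩
    have hd : Dense {δ : ℝ | f (x + δ) = h (x + δ) ∧ f (y + δ) = h (y + δ) ∧
        f (a * x + b * y + δ) = h (a * x + b * y + δ)} :=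
      MeasureTheory.Measure.dense_of_ae hall
    have hmem := hd 0
    rw [mem_closure_iff_seq_limit] at hmem
    obtain ⟨u, hu1, hu2⟩ := hmem
    exact ⟨u, hu2, hu1⟩
  have hcont : ∀ (x : ℝ) (u : ℕ → ℝ), Tendsto u atTop (𝓝 0) →
      Tendsto (fun n => f (x + u n)) atTop (𝓝 (f x)) := by
    intro x u hu
    have h1 : Tendsto (fun n => x + u n) atTop (𝓝 (x + 0)) := tendsto_const_nhds.add hu
    rw [add_zero] at h1
    exact (hf.tendsto x).comp h1
  have hnn : ∀ x, 0 ≤ f x := by
    intro x
    obtain ⟨u, hu, hu'⟩ := hseq x x 1 0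
    refine ge_of_tendsto' (hcont x u hu) fun n => ?_
    rw [(hu' n).1]; exact hh.1 _
  refine ⟨hnn, fun x y a b ha hb hab => ?_⟩
  obtain ⟨u, hu, hu'⟩ := hseq x y a b
  have h1 : Tendsto (fun n => f (x + u n) ^ a * f (y + u n) ^ b) atTop
      (𝓝 (f x ^ a * f y ^ b)) := by
    apply Tendsto.mul
    · exact (hcont x u hu).rpow_const (Or.inr ha)
    · exact (hcont y u hu).rpow_const (Or.inr hb)
  have h2 := hcont (a * x + b * y) u hu
  refine le_of_tendsto_of_tendsto' h1 h2 fun n => ?_
  rw [(hu' n).1, (hu' n).2.1, (hu' n).2.2]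
  have h3 := hh.2 (x + u n) (y + u n) a b ha hb hab
  have h4 : a * (x + u n) + b * (y + u n) = a * x + b * y + u n := by
    have : a * (x + u n) + b * (y + u n) = a * x + b * y + (a + b) * u n := by ring
    rw [this, hab, one_mul]
  rwa [h4] at h3

/-- a positive log-concave function has concave logarithm -/
theorem LogConc.concaveOn_log {h : ℝ → ℝ} (hh : LogConc h) (hpos : ∀ x, 0 < h x) :
    ConcaveOn ℝ Set.univ fun x => Real.log (h x) := by
  refine ⟨convex_univ, fun x _ y _ a b ha hb hab => ?_⟩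
  have h1 := hh.2 x y a b ha hb hab
  have h2 : Real.log (h x ^ a * h y ^ b) ≤ Real.log (h (a * x + b * y)) :=
    Real.log_le_log (mul_pos (Real.rpow_pos_of_pos (hpos x) _) (Real.rpow_pos_of_pos (hpos y) _)) h1
  rw [Real.log_mul (Real.rpow_pos_of_pos (hpos x) _).ne' (Real.rpow_pos_of_pos (hpos y) _).ne',
    Real.log_rpow (hpos x), Real.log_rpow (hpos y)] at h2
  simpa [smul_eq_mul] using h2

theorem density_ae {c : ℝ} {ν : Measure ℝ} [IsProbabilityMeasure ν] {h f : ℝ → ℝ}
    (hh : LogConc h) (hf : Measurable f) (hf0 : ∀ x, 0 ≤ f x)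
    (h1 : ν = volume.withDensity fun x => ENNReal.ofReal (h x * Real.exp (-(c * x ^ 2 / 2))))
    (h2 : ν = volume.withDensity fun x => ENNReal.ofReal (f x)) :
    (fun x => f x * Real.exp (c * x ^ 2 / 2)) =ᵐ[volume] h := by
  have hm1 : Measurable fun x : ℝ => ENNReal.ofReal (h x * Real.exp (-(c * x ^ 2 / 2))) := by
    have := hh.measurable
    fun_prop
  have hm2 : Measurable fun x : ℝ => ENNReal.ofReal (f x) := by fun_prop
  have hfin : ∫⁻ x, ENNReal.ofReal (f x) ≠ ⊤ := by
    have : ν Set.univ = ∫⁻ x, ENNReal.ofReal (f x) := by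
      conv_lhs => rw [h2]
      rw [withDensity_apply _ MeasurableSet.univ, setLIntegral_univ]
    rw [← this, measure_univ]; exact ENNReal.one_ne_top
  have heq : (fun x => ENNReal.ofReal (f x)) =ᵐ[volume]
      fun x => ENNReal.ofReal (h x * Real.exp (-(c * x ^ 2 / 2))) := by
    rw [← withDensity_eq_iff hm2.aemeasurable hm1.aemeasurable hfin, ← h1, ← h2]
  filter_upwards [heq] with x hx
  have h3 : f x = h x * Real.exp (-(c * x ^ 2 / 2)) := by
    have := congrArg ENNReal.toReal hx
    rwa [ENNReal.toReal_ofReal (hf0 x),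
      ENNReal.toReal_ofReal (mul_nonneg (hh.1 x) (Real.exp_pos _).le)] at this
  rw [h3, mul_assoc, ← Real.exp_add]
  simp

/-- the second derivative bound -/
theorem second_deriv_bound {c : ℝ} {f : ℝ → ℝ} (hf : ContDiff ℝ 2 f) (hpos : ∀ x, 0 < f x)
    (hlc : LogConc fun x => f x * Real.exp (c * x ^ 2 / 2)) (x : ℝ) :
    c ≤ -(deriv (deriv fun y => Real.log (f y)) x) := by
  have hpos' : ∀ x, 0 < f x * Real.exp (c * x ^ 2 / 2) := fun x => mul_pos (hpos x) (Real.exp_pos _)
  have hconc := hlc.concaveOn_log hpos'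
  have hlog : ∀ x, Real.log (f x * Real.exp (c * x ^ 2 / 2)) = Real.log (f x) + c * x ^ 2 / 2 := by
    intro x
    rw [Real.log_mul (hpos x).ne' (Real.exp_pos _).ne', Real.log_exp]
  have hfun : (fun x => Real.log (f x * Real.exp (c * x ^ 2 / 2)))
      = fun x => Real.log (f x) + c * x ^ 2 / 2 := funext hlog
  rw [hfun] at hconc
  have hlogC : ContDiff ℝ 2 fun y => Real.log (f y) := hf.log fun x => (hpos x).ne'
  have hd1 : Differentiable ℝ fun y => Real.log (f y) := hlogC.differentiable (by norm_num)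
  have hdd : ContDiff ℝ 1 (deriv fun y => Real.log (f y)) := by
    have h12 : ContDiff ℝ (1 + 1) fun y => Real.log (f y) := by
      have e : ((1 : WithTop ℕ∞) + 1) = 2 := by norm_num
      rw [e]; exact hlogC
    exact (contDiff_succ_iff_deriv.1 h12).2.2
  have hd2 : Differentiable ℝ (deriv fun y => Real.log (f y)) := hdd.differentiable (by norm_num)
  have hD : ∀ x, HasDerivAt (fun x => Real.log (f x) + c * x ^ 2 / 2)
      (deriv (fun y => Real.log (f y)) x + c * x) x := by
    intro x
    have h1 := (hd1 x).hasDerivAt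
    have h2 : HasDerivAt (fun x : ℝ => c * x ^ 2 / 2) (c * x) x := by
      have := ((hasDerivAt_pow 2 x).const_mul c).div_const 2
      have e : c * x = c * (((2 : ℕ) : ℝ) * x ^ (2 - 1)) / 2 := by
        norm_num
        ring
      rw [e]
      exact this
    exact h1.add h2
  have hderiv : deriv (fun x => Real.log (f x) + c * x ^ 2 / 2)
      = fun x => deriv (fun y => Real.log (f y)) x + c * x := funext fun x => (hD x).deriv
  have hanti : AntitoneOn (deriv fun x => Real.log (f x) + c * x ^ 2 / 2) Set.univ := by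
    apply hconc.antitoneOn_deriv
    intro x _
    exact (hD x).differentiableAt
  rw [hderiv] at hanti
  have hanti' : Antitone fun x => deriv (fun y => Real.log (f y)) x + c * x :=
    fun x y hxy => hanti (Set.mem_univ _) (Set.mem_univ _) hxy
  have hD2 : HasDerivAt (fun x => deriv (fun y => Real.log (f y)) x + c * x)
      (deriv (deriv fun y => Real.log (f y)) x + c) x := by
    have h1 := (hd2 x).hasDerivAt
    have h2 : HasDerivAt (fun x : ℝ => c * x) c x := by
      simpa using (hasDerivAt_id x).const_mul c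
    exact h1.add h2
  have := hD2.deriv
  have h3 : deriv (fun x => deriv (fun y => Real.log (f y)) x + c * x) x ≤ 0 :=
    hanti'.deriv_nonpos
  rw [this] at h3
  linarith

end Pool.Agent.Helper85.Chern
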