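import Pool.Agent.Helper85.Chern.Step

/-!
# M4a: the forward representation
-/

namespace Pool.Agent.Helper85.Chern

open MeasureTheory Filter Topology

theorem qt_nice {s : ℝ} (hs : 0 < s) (b : ℕ → ℝ) (k : ℕ) : Nice (qt s b k) := by
  induction k with
  | zero => exact Nice_one
  | succ k ih =>
    have h1 : (0:ℝ) < ((k : ℝ) + 1) * s / ((k : ℝ) + 2) := by positivity
    have h2 : (0:ℝ) < ((k : ℝ) + 1) / ((k : ℝ) + 2) := by positivity
    exact (Nice_step h1 ih (b (k + 1))).scale h2

theorem phi_chain {s : ℝ} (hs : 0 < s) (k : ℕ) (x y : ℝ) :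
    phi (((k : ℝ) + 1) * s) x * phi s (y - x)
      = phi (((k : ℝ) + 2) * s) y
        * phi (((k : ℝ) + 1) * s / ((k : ℝ) + 2)) (x - ((k : ℝ) + 1) / ((k : ℝ) + 2) * y) := by
  unfold phi
  have hk1 : (0:ℝ) < (k : ℝ) + 1 := by positivity
  have hk2 : (0:ℝ) < (k : ℝ) + 2 := by positivity
  have hpi := Real.pi_pos
  have e1 : Real.sqrt (2 * Real.pi * (((k : ℝ) + 1) * s)) * Real.sqrt (2 * Real.pi * s)
      = Real.sqrt (2 * Real.pi * (((k : ℝ) + 2) * s))
        * Real.sqrt (2 * Real.pi * (((k : ℝ) + 1) * s / ((k : ℝ) + 2))) := by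
    rw [← Real.sqrt_mul (by positivity), ← Real.sqrt_mul (by positivity)]
    congr 1
    field_simp
  have e2 : -(x ^ 2) / (2 * (((k : ℝ) + 1) * s)) + -((y - x) ^ 2) / (2 * s)
      = -(y ^ 2) / (2 * (((k : ℝ) + 2) * s))
        + -((x - ((k : ℝ) + 1) / ((k : ℝ) + 2) * y) ^ 2)
          / (2 * (((k : ℝ) + 1) * s / ((k : ℝ) + 2))) := by
    field_simp
    ring
  have h1 : ∀ a b c d : ℝ, c * Real.exp a * (d * Real.exp b) = c * d * Real.exp (a + b) := by
    intro a b c d
    rw [Real.exp_add]; ring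
  rw [h1, h1, e2, ← mul_inv, ← mul_inv, e1]

theorem fwd {s : ℝ} (hs : 0 < s) (b : ℕ → ℝ) (k : ℕ) {g : ℝ → ℝ} (hg : EG g) :
    chain s b 0 (k + 1) g 0
      = P (((k : ℝ) + 1) * s) (fun y => cut (b (k + 1)) (qt s b k) y * g y) 0 := by
  induction k generalizing g with
  | zero =>
    have e : (((0 : ℕ) : ℝ) + 1) * s = s := by simp
    rw [e]
    change P s (cut (b (0 + 1)) g) 0 = _
    congr 1
    funext y
    simp only [cut, qt]
    split_ifs <;> simp
  | succ k ih =>
    rw [chain_succ_last]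
    have hh : EG (cut (b (0 + (k + 1) + 1)) g) := EG_cut hg _
    rw [ih (EG_P hs hh)]
    have eb : (0 + (k + 1) + 1) = k + 1 + 1 := by ring
    rw [eb] at hh ⊢
    set h := cut (b (k + 1 + 1)) g with hhdef
    set w := cut (b (k + 1)) (qt s b k) with hwdef
    have hw : EG w := EG_cut (qt_nice hs b k).eg _
    have hS1 : (0:ℝ) < ((k : ℝ) + 1) * s := by positivity
    have hS2 : (0:ℝ) < ((k : ℝ) + 2) * s := by positivity
    -- Fubini
    have hmeas : Measurable (fun z : ℝ × ℝ =>
        phi (((k : ℝ) + 1) * s) (z.1 - 0) * (w z.1 * (phi s (z.2 - z.1) * h z.2))) := by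
      have c1 := (continuous_phi (((k : ℝ) + 1) * s)).measurable
      have c2 := (continuous_phi s).measurable
      exact ((c1.comp (measurable_fst.sub_const 0)).mul ((hw.1.comp measurable_fst).mul
        ((c2.comp (measurable_snd.sub measurable_fst)).mul (hh.1.comp measurable_snd))))
    have hint : Integrable (fun z : ℝ × ℝ =>
        phi (((k : ℝ) + 1) * s) (z.1 - 0) * (w z.1 * (phi s (z.2 - z.1) * h z.2)))
        (volume.prod volume) := by
      rw [integrable_prod_iff hmeas.aestronglyMeasurable]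
      constructor
      · refine Eventually.of_forall fun x => ?_
        exact ((EG_integrable hs hh x).const_mul (w x)).const_mul
          (phi (((k : ℝ) + 1) * s) (x - 0))
      · have h1 := EG_integrable hS1 (EG_mul (EG_abs hw) (EG_P hs (EG_abs hh))) 0
        refine h1.congr (Eventually.of_forall fun x => ?_)
        simp only
        have h2 : ∀ y, ‖phi (((k : ℝ) + 1) * s) (x - 0) * (w x * (phi s (y - x) * h y))‖
            = (phi (((k : ℝ) + 1) * s) (x - 0) * |w x|) * (phi s (y - x) * |h y|) := by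
          intro y
          rw [Real.norm_eq_abs, abs_mul, abs_mul, abs_mul, abs_of_pos (phi_pos hS1 _),
            abs_of_pos (phi_pos hs _)]
          ring
        simp only [h2]
        rw [integral_const_mul]
        unfold P
        ring
    have hL : P (((k : ℝ) + 1) * s) (fun y => w y * P s h y) 0
        = ∫ x, ∫ y, phi (((k : ℝ) + 1) * s) (x - 0) * (w x * (phi s (y - x) * h y)) := by
      unfold P
      congr 1
      funext x
      rw [integral_const_mul, integral_const_mul]
    rw [hL, integral_integral_swap hint]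
    have e1 : (((k + 1 : ℕ) : ℝ) + 1) * s = ((k : ℝ) + 2) * s := by push_cast; ring
    rw [e1]
    conv_rhs => unfold P
    congr 1
    funext y
    have e2 : cut (b (k + 1 + 1)) (qt s b (k + 1)) y * g y = qt s b (k + 1) y * h y := by
      simp only [hhdef, cut]
      split_ifs <;> simp
    beta_reduce
    rw [e2]
    change _ = phi (((k : ℝ) + 2) * s) (y - 0) * (P (((k : ℝ) + 1) * s / ((k : ℝ) + 2)) w
      (((k : ℝ) + 1) / ((k : ℝ) + 2) * y) * h y)
    unfold P
    have e3 : phi (((k : ℝ) + 2) * s) (y - 0) *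
        ((∫ x, phi (((k : ℝ) + 1) * s / ((k : ℝ) + 2))
          (x - ((k : ℝ) + 1) / ((k : ℝ) + 2) * y) * w x) * h y)
        = ∫ x, (phi (((k : ℝ) + 2) * s) y * h y) * (phi (((k : ℝ) + 1) * s / ((k : ℝ) + 2))
          (x - ((k : ℝ) + 1) / ((k : ℝ) + 2) * y) * w x) := by
      rw [integral_const_mul, sub_zero]
      ring
    rw [e3]
    congr 1
    funext x
    have e4 := phi_chain hs k x y
    rw [sub_zero]
    calc phi (((k : ℝ) + 1) * s) x * (w x * (phi s (y - x) * h y))
        = (phi (((k : ℝ) + 1) * s) x * phi s (y - x)) * (w x * h y) := by ring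
      _ = _ := by rw [e4]; ring

theorem P_antitone {s : ℝ} (hs : 0 < s) {g : ℝ → ℝ} (hg : EG g) (h : Antitone g) :
    Antitone (P s g) := by
  intro x x' hxx'
  rw [P_at_zero s g x, P_at_zero s g x']
  exact P_mono hs (EG_translate hg x') (EG_translate hg x) (fun u => h (by linarith)) 0

theorem cut_antitone {g : ℝ → ℝ} (hg0 : ∀ x, 0 ≤ g x) (h : Antitone g) (b : ℝ) :
    Antitone (cut b g) := by
  intro x y hxy
  unfold cut
  split_ifs with h1 h2 h2
  · exact h hxy
  · exact absurd (lt_of_le_of_lt hxy h1) h2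
  · exact hg0 x
  · exact le_rfl

theorem qt_anti {s : ℝ} (hs : 0 < s) (k : ℕ) : Antitone (qt s (fun _ => 0) k) := by
  induction k with
  | zero =>
    intro x y _
    exact le_rfl
  | succ k ih =>
    have h1 : (0:ℝ) < ((k : ℝ) + 1) * s / ((k : ℝ) + 2) := by positivity
    have hn := qt_nice hs (fun _ => (0:ℝ)) k
    intro x y hxy
    change P _ _ _ ≤ P _ _ _
    apply P_antitone h1 (EG_cut hn.eg _) (cut_antitone (fun x => (hn.pos x).le) ih _)
    exact mul_le_mul_of_nonneg_left hxy (by positivity)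

theorem qt_mlr {s : ℝ} (hs : 0 < s) {b : ℕ → ℝ} (hb : ∀ j, 0 ≤ b j) (k : ℕ) :
    MLR (qt s (fun _ => 0) k) (qt s b k) := by
  induction k with
  | zero =>
    intro x y _
    exact le_rfl
  | succ k ih =>
    have h1 : (0:ℝ) < ((k : ℝ) + 1) * s / ((k : ℝ) + 2) := by positivity
    have hn := qt_nice hs (fun _ => (0:ℝ)) k
    have hn' := qt_nice hs b k
    have h2 := MLR_P h1 (MLR_cut ih (fun x => (hn.pos x).le) (fun x => (hn'.pos x).le)
      (hb (k + 1))) (EG_cut hn.eg _) (EG_cut hn'.eg _)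
    intro x y hxy
    exact h2 _ _ (mul_le_mul_of_nonneg_left hxy (by positivity))

/-- the backward functions are ordered when `a ≤ a'` -/
theorem chain_exp_mlr {s : ℝ} (hs : 0 < s) (b : ℕ → ℝ) {a a' : ℝ} (h : a ≤ a') (k j : ℕ) :
    MLR (chain s b k j (fun x => Real.exp (a * x))) (chain s b k j (fun x => Real.exp (a' * x))) := by
  induction j generalizing k with
  | zero =>
    intro x y hxy
    change Real.exp (a' * x) * Real.exp (a * y) ≤ Real.exp (a' * y) * Real.exp (a * x)
    rw [← Real.exp_add, ← Real.exp_add]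
    apply Real.exp_le_exp.2
    nlinarith [mul_nonneg (sub_nonneg.2 h) (sub_nonneg.2 hxy)]
  | succ j ih =>
    have e : ∀ a : ℝ, EG (chain s b (k + 1) j (fun x => Real.exp (a * x))) := fun a =>
      EG_chain hs b (k + 1) j (EG_exp a)
    have n : ∀ a x : ℝ, 0 ≤ chain s b (k + 1) j (fun x => Real.exp (a * x)) x := fun a x =>
      chain_nonneg hs b (k + 1) j (fun x => (Real.exp_pos _).le) x
    exact MLR_P hs (MLR_cut (ih (k + 1)) (n a) (n a') le_rfl) (EG_cut (e a) _) (EG_cut (e a') _)

end Pool.Agent.Helper85.Chern
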