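import Pool.Agent.Helper85.Chern.Defs

/-!
# M8: limits of strongly log-concave grid laws
-/

namespace Pool.Agent.Helper85.Chern

open MeasureTheory Filter Topology

namespace LimitAux

/-- the function is nonnegative -/
theorem nonneg {c : ℝ} {f : ℝ → ℝ}
    (hlc : LogConc (fun x => f x * Real.exp (c / 2 * x ^ 2))) (x : ℝ) : 0 ≤ f x := by
  have h := hlc.1 x
  simp only at h
  exact nonneg_of_mul_nonneg_left h (Real.exp_pos _)

/-- even log-concave functions decrease in the absolute value -/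
theorem anti_abs {c : ℝ} {f : ℝ → ℝ}
    (hlc : LogConc (fun x => f x * Real.exp (c / 2 * x ^ 2)))
    (heven : ∀ x, f (-x) = f x) {x y : ℝ} (hxy : |x| ≤ |y|) :
    f y ≤ f x * Real.exp (-(c / 2 * (y ^ 2 - x ^ 2))) := by
  rcases eq_or_ne y 0 with rfl | hy
  · have : x = 0 := by
      simpa using hxy
    subst this
    simp
  · have hr : |x / y| ≤ 1 := by
      rw [abs_div]
      exact div_le_one_of_le₀ hxy (abs_nonneg _)
    rw [abs_le] at hr
    have h := hlc.2 y (-y) ((1 + x / y) / 2) ((1 - x / y) / 2) (by linarith) (by linarith) (by ring)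
    simp only [heven, neg_sq] at h
    have hx : (1 + x / y) / 2 * y + (1 - x / y) / 2 * (-y) = x := by
      field_simp
      ring
    rw [hx] at h
    have hH : 0 ≤ f y * Real.exp (c / 2 * y ^ 2) := hlc.1 y
    rw [← Real.rpow_add' hH (by ring_nf; norm_num)] at h
    have h1 : (1 + x / y) / 2 + (1 - x / y) / 2 = 1 := by ring
    rw [h1, Real.rpow_one] at h
    have e1 : Real.exp (-(c / 2 * (y ^ 2 - x ^ 2)))
        = Real.exp (c / 2 * x ^ 2) * (Real.exp (c / 2 * y ^ 2))⁻¹ := by
      rw [← Real.exp_neg, ← Real.exp_add]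
      congr 1
      ring
    rw [e1, ← mul_assoc, ← div_eq_mul_inv, le_div_iff₀ (Real.exp_pos _)]
    exact h

theorem anti_abs' {c : ℝ} (hc : 0 < c) {f : ℝ → ℝ}
    (hlc : LogConc (fun x => f x * Real.exp (c / 2 * x ^ 2)))
    (heven : ∀ x, f (-x) = f x) {x y : ℝ} (hxy : |x| ≤ |y|) : f y ≤ f x := by
  refine (anti_abs hlc heven hxy).trans ?_
  have h2 : x ^ 2 ≤ y ^ 2 := sq_le_sq.2 hxy
  have : Real.exp (-(c / 2 * (y ^ 2 - x ^ 2))) ≤ 1 := by
    rw [Real.exp_le_one_iff]
    have : 0 ≤ c / 2 * (y ^ 2 - x ^ 2) := by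
      apply mul_nonneg (by linarith) (by linarith)
    linarith
  calc f x * Real.exp (-(c / 2 * (y ^ 2 - x ^ 2))) ≤ f x * 1 :=
        mul_le_mul_of_nonneg_left this (nonneg hlc x)
    _ = f x := mul_one _

theorem mass_shift {F : ℕ → ℝ → ℝ} {n : ℕ} (hn : 1 ≤ n) (M : ℤ) :
    ∑' k : ℤ, ENNReal.ofReal (F n (((k : ℝ) / n) + M)) = mass F n Set.univ := by
  have hn0 : (n : ℝ) ≠ 0 := by positivity
  unfold mass
  rw [← (Equiv.addRight (M * n)).tsum_eq
    (fun k : ℤ => Set.univ.indicator (fun x => ENNReal.ofReal (F n x)) ((k : ℝ) / n))]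
  refine tsum_congr fun k => ?_
  simp only [Set.indicator_univ, Equiv.coe_addRight]
  congr 2
  push_cast
  field_simp

/-- counting, upper bound -/
theorem mass_Ioo_le {F : ℕ → ℝ → ℝ} {n : ℕ} (hn : 1 ≤ n) {a b z : ℝ} (hab : a < b)
    (hF : ∀ x ∈ Set.Ioo a b, F n x ≤ F n z) :
    mass F n (Set.Ioo a b) ≤ ENNReal.ofReal (b - a + 1 / n) * ENNReal.ofReal (n * F n z) := by
  have hn0 : (0 : ℝ) < n := by exact_mod_cast hn
  have hmem : ∀ k : ℤ, (k : ℝ) / n ∈ Set.Ioo a b → k ∈ Finset.Ioo ⌊n * a⌋ ⌈n * b⌉ := by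
    intro k hk
    rw [Set.mem_Ioo, lt_div_iff₀ hn0, div_lt_iff₀ hn0] at hk
    rw [Finset.mem_Ioo, Int.floor_lt, Int.lt_ceil]
    constructor <;> nlinarith [hk.1, hk.2]
  unfold mass
  rw [tsum_eq_sum (s := Finset.Ioo ⌊n * a⌋ ⌈n * b⌉)]
  · calc ∑ k ∈ Finset.Ioo ⌊n * a⌋ ⌈n * b⌉,
        (Set.Ioo a b).indicator (fun x => ENNReal.ofReal (F n x)) ((k : ℝ) / n)
        ≤ ∑ k ∈ Finset.Ioo ⌊n * a⌋ ⌈n * b⌉, ENNReal.ofReal (F n z) := by
          refine Finset.sum_le_sum fun k _ => ?_
          by_cases hk : (k : ℝ) / n ∈ Set.Ioo a b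
          · rw [Set.indicator_of_mem hk]
            exact ENNReal.ofReal_le_ofReal (hF _ hk)
          · rw [Set.indicator_of_notMem hk]
            exact zero_le
      _ = ENNReal.ofReal (((Finset.Ioo ⌊n * a⌋ ⌈n * b⌉).card : ℝ)) * ENNReal.ofReal (F n z) := by
          rw [Finset.sum_const, nsmul_eq_mul, ENNReal.ofReal_natCast]
      _ ≤ ENNReal.ofReal ((b - a + 1 / n) * n) * ENNReal.ofReal (F n z) := by
          gcongr
          rw [Int.card_Ioo]
          have h1 := Int.ceil_lt_add_one (n * b)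
          have h2 := Int.lt_floor_add_one (n * a)
          have h3 : (b - a + 1 / n) * n = n * b - n * a + 1 := by
            field_simp
          rw [h3]
          rcases le_or_gt 0 (⌈n * b⌉ - ⌊n * a⌋ - 1) with h4 | h4
          · have : (((⌈n * b⌉ - ⌊n * a⌋ - 1).toNat : ℤ) : ℝ) = ((⌈n * b⌉ - ⌊n * a⌋ - 1 : ℤ) : ℝ) := by
              rw [Int.toNat_of_nonneg h4]
            rw [Int.cast_natCast] at this
            rw [this]
            push_cast
            linarith
          · rw [Int.toNat_of_nonpos h4.le]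
            have : n * a < n * b := mul_lt_mul_of_pos_left hab hn0
            push_cast
            linarith
      _ = ENNReal.ofReal (b - a + 1 / n) * ENNReal.ofReal (n * F n z) := by
          have h0 : 0 ≤ b - a + 1 / n := by
            have : 0 < 1 / (n : ℝ) := by positivity
            linarith
          rw [ENNReal.ofReal_mul h0, ENNReal.ofReal_mul hn0.le, mul_assoc]
  · intro k hk
    exact Set.indicator_of_notMem (fun h => hk (hmem k h)) _

/-- counting, lower bound -/
theorem le_mass_Icc {F : ℕ → ℝ → ℝ} {n : ℕ} (hn : 1 ≤ n) {a b z : ℝ}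
    (hF : ∀ x ∈ Set.Icc a b, F n z ≤ F n x) :
    ENNReal.ofReal (b - a - 1 / n) * ENNReal.ofReal (n * F n z) ≤ mass F n (Set.Icc a b) := by
  have hn0 : (0 : ℝ) < n := by exact_mod_cast hn
  have hmem : ∀ k : ℤ, k ∈ Finset.Icc ⌈n * a⌉ ⌊n * b⌋ → (k : ℝ) / n ∈ Set.Icc a b := by
    intro k hk
    rw [Finset.mem_Icc, Int.ceil_le, Int.le_floor] at hk
    rw [Set.mem_Icc, le_div_iff₀ hn0, div_le_iff₀ hn0]
    constructor <;> nlinarith [hk.1, hk.2]
  calc ENNReal.ofReal (b - a - 1 / n) * ENNReal.ofReal (n * F n z)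
      = ENNReal.ofReal ((b - a - 1 / n) * n) * ENNReal.ofReal (F n z) := by
        rw [ENNReal.ofReal_mul' hn0.le, ENNReal.ofReal_mul hn0.le, mul_assoc]
    _ ≤ ENNReal.ofReal (((Finset.Icc ⌈n * a⌉ ⌊n * b⌋).card : ℝ)) * ENNReal.ofReal (F n z) := by
        gcongr
        rw [Int.card_Icc]
        have h1 := Int.ceil_lt_add_one (n * a)
        have h2 := Int.lt_floor_add_one (n * b)
        have h3 : (b - a - 1 / n) * n = n * b - n * a - 1 := by
          field_simp
        rw [h3]
        have h5 : ((⌊n * b⌋ + 1 - ⌈n * a⌉ : ℤ) : ℝ) ≤ (((⌊n * b⌋ + 1 - ⌈n * a⌉).toNat : ℤ) : ℝ) := by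
          exact_mod_cast Int.self_le_toNat _
        rw [Int.cast_natCast] at h5
        refine le_trans ?_ h5
        push_cast
        linarith
    _ = ∑ k ∈ Finset.Icc ⌈n * a⌉ ⌊n * b⌋, ENNReal.ofReal (F n z) := by
        rw [Finset.sum_const, nsmul_eq_mul, ENNReal.ofReal_natCast]
    _ ≤ ∑ k ∈ Finset.Icc ⌈n * a⌉ ⌊n * b⌋,
        (Set.Icc a b).indicator (fun x => ENNReal.ofReal (F n x)) ((k : ℝ) / n) := by
        refine Finset.sum_le_sum fun k hk => ?_
        rw [Set.indicator_of_mem (hmem k hk)]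
        exact ENNReal.ofReal_le_ofReal (hF _ (hmem k hk))
    _ ≤ mass F n (Set.Icc a b) := ENNReal.sum_le_tsum _

theorem mass_add_compl {F : ℕ → ℝ → ℝ} {n : ℕ} (U : Set ℝ) :
    mass F n U + mass F n Uᶜ = mass F n Set.univ := by
  unfold mass
  rw [← ENNReal.tsum_add]
  refine tsum_congr fun k => ?_
  by_cases h : (k : ℝ) / n ∈ U
  · rw [Set.indicator_of_mem h, Set.indicator_of_notMem (by simpa using h)]
    simp
  · rw [Set.indicator_of_notMem h, Set.indicator_of_mem (by simpa using h)]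
    simp

/-- the dyadic argument -/
theorem dyadic {D g : ℝ → ℝ} {a b : ℝ}
    (h : ∀ x y, a ≤ x → x ≤ y → y ≤ b → |D y - D x| ≤ (y - x) * (g y - g x)) (hab : a ≤ b) :
    D b = D a := by
  have key : ∀ m : ℕ, ∀ x y, a ≤ x → x ≤ y → y ≤ b →
      |D y - D x| ≤ (y - x) * (g y - g x) / 2 ^ m := by
    intro m
    induction m with
    | zero => intro x y h1 h2 h3; simpa using h x y h1 h2 h3
    | succ m ih =>
      intro x y h1 h2 h3
      have e1 := ih x ((x + y) / 2) h1 (by linarith) (by linarith)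
      have e2 := ih ((x + y) / 2) y (by linarith) (by linarith) h3
      have e3 : |D y - D x| ≤ |D y - D ((x + y) / 2)| + |D ((x + y) / 2) - D x| :=
        abs_sub_le _ _ _
      refine e3.trans ((add_le_add e2 e1).trans (le_of_eq ?_))
      field_simp
      ring
  have hlim : Tendsto (fun m : ℕ => (b - a) * (g b - g a) / 2 ^ m) atTop (𝓝 0) := by
    have : Tendsto (fun m : ℕ => (2 : ℝ) ^ m) atTop atTop :=
      tendsto_pow_atTop_atTop_of_one_lt (by norm_num)
    exact this.const_div_atTop _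
  have h0 : |D b - D a| ≤ 0 :=
    ge_of_tendsto' hlim fun m => key m a b le_rfl hab le_rfl
  have := abs_nonpos_iff.1 h0
  linarith

/-- the ultrafilter used for the limits -/
noncomputable def UU : Ultrafilter ℕ := Filter.hyperfilter ℕ

theorem UU_le : (UU : Filter ℕ) ≤ atTop := Nat.hyperfilter_le_atTop

theorem exists_lim (g : ℕ → ENNReal) : ∃ l, Tendsto g (UU : Filter ℕ) (𝓝 l) :=
  ⟨(UU.map g).lim, (UU.map g).le_nhds_lim⟩

theorem half_ineq {c : ℝ} (hc : 0 < c) {f : ℝ → ℝ}
    (hlc : LogConc (fun x => f x * Real.exp (c / 2 * x ^ 2))) (x : ℝ) :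
    f 0 * f x ≤ f (x / 2) * f (x / 2) * Real.exp (c / 4 * x ^ 2) := by
  have h := hlc.2 0 x (1 / 2) (1 / 2) (by norm_num) (by norm_num) (by norm_num)
  have hx : (1 / 2 : ℝ) * 0 + 1 / 2 * x = x / 2 := by ring
  simp only [hx] at h
  have h0 := hlc.1 0
  have h1 := hlc.1 x
  have h2 := hlc.1 (x / 2)
  simp only at h0 h1 h2
  rw [← Real.mul_rpow h0 h1, ← Real.sqrt_eq_rpow, Real.sqrt_le_iff] at h
  have h3 := h.2
  have e0 : Real.exp (c / 2 * 0 ^ 2) = 1 := by simp
  have e1 : Real.exp (c / 2 * (x / 2) ^ 2) ^ 2 = Real.exp (c / 4 * x ^ 2) := by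
    rw [← Real.exp_nat_mul]
    congr 1
    push_cast
    ring
  rw [e0, mul_one, mul_pow, e1] at h3
  have e2 : 1 ≤ Real.exp (c / 2 * x ^ 2) := by
    rw [Real.one_le_exp_iff]
    positivity
  have h4 : f 0 * f x ≤ f 0 * (f x * Real.exp (c / 2 * x ^ 2)) := by
    refine mul_le_mul_of_nonneg_left ?_ (nonneg hlc 0)
    exact le_mul_of_one_le_right (nonneg hlc x) e2
  calc f 0 * f x ≤ _ := h4
    _ ≤ _ := h3
    _ = _ := by ring

end LimitAux

open LimitAux

theorem tight_of_logConc {c : ℝ} (hc : 0 < c) {F : ℕ → ℝ → ℝ}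
    (hlc : ∀ n, 1 ≤ n → LogConc (fun x => F n x * Real.exp (c / 2 * x ^ 2)))
    (heven : ∀ n, 1 ≤ n → ∀ x, F n (-x) = F n x)
    (hone : ∀ n, 1 ≤ n → mass F n Set.univ = 1) :
    ∀ ε : ENNReal, 0 < ε → ∃ T : ℝ, ∀ n : ℕ, 1 ≤ n → mass F n {x | T < |x|} ≤ ε := by
  intro ε hε
  have hlim : Tendsto (fun M : ℕ => ENNReal.ofReal (Real.exp (-(c / 2 * M))) * 2) atTop
      (𝓝 0) := by
    have h1 : Tendsto (fun M : ℕ => Real.exp (-(c / 2 * M))) atTop (𝓝 0) := by
      apply Real.tendsto_exp_neg_atTop_nhds_zero.comp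
      exact (tendsto_natCast_atTop_atTop).const_mul_atTop (by linarith)
    have h2 := ENNReal.tendsto_ofReal h1
    have h3 := ENNReal.Tendsto.mul_const (b := 2) h2 (Or.inr (by norm_num))
    simpa using h3
  obtain ⟨M, hM⟩ := (hlim.eventually (gt_mem_nhds hε)).and (eventually_ge_atTop 1) |>.exists
  refine ⟨M, fun n hn => ?_⟩
  have hn0 : (0 : ℝ) < n := by exact_mod_cast hn
  have hM1 : (1 : ℝ) ≤ M := by exact_mod_cast hM.2
  refine le_trans ?_ hM.1.le
  calc mass F n {x | (M : ℝ) < |x|}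
      ≤ ∑' k : ℤ, ENNReal.ofReal (Real.exp (-(c / 2 * M))) *
          (ENNReal.ofReal (F n ((k : ℝ) / n + ((-M : ℤ) : ℝ)))
            + ENNReal.ofReal (F n ((k : ℝ) / n + ((M : ℤ) : ℝ)))) := by
        unfold mass
        refine ENNReal.tsum_le_tsum fun k => ?_
        by_cases hk : (k : ℝ) / n ∈ {x | (M : ℝ) < |x|}
        · rw [Set.indicator_of_mem hk]
          simp only [Set.mem_ofPred_eq] at hk
          set x : ℝ := (k : ℝ) / n with hx
          rcases le_or_gt 0 x with h0 | h0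
          · rw [abs_of_nonneg h0] at hk
            refine le_trans ?_ (mul_le_mul_right le_self_add _)
            rw [← ENNReal.ofReal_mul (Real.exp_pos _).le]
            refine ENNReal.ofReal_le_ofReal ?_
            have h1 := anti_abs (hlc n hn) (heven n hn) (x := x + ((-M : ℤ) : ℝ)) (y := x)
              (by
                push_cast
                rw [abs_of_nonneg h0, abs_of_nonneg (by linarith)]
                linarith)
            refine h1.trans ?_
            rw [mul_comm]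
            refine mul_le_mul_of_nonneg_right ?_ (nonneg (hlc n hn) _)
            rw [Real.exp_le_exp]
            push_cast
            have : (M : ℝ) ≤ x ^ 2 - (x + -(M : ℝ)) ^ 2 := by nlinarith
            nlinarith
          · rw [abs_of_neg h0] at hk
            refine le_trans ?_ (mul_le_mul_right le_add_self _)
            rw [← ENNReal.ofReal_mul (Real.exp_pos _).le]
            refine ENNReal.ofReal_le_ofReal ?_
            have h1 := anti_abs (hlc n hn) (heven n hn) (x := x + ((M : ℤ) : ℝ)) (y := x)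
              (by
                push_cast
                rw [abs_of_neg h0, abs_of_nonpos (by linarith)]
                linarith)
            refine h1.trans ?_
            rw [mul_comm]
            refine mul_le_mul_of_nonneg_right ?_ (nonneg (hlc n hn) _)
            rw [Real.exp_le_exp]
            push_cast
            have : (M : ℝ) ≤ x ^ 2 - (x + (M : ℝ)) ^ 2 := by nlinarith
            nlinarith
        · rw [Set.indicator_of_notMem hk]
          exact zero_le
    _ = ENNReal.ofReal (Real.exp (-(c / 2 * M))) * 2 := by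
        rw [ENNReal.tsum_mul_left, ENNReal.tsum_add, mass_shift hn, mass_shift hn, hone n hn]
        norm_num

theorem limit_law {c : ℝ} (hc : 0 < c) {F : ℕ → ℝ → ℝ}
    (hlc : ∀ n, 1 ≤ n → LogConc (fun x => F n x * Real.exp (c / 2 * x ^ 2)))
    (heven : ∀ n, 1 ≤ n → ∀ x, F n (-x) = F n x)
    (hone : ∀ n, 1 ≤ n → mass F n Set.univ = 1)
    {ν : Measure ℝ} [IsProbabilityMeasure ν]
    (hlim : ∀ U : Set ℝ, IsOpen U → ν U ≤ liminf (fun n : ℕ => mass F n U) atTop)
    (h0 : ν {0} < 1) :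
    ∃ h : ℝ → ℝ, LogConc h ∧
      ν = volume.withDensity (fun x => ENNReal.ofReal (h x * Real.exp (-(c * x ^ 2 / 2)))) := by
  classical
  choose φ hφ using fun x : ℝ => exists_lim (fun n : ℕ => ENNReal.ofReal (n * F n x))
  have hev : ∀ᶠ n : ℕ in (UU : Filter ℕ), 1 ≤ n := UU_le (eventually_ge_atTop 1)
  have hinv : Tendsto (fun n : ℕ => 1 / (n : ℝ)) (UU : Filter ℕ) (𝓝 0) :=
    tendsto_one_div_atTop_nhds_zero_nat.mono_left UU_le
  -- upper bound for the limit
  have up : ∀ a b z : ℝ, a < b → (∀ x ∈ Set.Ioo a b, |z| ≤ |x|) →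
      ν (Set.Ioo a b) ≤ ENNReal.ofReal (b - a) * φ z := by
    intro a b z hab hz
    have h1 : Tendsto (fun n : ℕ => ENNReal.ofReal (b - a + 1 / n) *
        ENNReal.ofReal (n * F n z)) (UU : Filter ℕ) (𝓝 (ENNReal.ofReal (b - a) * φ z)) := by
      refine ENNReal.Tendsto.mul ?_ (Or.inl ?_) (hφ z) (Or.inr ENNReal.ofReal_ne_top)
      · refine ENNReal.tendsto_ofReal ?_
        simpa using (tendsto_const_nhds (x := b - a)).add hinv
      · simpa using hab
    refine (hlim _ isOpen_Ioo).trans ?_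
    rw [← h1.liminf_eq]
    refine (liminf_le_liminf_of_le UU_le).trans ?_
    exact liminf_le_liminf (hev.mono fun n hn => mass_Ioo_le hn hab fun x hx =>
      anti_abs' hc (hlc n hn) (heven n hn) (hz x hx))
  -- lower bound for the limit
  have lo : ∀ a b z : ℝ, a < b → (∀ x ∈ Set.Icc a b, |x| ≤ |z|) →
      ENNReal.ofReal (b - a) * φ z ≤ ν (Set.Icc a b) := by
    intro a b z hab hz
    have h1 : Tendsto (fun n : ℕ => ENNReal.ofReal (b - a - 1 / n) *
        ENNReal.ofReal (n * F n z)) (UU : Filter ℕ) (𝓝 (ENNReal.ofReal (b - a) * φ z)) := by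
      refine ENNReal.Tendsto.mul ?_ (Or.inl ?_) (hφ z) (Or.inr ENNReal.ofReal_ne_top)
      · refine ENNReal.tendsto_ofReal ?_
        simpa using (tendsto_const_nhds (x := b - a)).sub hinv
      · simpa using hab
    obtain ⟨l, hl⟩ := exists_lim (fun n => mass F n (Set.Icc a b)ᶜ)
    have h2 : ν (Set.Icc a b)ᶜ ≤ l := by
      rw [← hl.liminf_eq]
      exact (hlim _ isClosed_Icc.isOpen_compl).trans (liminf_le_liminf_of_le UU_le)
    have h3 : ENNReal.ofReal (b - a) * φ z + l ≤ 1 := by
      refine le_of_tendsto (h1.add hl) (hev.mono fun n hn => ?_)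
      rw [← hone n hn, ← mass_add_compl (Set.Icc a b)]
      refine add_le_add (le_mass_Icc hn fun x hx => ?_) le_rfl
      exact anti_abs' hc (hlc n hn) (heven n hn) (hz x hx)
    have h4 : ν (Set.Icc a b) + ν (Set.Icc a b)ᶜ = 1 := prob_add_prob_compl measurableSet_Icc
    have h5 : ENNReal.ofReal (b - a) * φ z + ν (Set.Icc a b)ᶜ
        ≤ ν (Set.Icc a b) + ν (Set.Icc a b)ᶜ := by
      rw [h4]
      exact (add_le_add le_rfl h2).trans h3
    exact (ENNReal.add_le_add_iff_right (measure_ne_top ν _)).1 h5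
  have fin : ∀ x, x ≠ 0 → φ x ≠ ⊤ := by
    intro x hx h
    have hp := abs_pos.2 hx
    have h1 := lo (-|x|) |x| x (by linarith) (fun y hy => abs_le.2 hy)
    rw [h, ENNReal.mul_top (by simpa using hp)] at h1
    exact absurd (top_le_iff.1 h1) (measure_ne_top ν _)
  have fin0 : φ 0 ≠ ⊤ := by
    intro htop
    have hz : ∀ x, x ≠ 0 → φ x = 0 := by
      intro x hx
      by_contra hne
      have hx2 : x / 2 ≠ 0 := by simpa using hx
      have h1 : Tendsto (fun n : ℕ => ENNReal.ofReal (n * F n 0) *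
          ENNReal.ofReal (n * F n x)) (UU : Filter ℕ) (𝓝 (φ 0 * φ x)) :=
        ENNReal.Tendsto.mul (hφ 0) (Or.inr (fin x hx)) (hφ x) (Or.inl hne)
      have h2 : Tendsto (fun n : ℕ => ENNReal.ofReal (n * F n (x / 2)) *
          ENNReal.ofReal (n * F n (x / 2)) * ENNReal.ofReal (Real.exp (c / 4 * x ^ 2)))
          (UU : Filter ℕ) (𝓝 (φ (x / 2) * φ (x / 2) *
            ENNReal.ofReal (Real.exp (c / 4 * x ^ 2)))) :=
        ENNReal.Tendsto.mul_const (ENNReal.Tendsto.mul (hφ _) (Or.inr (fin _ hx2)) (hφ _)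
          (Or.inr (fin _ hx2))) (Or.inr ENNReal.ofReal_ne_top)
      have h3 := le_of_tendsto_of_tendsto h1 h2 (hev.mono fun n hn => by
        have hn0 : (0 : ℝ) ≤ n := by positivity
        have e1 := nonneg (hlc n hn)
        have e2 := half_ineq hc (hlc n hn) x
        simp only
        rw [← ENNReal.ofReal_mul (mul_nonneg hn0 (e1 _)),
          ← ENNReal.ofReal_mul (mul_nonneg hn0 (e1 _)),
          ← ENNReal.ofReal_mul (mul_nonneg (mul_nonneg hn0 (e1 _)) (mul_nonneg hn0 (e1 _)))]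
        refine ENNReal.ofReal_le_ofReal ?_
        have e3 : (n * F n 0) * (n * F n x) = n ^ 2 * (F n 0 * F n x) := by ring
        have e4 : (n * F n (x / 2)) * (n * F n (x / 2)) * Real.exp (c / 4 * x ^ 2)
            = n ^ 2 * (F n (x / 2) * F n (x / 2) * Real.exp (c / 4 * x ^ 2)) := by ring
        rw [e3, e4]
        exact mul_le_mul_of_nonneg_left e2 (by positivity))
      rw [htop, ENNReal.top_mul hne] at h3
      exact (ENNReal.mul_ne_top (ENNReal.mul_ne_top (fin _ hx2) (fin _ hx2))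
        ENNReal.ofReal_ne_top) (top_le_iff.1 h3)
    have h1 : ν ({0}ᶜ : Set ℝ) = 0 := by
      apply measure_null_of_locally_null
      intro x hx
      have hx0 : x ≠ 0 := hx
      have hp := abs_pos.2 hx0
      refine ⟨Set.Ioo (x - |x| / 2) (x + |x| / 2),
        mem_nhdsWithin_of_mem_nhds (Ioo_mem_nhds (by linarith) (by linarith)), ?_⟩
      have h2 := up (x - |x| / 2) (x + |x| / 2) (x / 2) (by linarith) (fun y hy => by
        have e1 : |y - x| < |x| / 2 := by
          rw [abs_lt]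
          constructor <;> linarith [hy.1, hy.2]
        have e2 : |x| - |y - x| ≤ |y| := by
          have := abs_sub_abs_le_abs_sub x y
          rw [abs_sub_comm x y] at this
          linarith
        rw [abs_div, abs_two]
        linarith)
      rw [hz (x / 2) (by simpa using hx0), mul_zero] at h2
      exact le_antisymm h2 zero_le
    rw [prob_compl_eq_zero_iff (measurableSet_singleton _)] at h1
    rw [h1] at h0
    exact lt_irrefl _ h0
  have fin' : ∀ x, φ x ≠ ⊤ := fun x => by
    rcases eq_or_ne x 0 with rfl | hx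
    · exact fin0
    · exact fin x hx
  -- no atoms
  have hna : ∀ x, ν {x} = 0 := by
    intro x
    have h1 : Tendsto (fun n : ℕ => ENNReal.ofReal (2 / ((n : ℝ) + 1)) * φ 0) atTop (𝓝 0) := by
      have e1 : Tendsto (fun n : ℕ => (2 : ℝ) / ((n : ℝ) + 1)) atTop (𝓝 0) := by
        have := tendsto_one_div_add_atTop_nhds_zero_nat (𝕜 := ℝ)
        have h2 := this.const_mul 2
        simpa [div_eq_mul_inv] using h2
      have e2 := ENNReal.tendsto_ofReal e1
      have e3 := ENNReal.Tendsto.mul_const (b := φ 0) e2 (Or.inr fin0)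
      simpa using e3
    have h2 : ν {x} ≤ 0 := by
      refine ge_of_tendsto' h1 fun n => ?_
      have hp : (0 : ℝ) < 1 / ((n : ℝ) + 1) := by positivity
      have h3 := up (x - 1 / ((n : ℝ) + 1)) (x + 1 / ((n : ℝ) + 1)) 0 (by linarith)
        (fun y _ => by simp)
      have e : x + 1 / ((n : ℝ) + 1) - (x - 1 / ((n : ℝ) + 1)) = 2 / ((n : ℝ) + 1) := by ring
      rw [e] at h3
      refine le_trans (measure_mono ?_) h3
      intro y hy
      rw [Set.mem_singleton_iff] at hy
      rw [hy]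
      constructor <;> linarith
    exact le_antisymm h2 zero_le
  have : NullSingletonClass ν := ⟨hna⟩
  -- the limit function
  obtain ⟨f, hf⟩ : ∃ f : ℝ → ℝ, ∀ x, f x = (φ x).toReal := ⟨fun x => (φ x).toReal, fun _ => rfl⟩
  have hf0 : ∀ x, 0 ≤ f x := fun x => by rw [hf]; exact ENNReal.toReal_nonneg
  have hφf : ∀ x, φ x = ENNReal.ofReal (f x) := fun x => by rw [hf, ENNReal.ofReal_toReal (fin' x)]
  have hft : ∀ x, Tendsto (fun n : ℕ => (n : ℝ) * F n x) (UU : Filter ℕ) (𝓝 (f x)) := by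
    intro x
    have h1 := (ENNReal.tendsto_toReal (fin' x)).comp (hφ x)
    rw [← hf] at h1
    refine h1.congr' (hev.mono fun n hn => ?_)
    simp only [Function.comp]
    exact ENNReal.toReal_ofReal (mul_nonneg (by positivity) (nonneg (hlc n hn) x))
  have hanti : ∀ x y, |x| ≤ |y| → f y ≤ f x := by
    intro x y hxy
    refine le_of_tendsto_of_tendsto (hft y) (hft x) (hev.mono fun n hn => ?_)
    exact mul_le_mul_of_nonneg_left (anti_abs' hc (hlc n hn) (heven n hn) hxy) (by positivity)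
  have up' : ∀ x y z : ℝ, x ≤ y → (∀ t ∈ Set.Ioo x y, |z| ≤ |t|) →
      (ν (Set.Ioc x y)).toReal ≤ (y - x) * f z := by
    intro x y z hxy hz
    rcases eq_or_lt_of_le hxy with rfl | hlt
    · simp
    · have h1 := up x y z hlt hz
      rw [hφf, ← ENNReal.ofReal_mul (by linarith), measure_congr Ioo_ae_eq_Ioc] at h1
      exact ENNReal.toReal_le_of_le_ofReal (mul_nonneg (by linarith) (hf0 z)) h1
  have lo' : ∀ x y z : ℝ, x ≤ y → (∀ t ∈ Set.Icc x y, |t| ≤ |z|) →
      (y - x) * f z ≤ (ν (Set.Ioc x y)).toReal := by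
    intro x y z hxy hz
    rcases eq_or_lt_of_le hxy with rfl | hlt
    · simp
    · have h1 := lo x y z hlt hz
      rw [hφf, ← ENNReal.ofReal_mul (by linarith), ← measure_congr Ioc_ae_eq_Icc] at h1
      exact (ENNReal.ofReal_le_iff_le_toReal (measure_ne_top ν _)).1 h1
  -- integrability
  have hint0 : ∀ x : ℝ, IntervalIntegrable f volume 0 x := by
    intro x
    rcases le_total 0 x with hx | hx
    · apply AntitoneOn.intervalIntegrable
      intro s hs t ht hst
      rw [Set.uIcc_of_le hx] at hs ht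
      exact hanti s t (by rw [abs_of_nonneg hs.1, abs_of_nonneg ht.1]; exact hst)
    · apply MonotoneOn.intervalIntegrable
      intro s hs t ht hst
      rw [Set.uIcc_of_ge hx] at hs ht
      exact hanti t s (by rw [abs_of_nonpos hs.2, abs_of_nonpos ht.2]; linarith)
  have hint : ∀ x y : ℝ, IntervalIntegrable f volume x y := fun x y =>
    (hint0 x).symm.trans (hint0 y)
  have upI : ∀ x y z : ℝ, x ≤ y → (∀ t ∈ Set.Ioo x y, |z| ≤ |t|) →
      ∫ t in x..y, f t ≤ (y - x) * f z := by
    intro x y z hxy hz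
    have h1 := intervalIntegral.integral_mono_on_of_le_Ioo hxy (hint x y)
      (intervalIntegrable_const (c := f z)) (fun t ht => hanti z t (hz t ht))
    simpa using h1
  have loI : ∀ x y z : ℝ, x ≤ y → (∀ t ∈ Set.Icc x y, |t| ≤ |z|) →
      (y - x) * f z ≤ ∫ t in x..y, f t := by
    intro x y z hxy hz
    have h1 := intervalIntegral.integral_mono_on hxy
      (intervalIntegrable_const (c := f z)) (hint x y) (fun t ht => hanti t z (hz t ht))
    simpa using h1
  -- the difference of the distribution functions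
  obtain ⟨D, hD⟩ : ∃ D : ℝ → ℝ, ∀ x, D x = (ν (Set.Iic x)).toReal - ∫ t in (0 : ℝ)..x, f t :=
    ⟨_, fun _ => rfl⟩
  have hDD : ∀ x y, x ≤ y → D y - D x = (ν (Set.Ioc x y)).toReal - ∫ t in x..y, f t := by
    intro x y hxy
    have e1 : (ν (Set.Iic y)).toReal = (ν (Set.Iic x)).toReal + (ν (Set.Ioc x y)).toReal := by
      rw [← ENNReal.toReal_add (measure_ne_top _ _) (measure_ne_top _ _),
        ← measure_union _ measurableSet_Ioc, Set.Iic_union_Ioc_eq_Iic hxy]
      rw [Set.disjoint_left]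
      intro t ht ht'
      exact absurd ht'.1 (not_lt.2 ht)
    have e2 : (∫ t in (0 : ℝ)..y, f t) = (∫ t in (0 : ℝ)..x, f t) + ∫ t in x..y, f t :=
      (intervalIntegral.integral_add_adjacent_intervals (hint _ _) (hint _ _)).symm
    rw [hD, hD, e1, e2]
    ring
  have hDpos : ∀ b, 0 ≤ b → D b = D 0 := by
    intro b hb
    refine dyadic (g := fun x => - f x) (fun x y hx hxy hy => ?_) hb
    rw [hDD x y hxy, abs_le]
    have h1 := up' x y x hxy (fun t ht => by
      rw [abs_of_nonneg hx, abs_of_nonneg (by linarith [ht.1])]; exact ht.1.le)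
    have h2 := lo' x y y hxy (fun t ht => by
      rw [abs_of_nonneg (hx.trans hxy), abs_of_nonneg (by linarith [ht.1])]; exact ht.2)
    have h3 := upI x y x hxy (fun t ht => by
      rw [abs_of_nonneg hx, abs_of_nonneg (by linarith [ht.1])]; exact ht.1.le)
    have h4 := loI x y y hxy (fun t ht => by
      rw [abs_of_nonneg (hx.trans hxy), abs_of_nonneg (by linarith [ht.1])]; exact ht.2)
    constructor <;> nlinarith
  have hDneg : ∀ a, a ≤ 0 → D 0 = D a := by
    intro a ha
    refine dyadic (g := fun x => f x) (fun x y hx hxy hy => ?_) ha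
    rw [hDD x y hxy, abs_le]
    have h1 := up' x y y hxy (fun t ht => by
      rw [abs_of_nonpos hy, abs_of_nonpos (by linarith [ht.2])]; linarith [ht.2])
    have h2 := lo' x y x hxy (fun t ht => by
      rw [abs_of_nonpos (hxy.trans hy), abs_of_nonpos (by linarith [ht.2])]; linarith [ht.1])
    have h3 := upI x y y hxy (fun t ht => by
      rw [abs_of_nonpos hy, abs_of_nonpos (by linarith [ht.2])]; linarith [ht.2])
    have h4 := loI x y x hxy (fun t ht => by
      rw [abs_of_nonpos (hxy.trans hy), abs_of_nonpos (by linarith [ht.2])]; linarith [ht.1])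
    constructor <;> nlinarith
  have hDc : ∀ x, D x = D 0 := fun x => by
    rcases le_total 0 x with hx | hx
    · exact hDpos x hx
    · exact (hDneg x hx).symm
  have hIoc : ∀ x y, x ≤ y → (ν (Set.Ioc x y)).toReal = ∫ t in x..y, f t := by
    intro x y hxy
    have := hDD x y hxy
    rw [hDc, hDc x] at this
    linarith
  have hν : ν = volume.withDensity (fun x => ENNReal.ofReal (f x)) := by
    refine Measure.ext_of_Ioc _ _ fun a b hab => ?_
    rw [withDensity_apply _ measurableSet_Ioc,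
      ← ofReal_integral_eq_lintegral_ofReal ((hint a b).1)
        (Eventually.of_forall fun x => hf0 x),
      ← intervalIntegral.integral_of_le hab.le, ← hIoc a b hab.le,
      ENNReal.ofReal_toReal (measure_ne_top ν _)]
  refine ⟨fun x => f x * Real.exp (c / 2 * x ^ 2), ⟨fun x => mul_nonneg (hf0 x)
    (Real.exp_pos _).le, ?_⟩, ?_⟩
  · intro x y a b ha hb hab
    have hH : ∀ x, Tendsto (fun n : ℕ => (n : ℝ) * F n x * Real.exp (c / 2 * x ^ 2))
        (UU : Filter ℕ) (𝓝 (f x * Real.exp (c / 2 * x ^ 2))) := fun x => (hft x).mul_const _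
    refine le_of_tendsto_of_tendsto
      (((hH x).rpow_const (Or.inr ha)).mul ((hH y).rpow_const (Or.inr hb)))
      (hH (a * x + b * y)) (hev.mono fun n hn => ?_)
    have hn0 : (0 : ℝ) < n := by exact_mod_cast hn
    have h1 := (hlc n hn).2 x y a b ha hb hab
    have p1 := (hlc n hn).1 x
    have p2 := (hlc n hn).1 y
    simp only at h1 p1 p2 ⊢
    rw [mul_assoc, mul_assoc, mul_assoc, Real.mul_rpow hn0.le p1, Real.mul_rpow hn0.le p2]
    have e : (n : ℝ) ^ a * (F n x * Real.exp (c / 2 * x ^ 2)) ^ a *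
        ((n : ℝ) ^ b * (F n y * Real.exp (c / 2 * y ^ 2)) ^ b)
        = ((n : ℝ) ^ a * (n : ℝ) ^ b) * ((F n x * Real.exp (c / 2 * x ^ 2)) ^ a *
          (F n y * Real.exp (c / 2 * y ^ 2)) ^ b) := by ring
    rw [e, ← Real.rpow_add hn0, hab, Real.rpow_one]
    exact mul_le_mul_of_nonneg_left h1 hn0.le
  · rw [hν]
    congr 1
    funext x
    congr 1
    rw [mul_assoc, ← Real.exp_add]
    have : c / 2 * x ^ 2 + -(c * x ^ 2 / 2) = 0 := by ring
    rw [this, Real.exp_zero, mul_one]

end Pool.Agent.Helper85.Chern
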