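import Pool.Agent.Helper85.Chern.VarMain

/-!
# M6: log-concavity of the grid law
-/

namespace Pool.Agent.Helper85.Chern

open MeasureTheory Filter Topology

theorem one_div_nat_pos {n : ℕ} (hn : 1 ≤ n) : 0 < 1 / (n : ℝ) := by
  have : (0 : ℝ) < n := by exact_mod_cast hn
  positivity

/-- the Girsanov shift -/
theorem chain_shift (s : ℝ) (hs : 0 < s) (b β : ℕ → ℝ) (z : ℝ)
    (hβ : ∀ i : ℕ, β i = b i + 2 * z * s * i) (j : ℕ) : ∀ (k : ℕ) (x : ℝ),
    chain s β k j (fun _ => 1) (x + 2 * z * s * k)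
      = Real.exp (-2 * z ^ 2 * (j * s)) * Real.exp (2 * z * x) *
        chain s b k j (fun y => Real.exp (-2 * z * y)) x := by
  induction j with
  | zero =>
    intro k x
    change (1 : ℝ) = _ * _ * Real.exp (-2 * z * x)
    rw [← Real.exp_add, ← Real.exp_add, ← Real.exp_zero]
    congr 1
    push_cast
    ring
  | succ j ih =>
    intro k x
    change P s (cut (β (k + 1)) (chain s β (k + 1) j (fun _ => 1))) (x + 2 * z * s * k)
      = _ * _ * P s (cut (b (k + 1)) (chain s b (k + 1) j (fun y => Real.exp (-2 * z * y)))) x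
    unfold P
    rw [← integral_const_mul]
    rw [← integral_add_right_eq_self
      (fun y => phi s (y - (x + 2 * z * s * k)) * cut (β (k + 1)) (chain s β (k + 1) j (fun _ => 1)) y)
      (2 * z * s * ((k + 1 : ℕ) : ℝ))]
    congr 1
    funext y
    have hcut : cut (β (k + 1)) (chain s β (k + 1) j (fun _ => 1)) (y + 2 * z * s * ((k + 1 : ℕ) : ℝ))
        = Real.exp (-2 * z ^ 2 * (j * s)) * Real.exp (2 * z * y) *
          cut (b (k + 1)) (chain s b (k + 1) j (fun y => Real.exp (-2 * z * y))) y := by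
      unfold cut
      have hiff : (y + 2 * z * s * ((k + 1 : ℕ) : ℝ) < β (k + 1)) ↔ y < b (k + 1) := by
        rw [hβ]
        constructor <;> intro h <;> linarith
      by_cases hy : y < b (k + 1)
      · rw [if_pos hy, if_pos (hiff.mpr hy), ih (k + 1) y]
      · rw [if_neg hy, if_neg (fun h => hy (hiff.mp h)), mul_zero]
    rw [hcut]
    have hphi : phi s (y + 2 * z * s * ((k + 1 : ℕ) : ℝ) - (x + 2 * z * s * k))
        = phi s (y - x) * Real.exp (-2 * z * (y - x) - 2 * z ^ 2 * s) := by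
      unfold phi
      rw [mul_assoc (Real.sqrt (2 * Real.pi * s))⁻¹, ← Real.exp_add]
      congr 2
      push_cast
      field_simp
      ring
    rw [hphi]
    have hexp : Real.exp (-2 * z * (y - x) - 2 * z ^ 2 * s) *
        (Real.exp (-2 * z ^ 2 * (j * s)) * Real.exp (2 * z * y))
        = Real.exp (-2 * z ^ 2 * (((j + 1 : ℕ) : ℝ) * s)) * Real.exp (2 * z * x) := by
      rw [← Real.exp_add, ← Real.exp_add, ← Real.exp_add]
      congr 1
      push_cast
      ring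
    rw [← hexp]
    ring

theorem G_eq {n : ℕ} (hn : 1 ≤ n) (N : ℕ) (z : ℝ) :
    G n N z = Real.exp (-2 * z ^ 2 * ((N : ℝ) / n)) *
      chain (1 / (n : ℝ)) (bq n) 0 N (fun x => Real.exp (-2 * z * x)) 0 := by
  have h := chain_shift (1 / (n : ℝ)) (one_div_nat_pos hn) (bq n)
    (fun j => ((j : ℝ) / n) ^ 2 + 2 * z * ((j : ℝ) / n)) z (by
      intro i
      unfold bq
      ring) N 0 0
  unfold G
  rw [Nat.cast_zero, mul_zero, add_zero, mul_zero, Real.exp_zero, mul_one] at h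
  rw [h]
  congr 2
  ring

theorem G_pos {n : ℕ} (hn : 1 ≤ n) (N : ℕ) (z : ℝ) : 0 < G n N z :=
  chain_pos (one_div_nat_pos hn) _ 0 N (EG_const 1) (fun _ => one_pos) 0

theorem G_le_one {n : ℕ} (hn : 1 ≤ n) (N : ℕ) (z : ℝ) : G n N z ≤ 1 :=
  chain_one_le (one_div_nat_pos hn) _ 0 N 0

theorem G_anti {n : ℕ} (hn : 1 ≤ n) (z : ℝ) : Antitone fun N => G n N z := by
  apply antitone_nat_of_succ_le
  intro N
  unfold G
  rw [chain_succ_last]
  have hs := one_div_nat_pos hn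
  apply chain_mono hs
  · exact EG_P hs (EG_cut (EG_const 1) _)
  · exact EG_const 1
  · intro x
    have h1 := P_mono hs (EG_cut (EG_const 1)
      ((((0 + N + 1 : ℕ) : ℝ) / n) ^ 2 + 2 * z * (((0 + N + 1 : ℕ) : ℝ) / n))) (EG_const 1) (by
        intro y
        unfold cut
        split_ifs <;> norm_num) x
    rw [P_one hs x] at h1
    exact h1

theorem bddBelow_G {n : ℕ} (hn : 1 ≤ n) (z : ℝ) : BddBelow (Set.range fun N => G n N z) :=
  ⟨0, by rintro _ ⟨N, rfl⟩; exact (G_pos hn N z).le⟩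

theorem tendsto_G {n : ℕ} (hn : 1 ≤ n) (z : ℝ) :
    Tendsto (fun N => G n N z) atTop (𝓝 (Ginf n z)) :=
  tendsto_atTop_ciInf (G_anti hn z) (bddBelow_G hn z)

/-- derivative of the exponential moments -/
theorem hasDerivAt_Mom (m j i : ℕ) (z : ℝ) :
    HasDerivAt (fun z => Mom m j z i) (-2 * Mom m j z (i + 1)) z := by
  have hn : 1 ≤ m + 1 := Nat.le_add_left 1 m
  have hs : 0 < 1 / ((m + 1 : ℕ) : ℝ) := one_div_nat_pos hn
  set s := 1 / ((m + 1 : ℕ) : ℝ) with hsdef
  set b := bq (m + 1) with hb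
  set σ := (((m + j : ℕ) : ℝ) + 1) * s with hσdef
  have hσ : 0 < σ := by positivity
  let w : ℝ → ℝ := cut (b (m + j + 1)) (qt s b (m + j))
  have hw : EG w := EG_cut (qt_nice hs b (m + j)).eg _
  have hrep : ∀ (z : ℝ) (i : ℕ), Mom m j z i
      = Real.exp (2 * z ^ 2 * σ) * P σ (fun y => y ^ i * w y) (-2 * z * σ) := by
    intro z i
    have h1 : Mom m j z i = P σ (fun y => w y * (y ^ i * Real.exp (-2 * z * y))) 0 := by
      unfold Mom
      have hN : m + 1 + j = m + j + 1 := by omega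
      rw [hN]
      exact fwd hs b (m + j) (EG_mul (EG_pow EG_id i) (EG_exp (-2 * z)))
    have h2 := P_tilt hσ (fun y => y ^ i * w y) (-2 * z) 0
    have h3 : (fun y => w y * (y ^ i * Real.exp (-2 * z * y)))
        = fun y => Real.exp (-2 * z * y) * (y ^ i * w y) := by
      funext y; ring
    rw [h1, h3, h2]
    congr 1
    · congr 1; ring
    · congr 1; ring
  have hg : ∀ i, EG (fun y => y ^ i * w y) := fun i => EG_mul (EG_pow EG_id i) hw
  have hfun : (fun z => Mom m j z i)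
      = fun z => Real.exp (2 * z ^ 2 * σ) * P σ (fun y => y ^ i * w y) (-2 * z * σ) := by
    funext z; exact hrep z i
  rw [hfun, hrep z (i + 1)]
  have d1 : HasDerivAt (fun z : ℝ => Real.exp (2 * z ^ 2 * σ))
      (Real.exp (2 * z ^ 2 * σ) * (4 * z * σ)) z := by
    have h := ((hasDerivAt_pow 2 z).const_mul 2).mul_const σ
    have h' := h.exp
    refine h'.congr_deriv ?_
    congr 1
    push_cast
    ring
  have d2 : HasDerivAt (fun z : ℝ => -2 * z * σ) (-2 * σ) z := by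
    have h := ((hasDerivAt_id z).const_mul (-2)).mul_const σ
    refine h.congr_deriv ?_
    ring
  have d3 := (hasDerivAt_P hσ (hg i) (-2 * z * σ))
  have d4 : HasDerivAt (P σ (fun y => y ^ i * w y) ∘ fun z : ℝ => -2 * z * σ)
      (P σ (fun y => (y - -2 * z * σ) * (y ^ i * w y)) (-2 * z * σ) / σ * (-2 * σ)) z :=
    HasDerivAt.comp z d3 d2
  have d5 := d1.mul d4
  refine d5.congr_deriv ?_
  have hsplit : P σ (fun y => (y - -2 * z * σ) * (y ^ i * w y)) (-2 * z * σ)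
      = P σ (fun y => y ^ (i + 1) * w y) (-2 * z * σ)
        + (2 * z * σ) * P σ (fun y => y ^ i * w y) (-2 * z * σ) := by
    rw [← P_const_mul, ← P_add hσ (hg (i + 1))]
    · congr 1
      funext y
      ring
    · exact EG_mul (EG_const _) (hg i)
  simp only [Function.comp_apply]
  rw [hsplit]
  generalize P σ (fun y => y ^ i * w y) (-2 * z * σ) = X
  generalize P σ (fun y => y ^ (i + 1) * w y) (-2 * z * σ) = Y
  field_simp
  ring

theorem Mom_zero_pos (m j : ℕ) (z : ℝ) : 0 < Mom m j z 0 := by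
  have hs : 0 < 1 / ((m + 1 : ℕ) : ℝ) := one_div_nat_pos (Nat.le_add_left 1 m)
  unfold Mom
  apply chain_pos hs _ 0 _ (EG_mul (EG_pow EG_id 0) (EG_exp (-2 * z)))
  intro x
  rw [pow_zero, one_mul]
  exact Real.exp_pos _

theorem G_eq_Mom (m j : ℕ) (z : ℝ) :
    G (m + 1) (m + 1 + j) z
      = Real.exp (-2 * z ^ 2 * (((m + 1 + j : ℕ) : ℝ) / ((m + 1 : ℕ) : ℝ))) * Mom m j z 0 := by
  rw [G_eq (Nat.le_add_left 1 m)]
  unfold Mom
  congr 2
  funext x
  rw [pow_zero, one_mul]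

/-- the derivative of `log G` -/
noncomputable def DD (m j : ℕ) (z : ℝ) : ℝ :=
  -4 * z * (((m + 1 + j : ℕ) : ℝ) / ((m + 1 : ℕ) : ℝ)) - 2 * (Mom m j z 1 / Mom m j z 0)

theorem log_G (m j : ℕ) (z : ℝ) :
    Real.log (G (m + 1) (m + 1 + j) z)
      = -2 * z ^ 2 * (((m + 1 + j : ℕ) : ℝ) / ((m + 1 : ℕ) : ℝ)) + Real.log (Mom m j z 0) := by
  rw [G_eq_Mom, Real.log_mul (Real.exp_pos _).ne' (Mom_zero_pos m j z).ne', Real.log_exp]

theorem hasDerivAt_log_G (m j : ℕ) (z : ℝ) :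
    HasDerivAt (fun z => Real.log (G (m + 1) (m + 1 + j) z)) (DD m j z) z := by
  have hfun : (fun z => Real.log (G (m + 1) (m + 1 + j) z))
      = fun z => -2 * z ^ 2 * (((m + 1 + j : ℕ) : ℝ) / ((m + 1 : ℕ) : ℝ)) + Real.log (Mom m j z 0) := by
    funext z; exact log_G m j z
  rw [hfun]
  have h1 : HasDerivAt (fun z : ℝ => -2 * z ^ 2 * (((m + 1 + j : ℕ) : ℝ) / ((m + 1 : ℕ) : ℝ)))
      (-4 * z * (((m + 1 + j : ℕ) : ℝ) / ((m + 1 : ℕ) : ℝ))) z := by
    have h := ((hasDerivAt_pow 2 z).const_mul (-2)).mul_const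
      (((m + 1 + j : ℕ) : ℝ) / ((m + 1 : ℕ) : ℝ))
    refine h.congr_deriv ?_
    push_cast
    ring
  have h2 := (hasDerivAt_Mom m j 0 z).log (Mom_zero_pos m j z).ne'
  have h3 := h1.add h2
  refine h3.congr_deriv ?_
  unfold DD
  ring

theorem hasDerivAt_DD (m j : ℕ) (z : ℝ) :
    HasDerivAt (DD m j) (-4 * (((m + 1 + j : ℕ) : ℝ) / ((m + 1 : ℕ) : ℝ))
      + 4 * (Mom m j z 2 / Mom m j z 0 - (Mom m j z 1 / Mom m j z 0) ^ 2)) z := by
  have h1 : HasDerivAt (fun z : ℝ => -4 * z * (((m + 1 + j : ℕ) : ℝ) / ((m + 1 : ℕ) : ℝ)))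
      (-4 * (((m + 1 + j : ℕ) : ℝ) / ((m + 1 : ℕ) : ℝ))) z := by
    have h := ((hasDerivAt_id z).const_mul (-4)).mul_const
      (((m + 1 + j : ℕ) : ℝ) / ((m + 1 : ℕ) : ℝ))
    refine h.congr_deriv ?_
    ring
  have h0 := (Mom_zero_pos m j z).ne'
  have h2 := ((hasDerivAt_Mom m j 1 z).div (hasDerivAt_Mom m j 0 z) h0).const_mul 2
  have h3 := h1.sub h2
  refine h3.congr_deriv ?_
  field_simp
  ring

theorem DD_deriv_le (m j : ℕ) (z : ℝ) : deriv (DD m j) z ≤ 0 := by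
  rw [(hasDerivAt_DD m j z).deriv]
  have := variance_le m j z
  linarith

theorem DD_deriv_le_improved (m j : ℕ) {z : ℝ} (hz : z ≤ 0) : deriv (DD m j) z ≤ -4 * c0 := by
  rw [(hasDerivAt_DD m j z).deriv]
  have := variance_le_improved m j hz
  linarith

/-- the logarithm of the function in `G_logConc` -/
noncomputable def LL (m j : ℕ) (z : ℝ) : ℝ :=
  Real.log (G (m + 1) (m + 1 + j) z) + Real.log (G (m + 1) (m + 1 + j) (-z)) + 2 * c0 * z ^ 2

theorem hasDerivAt_LL (m j : ℕ) (z : ℝ) :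
    HasDerivAt (LL m j) (DD m j z - DD m j (-z) + 4 * c0 * z) z := by
  have h1 := hasDerivAt_log_G m j z
  have h2 : HasDerivAt (fun z => Real.log (G (m + 1) (m + 1 + j) (-z))) (DD m j (-z) * (-1)) z :=
    HasDerivAt.comp z (hasDerivAt_log_G m j (-z)) (hasDerivAt_neg z)
  have h3 : HasDerivAt (fun z : ℝ => 2 * c0 * z ^ 2) (4 * c0 * z) z := by
    have h := (hasDerivAt_pow 2 z).const_mul (2 * c0)
    refine h.congr_deriv ?_
    push_cast
    ring
  have h4 := (h1.add h2).add h3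
  refine h4.congr_deriv ?_
  ring

theorem deriv_LL (m j : ℕ) : deriv (LL m j) = fun z => DD m j z - DD m j (-z) + 4 * c0 * z :=
  funext fun z => (hasDerivAt_LL m j z).deriv

theorem hasDerivAt_deriv_LL (m j : ℕ) (z : ℝ) :
    HasDerivAt (deriv (LL m j)) (deriv (DD m j) z + deriv (DD m j) (-z) + 4 * c0) z := by
  rw [deriv_LL]
  have h1 : HasDerivAt (DD m j) (deriv (DD m j) z) z :=
    (hasDerivAt_DD m j z).differentiableAt.hasDerivAt
  have h2 : HasDerivAt (fun z => DD m j (-z)) (deriv (DD m j) (-z) * (-1)) z :=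
    HasDerivAt.comp z (hasDerivAt_DD m j (-z)).differentiableAt.hasDerivAt (hasDerivAt_neg z)
  have h3 : HasDerivAt (fun z : ℝ => 4 * c0 * z) (4 * c0) z := by
    have h := (hasDerivAt_id z).const_mul (4 * c0)
    refine h.congr_deriv ?_
    ring
  have h4 := (h1.sub h2).add h3
  refine h4.congr_deriv ?_
  ring

theorem concave_LL (m j : ℕ) : ConcaveOn ℝ Set.univ (LL m j) := by
  apply concaveOn_univ_of_deriv2_nonpos
  · exact fun z => (hasDerivAt_LL m j z).differentiableAt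
  · exact fun z => (hasDerivAt_deriv_LL m j z).differentiableAt
  · intro z
    change deriv (deriv (LL m j)) z ≤ 0
    rw [(hasDerivAt_deriv_LL m j z).deriv]
    rcases le_total z 0 with hz | hz
    · have h1 := DD_deriv_le_improved m j hz
      have h2 := DD_deriv_le m j (-z)
      linarith
    · have h1 := DD_deriv_le_improved m j (neg_nonpos.mpr hz)
      have h2 := DD_deriv_le m j z
      linarith

theorem G_logConc {n N : ℕ} (hn : 1 ≤ n) (hN : n ≤ N) :
    LogConc (fun z => G n N z * G n N (-z) * Real.exp (2 * c0 * z ^ 2)) := by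
  obtain ⟨m, rfl⟩ : ∃ m, n = m + 1 := ⟨n - 1, by omega⟩
  obtain ⟨j, rfl⟩ : ∃ j, N = m + 1 + j := ⟨N - (m + 1), by omega⟩
  have hexp : ∀ z, G (m + 1) (m + 1 + j) z * G (m + 1) (m + 1 + j) (-z) * Real.exp (2 * c0 * z ^ 2)
      = Real.exp (LL m j z) := by
    intro z
    unfold LL
    rw [Real.exp_add, Real.exp_add, Real.exp_log (G_pos hn _ z), Real.exp_log (G_pos hn _ (-z))]
  constructor
  · intro x
    change 0 ≤ G (m + 1) (m + 1 + j) x * G (m + 1) (m + 1 + j) (-x) * Real.exp (2 * c0 * x ^ 2)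
    rw [hexp]
    exact (Real.exp_pos _).le
  · intro x y a b ha hb hab
    change (G (m + 1) (m + 1 + j) x * G (m + 1) (m + 1 + j) (-x) * Real.exp (2 * c0 * x ^ 2)) ^ a *
      (G (m + 1) (m + 1 + j) y * G (m + 1) (m + 1 + j) (-y) * Real.exp (2 * c0 * y ^ 2)) ^ b ≤
      G (m + 1) (m + 1 + j) (a * x + b * y) * G (m + 1) (m + 1 + j) (-(a * x + b * y)) *
        Real.exp (2 * c0 * (a * x + b * y) ^ 2)
    rw [hexp, hexp, hexp, ← Real.exp_mul, ← Real.exp_mul, ← Real.exp_add, Real.exp_le_exp]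
    have h := (concave_LL m j).2 (Set.mem_univ x) (Set.mem_univ y) ha hb hab
    simp only [smul_eq_mul] at h
    linarith

theorem Ginf_nonneg {n : ℕ} (hn : 1 ≤ n) (z : ℝ) : 0 ≤ Ginf n z :=
  Real.iInf_nonneg fun N => (G_pos hn N z).le

theorem Ginf_le_one {n : ℕ} (hn : 1 ≤ n) (z : ℝ) : Ginf n z ≤ 1 :=
  (ciInf_le (bddBelow_G hn z) 0).trans (G_le_one hn 0 z)

theorem F_nonneg {n : ℕ} (hn : 1 ≤ n) (z : ℝ) : 0 ≤ F n z :=
  mul_nonneg (Ginf_nonneg hn z) (Ginf_nonneg hn (-z))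

theorem F_le_one {n : ℕ} (hn : 1 ≤ n) (z : ℝ) : F n z ≤ 1 :=
  mul_le_one₀ (Ginf_le_one hn z) (Ginf_nonneg hn (-z)) (Ginf_le_one hn (-z))

theorem F_even (n : ℕ) (z : ℝ) : F n (-z) = F n z := by
  unfold F; rw [neg_neg, mul_comm]

theorem F_logConc {n : ℕ} (hn : 1 ≤ n) :
    LogConc (fun z => F n z * Real.exp (2 * c0 * z ^ 2)) := by
  have hlim : ∀ z, Tendsto (fun N => G n N z * G n N (-z) * Real.exp (2 * c0 * z ^ 2)) atTop
      (𝓝 (F n z * Real.exp (2 * c0 * z ^ 2))) := fun z =>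
    ((tendsto_G hn z).mul (tendsto_G hn (-z))).mul_const _
  constructor
  · intro x
    exact mul_nonneg (F_nonneg hn x) (Real.exp_pos _).le
  · intro x y a b ha hb hab
    refine le_of_tendsto_of_tendsto
      (((hlim x).rpow_const (Or.inr ha)).mul ((hlim y).rpow_const (Or.inr hb)))
      (hlim (a * x + b * y)) ?_
    filter_upwards [eventually_ge_atTop n] with N hN
    exact (G_logConc hn hN).2 x y a b ha hb hab

end Pool.Agent.Helper85.Chern
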