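import Pool.Agent.Helper85.Chern.Prob
import Pool.Agent.Helper85.Chern.Limit

/-!
# M9: assembly
-/

namespace Pool.Agent.Helper85.Chern

open MeasureTheory ProbabilityTheory Filter Topology

theorem c0_pos : 0 < c0 := by unfold c0; positivity

theorem main {Ω : Type*} [MeasurableSpace Ω] (μ : Measure Ω) [IsProbabilityMeasure μ]
    {W : ℝ → Ω → ℝ} (hW : IsTwoSidedBM W μ) {Z : Ω → ℝ} (hZm : Measurable Z)
    (hZ : ∀ᵐ ω ∂μ, ∀ t, t ≠ Z ω → W t ω - t ^ 2 < W (Z ω) ω - Z ω ^ 2) :
    ∃ h : ℝ → ℝ, LogConc h ∧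
      μ.map Z = volume.withDensity
        (fun x => ENNReal.ofReal (h x * Real.exp (-(4 * c0 * x ^ 2 / 2)))) := by
  have hprob : IsProbabilityMeasure (μ.map Z) := Measure.isProbabilityMeasure_map hZm.aemeasurable
  have hlc : ∀ n, 1 ≤ n → LogConc (fun x => F n x * Real.exp (4 * c0 / 2 * x ^ 2)) := by
    intro n hn
    have := F_logConc hn
    have e : (4 * c0 / 2 : ℝ) = 2 * c0 := by ring
    rw [e]; exact this
  have heven : ∀ n, 1 ≤ n → ∀ x, F n (-x) = F n x := fun n _ x => F_even n x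
  have hone : ∀ n, 1 ≤ n → mass F n Set.univ = 1 := fun n hn => mass_univ hW hn
  have hc : (0 : ℝ) < 4 * c0 := by have := c0_pos; linarith
  have ht := tight_of_logConc hc hlc heven hone
  exact limit_law hc hlc heven hone
    (fun U hU => weak_liminf hW hZm hZ ht hU) (not_zero hW hZm hZ)

end Pool.Agent.Helper85.Chern
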