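import Pool.Agent.Helper85.Chern.Prob1

/-!
# M7b: Brownian motion on the grid, total mass and weak convergence
-/

namespace Pool.Agent.Helper85.Chern

open MeasureTheory ProbabilityTheory Filter Topology

variable {Ω : Type*} [MeasurableSpace Ω] {μ : Measure Ω} {W : ℝ → Ω → ℝ}

/-- Second moment of a centred Gaussian law. -/
theorem lint_sq_gauss (v : NNReal) :
    ∫⁻ x, ENNReal.ofReal (x ^ 2) ∂(gaussianReal 0 v) = v := by
  have h := evariance_eq_lintegral_ofReal (X := fun x : ℝ => x) (μ := gaussianReal 0 v)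
  simp only [integral_id_gaussianReal, sub_zero] at h
  have hm : MemLp (fun x : ℝ => x) 2 (gaussianReal 0 v) := memLp_id_gaussianReal 2
  rw [← h, ← ofReal_variance hm, variance_fun_id_gaussianReal, ENNReal.ofReal_coe_nnreal]

/-- Second moment of Brownian motion. -/
theorem lint_sq_W (hW : IsTwoSidedBM W μ) (t : ℝ) :
    ∫⁻ ω, ENNReal.ofReal ((W t ω) ^ 2) ∂μ = ENNReal.ofReal |t| := by
  rcases le_total 0 t with ht | ht
  · have h1 : ∫⁻ ω, ENNReal.ofReal ((W t ω) ^ 2) ∂μ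
        = ∫⁻ ω, ENNReal.ofReal ((W t ω - W 0 ω) ^ 2) ∂μ := by
      apply lintegral_congr_ae
      filter_upwards [hW.zero] with ω hω
      rw [hω, sub_zero]
    have h2 := lintegral_map (μ := μ) (f := fun x : ℝ => ENNReal.ofReal (x ^ 2))
      (g := fun ω => W t ω - W 0 ω) (by fun_prop) ((hW.measurable t).sub (hW.measurable 0))
    rw [h1, ← h2, hW.gauss 0 t ht, lint_sq_gauss, abs_of_nonneg ht, sub_zero]
    rfl
  · have h1 : ∫⁻ ω, ENNReal.ofReal ((W t ω) ^ 2) ∂μ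
        = ∫⁻ ω, ENNReal.ofReal ((W 0 ω - W t ω) ^ 2) ∂μ := by
      apply lintegral_congr_ae
      filter_upwards [hW.zero] with ω hω
      rw [hω, zero_sub, neg_sq]
    have h2 := lintegral_map (μ := μ) (f := fun x : ℝ => ENNReal.ofReal (x ^ 2))
      (g := fun ω => W 0 ω - W t ω) (by fun_prop) ((hW.measurable 0).sub (hW.measurable t))
    rw [h1, ← h2, hW.gauss t 0 ht, lint_sq_gauss, abs_of_nonpos ht, zero_sub]
    rfl

/-- No ties on the grid. -/
theorem ae_no_ties (hW : IsTwoSidedBM W μ) {n : ℕ} (hn : 1 ≤ n) :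
    ∀ᵐ ω ∂μ, ∀ j k : ℤ, j < k → W ((j : ℝ) / n) ω - ((j : ℝ) / n) ^ 2
      ≠ W ((k : ℝ) / n) ω - ((k : ℝ) / n) ^ 2 := by
  rw [ae_all_iff]; intro j
  rw [ae_all_iff]; intro k
  by_cases hjk : j < k
  swap
  · exact Eventually.of_forall fun ω h => absurd h hjk
  have hn0 : (0 : ℝ) < n := by exact_mod_cast hn
  have hlt : (j : ℝ) / n < (k : ℝ) / n := by
    apply div_lt_div_of_pos_right _ hn0
    exact_mod_cast hjk
  have hv : Real.toNNReal ((k : ℝ) / n - (j : ℝ) / n) ≠ 0 := by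
    simpa [Real.toNNReal_eq_zero] using hlt
  have hmeas : Measurable (fun ω => W ((k : ℝ) / n) ω - W ((j : ℝ) / n) ω) :=
    (hW.measurable _).sub (hW.measurable _)
  have h0 : μ.map (fun ω => W ((k : ℝ) / n) ω - W ((j : ℝ) / n) ω)
      {((k : ℝ) / n) ^ 2 - ((j : ℝ) / n) ^ 2} = 0 := by
    rw [hW.gauss _ _ hlt.le]
    exact gaussianReal_absolutelyContinuous 0 hv Real.volume_singleton
  rw [Measure.map_apply hmeas (measurableSet_singleton _)] at h0
  have h1 : ∀ᵐ ω ∂μ, ω ∉ (fun ω => W ((k : ℝ) / n) ω - W ((j : ℝ) / n) ω) ⁻¹'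
      {((k : ℝ) / n) ^ 2 - ((j : ℝ) / n) ^ 2} := measure_eq_zero_iff_ae_notMem.1 h0
  filter_upwards [h1] with ω hω _ he
  apply hω
  simp only [Set.mem_preimage, Set.mem_singleton_iff]
  linarith

/-- Only finitely many grid points are above a given level. -/
theorem ae_finite_above [IsProbabilityMeasure μ] (hW : IsTwoSidedBM W μ) {n : ℕ} (hn : 1 ≤ n) :
    ∀ᵐ ω ∂μ, ∀ C : ℝ, {j : ℤ | C ≤ W ((j : ℝ) / n) ω - ((j : ℝ) / n) ^ 2}.Finite := by
  have hn0 : (0 : ℝ) < n := by exact_mod_cast hn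
  have hmeas : ∀ j : ℤ, Measurable fun ω =>
      ENNReal.ofReal ((W ((j : ℝ) / n) ω) ^ 2 / ((j : ℝ) / n) ^ 4) := by
    intro j
    exact (((hW.measurable _).pow_const 2).div_const _).ennreal_ofReal
  have hint : ∀ j : ℤ, ∫⁻ ω, ENNReal.ofReal ((W ((j : ℝ) / n) ω) ^ 2 / ((j : ℝ) / n) ^ 4) ∂μ
      = ENNReal.ofReal (|(n : ℝ) ^ 3 * (1 / (j : ℝ) ^ 3)|) := by
    intro j
    have h1 : ∀ ω, ENNReal.ofReal ((W ((j : ℝ) / n) ω) ^ 2 / ((j : ℝ) / n) ^ 4)
        = ENNReal.ofReal (1 / ((j : ℝ) / n) ^ 4) * ENNReal.ofReal ((W ((j : ℝ) / n) ω) ^ 2) := by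
      intro ω
      rw [← ENNReal.ofReal_mul (by positivity)]
      congr 1
      ring
    simp_rw [h1]
    rw [lintegral_const_mul _ (((hW.measurable _).pow_const 2).ennreal_ofReal), lint_sq_W hW,
      ← ENNReal.ofReal_mul (by positivity)]
    congr 1
    rcases eq_or_ne j 0 with rfl | hj
    · simp
    · have hj' : (j : ℝ) ≠ 0 := by exact_mod_cast hj
      rw [abs_mul, abs_div, abs_div, abs_one, abs_pow, abs_pow, abs_of_pos hn0]
      have h4 : ((j : ℝ) / n) ^ 4 = |(j : ℝ)| ^ 4 / (n : ℝ) ^ 4 := by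
        rw [div_pow, ← abs_pow, abs_of_nonneg (by positivity)]
      rw [h4]
      have : |(j : ℝ)| ≠ 0 := abs_ne_zero.2 hj'
      field_simp
  have hsum : Summable fun j : ℤ => |(n : ℝ) ^ 3 * (1 / (j : ℝ) ^ 3)| :=
    ((Real.summable_one_div_int_pow.2 (by norm_num)).mul_left _).abs
  have hfin : ∫⁻ ω, ∑' j : ℤ, ENNReal.ofReal ((W ((j : ℝ) / n) ω) ^ 2 / ((j : ℝ) / n) ^ 4) ∂μ
      ≠ ⊤ := by
    rw [lintegral_tsum fun j => (hmeas j).aemeasurable]
    simp_rw [hint]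
    exact hsum.tsum_ofReal_ne_top
  have hae := ae_lt_top (Measurable.tsum hmeas) hfin
  filter_upwards [hae] with ω hω C
  have ht := ENNReal.tendsto_cofinite_zero_of_tsum_ne_top hω.ne
  have hev : ∀ᶠ j : ℤ in cofinite,
      ENNReal.ofReal ((W ((j : ℝ) / n) ω) ^ 2 / ((j : ℝ) / n) ^ 4) < ENNReal.ofReal (1 / 4) :=
    ht.eventually (gt_mem_nhds (by simp))
  have hbig : ∀ᶠ j : ℤ in cofinite, (n : ℝ) * (1 + 2 * |C|) < |(j : ℝ)| := by
    have h := tendsto_norm_cocompact_atTop.comp Int.tendsto_coe_cofinite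
    exact h.eventually (eventually_gt_atTop _)
  have hfinal : ∀ᶠ j : ℤ in cofinite, ¬ (C ≤ W ((j : ℝ) / n) ω - ((j : ℝ) / n) ^ 2) := by
    filter_upwards [hev, hbig] with j h1 h2
    rw [ENNReal.ofReal_lt_ofReal_iff (by norm_num)] at h1
    have h3 : 1 + 2 * |C| < |(j : ℝ) / n| := by
      rw [abs_div, abs_of_pos hn0, lt_div_iff₀ hn0]
      linarith
    set t : ℝ := (j : ℝ) / n with ht'
    have hC := abs_nonneg C
    have ht0 : 0 < |t| := by linarith
    have ht4 : 0 < t ^ 4 := by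
      have : t ≠ 0 := abs_pos.1 ht0
      positivity
    rw [div_lt_iff₀ ht4] at h1
    have h5 : W t ω < t ^ 2 / 2 := by
      have : (W t ω) ^ 2 < (t ^ 2 / 2) ^ 2 := by nlinarith
      exact lt_of_pow_lt_pow_left₀ 2 (by positivity) this
    have h6 : 2 * |C| < t ^ 2 := by
      rw [← sq_abs]
      nlinarith
    have h7 : -|C| ≤ C := neg_abs_le C
    intro h8
    linarith
  have := Filter.eventually_cofinite.1 hfinal
  simpa using this

theorem ae_exists_evE [IsProbabilityMeasure μ] (hW : IsTwoSidedBM W μ) {n : ℕ} (hn : 1 ≤ n) :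
    ∀ᵐ ω ∂μ, ∃ k : ℤ, ω ∈ evE W n k := by
  filter_upwards [ae_no_ties hW hn, ae_finite_above hW hn] with ω h1 h2
  have hfin := h2 (W (((0 : ℤ) : ℝ) / n) ω - (((0 : ℤ) : ℝ) / n) ^ 2)
  obtain ⟨k, hk, hmax⟩ := Set.exists_max_image _
    (fun j : ℤ => W ((j : ℝ) / n) ω - ((j : ℝ) / n) ^ 2) hfin ⟨0, by simp⟩
  refine ⟨k, fun j hj => ?_⟩
  have hle : W ((j : ℝ) / n) ω - ((j : ℝ) / n) ^ 2 ≤ W ((k : ℝ) / n) ω - ((k : ℝ) / n) ^ 2 := by
    by_cases hjS : j ∈ {j : ℤ | W (((0 : ℤ) : ℝ) / n) ω - (((0 : ℤ) : ℝ) / n) ^ 2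
        ≤ W ((j : ℝ) / n) ω - ((j : ℝ) / n) ^ 2}
    · exact hmax j hjS
    · have h3 : W ((j : ℝ) / n) ω - ((j : ℝ) / n) ^ 2
          < W (((0 : ℤ) : ℝ) / n) ω - (((0 : ℤ) : ℝ) / n) ^ 2 := not_le.1 hjS
      exact (h3.trans_le hk).le
  rcases lt_or_gt_of_ne hj with h | h
  · exact lt_of_le_of_ne hle (h1 j k h)
  · exact lt_of_le_of_ne hle (h1 k j h).symm

omit [MeasurableSpace Ω] in
theorem evE_disjoint (W : ℝ → Ω → ℝ) (n : ℕ) :
    Pairwise (Function.onFun Disjoint fun k : ℤ => evE W n k) := by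
  intro j k hjk
  rw [Function.onFun, Set.disjoint_left]
  intro ω hj hk
  exact lt_asymm (hj k hjk.symm) (hk j hjk)

theorem mass_univ [IsProbabilityMeasure μ] (hW : IsTwoSidedBM W μ) {n : ℕ} (hn : 1 ≤ n) :
    mass F n Set.univ = 1 := by
  have h1 : mass F n Set.univ = ∑' k : ℤ, μ (evE W n k) := by
    unfold mass
    refine tsum_congr fun k => ?_
    rw [prob_evE hW hn k, Set.indicator_of_mem (Set.mem_univ _)]
  rw [h1, ← measure_iUnion (evE_disjoint W n) (measurable_evE hW n)]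
  have h2 : (⋃ k : ℤ, evE W n k) =ᵐ[μ] (Set.univ : Set Ω) := by
    rw [eventuallyEq_univ]
    filter_upwards [ae_exists_evE hW hn] with ω hω
    exact Set.mem_iUnion.2 hω
  rw [measure_congr h2, measure_univ]

/-- The probability that the grid argmax lies in `V`. -/
theorem prob_argmax_mem [IsProbabilityMeasure μ] (hW : IsTwoSidedBM W μ) {n : ℕ} (hn : 1 ≤ n)
    (V : Set ℝ) :
    μ (⋃ k : {k : ℤ // (k : ℝ) / n ∈ V}, evE W n k.1) ≤ mass F n V := by
  refine (measure_iUnion_le _).trans ?_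
  unfold mass
  have h : ∀ k : {k : ℤ // (k : ℝ) / n ∈ V}, μ (evE W n k.1)
      = V.indicator (fun x => ENNReal.ofReal (F n x)) ((k.1 : ℝ) / n) := by
    intro k
    rw [Set.indicator_of_mem k.2, prob_evE hW hn k.1]
  simp_rw [h]
  exact ENNReal.tsum_comp_le_tsum_of_injective Subtype.val_injective
    (fun k : ℤ => V.indicator (fun x => ENNReal.ofReal (F n x)) ((k : ℝ) / n))

/-- The pathwise statement: the grid argmax eventually is in `U` or beyond `T`. -/
theorem eventually_argmax {h : ℝ → ℝ} (hc : Continuous h) {z : ℝ}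
    (hz : ∀ t, t ≠ z → h t < h z) {U : Set ℝ} (hU : IsOpen U) (hzU : z ∈ U) (T : ℝ) :
    ∀ᶠ n : ℕ in atTop, ∀ k : ℤ, (∀ j : ℤ, j ≠ k → h ((j : ℝ) / n) < h ((k : ℝ) / n)) →
      (k : ℝ) / n ∈ U ∪ {x | T < |x|} := by
  set K : Set ℝ := Metric.closedBall 0 T \ U with hK
  have hKc : IsCompact K := (isCompact_closedBall 0 T).diff hU
  have hfloor : Tendsto (fun n : ℕ => ((⌊(n : ℝ) * z⌋ : ℤ) : ℝ) / n) atTop (𝓝 z) := by
    have h1 : Tendsto (fun n : ℕ => (n : ℝ)) atTop atTop := tendsto_natCast_atTop_atTop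
    have h2 : ∀ᶠ n : ℕ in atTop, z - 1 / (n : ℝ) ≤ ((⌊(n : ℝ) * z⌋ : ℤ) : ℝ) / n := by
      filter_upwards [eventually_ge_atTop 1] with n hn
      have hn0 : (0 : ℝ) < n := by exact_mod_cast hn
      rw [le_div_iff₀ hn0, sub_mul, one_div, inv_mul_cancel₀ hn0.ne']
      have := Int.lt_floor_add_one ((n : ℝ) * z)
      linarith [mul_comm (n : ℝ) z]
    have h3 : ∀ᶠ n : ℕ in atTop, ((⌊(n : ℝ) * z⌋ : ℤ) : ℝ) / n ≤ z := by
      filter_upwards [eventually_ge_atTop 1] with n hn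
      have hn0 : (0 : ℝ) < n := by exact_mod_cast hn
      rw [div_le_iff₀ hn0]
      have := Int.floor_le ((n : ℝ) * z)
      linarith [mul_comm (n : ℝ) z]
    refine tendsto_of_tendsto_of_tendsto_of_le_of_le' ?_ tendsto_const_nhds h2 h3
    have h4 : Tendsto (fun n : ℕ => z - 1 / (n : ℝ)) atTop (𝓝 (z - 0)) :=
      tendsto_const_nhds.sub tendsto_one_div_atTop_nhds_zero_nat
    simpa using h4
  rcases K.eq_empty_or_nonempty with hKe | hKn
  · refine Eventually.of_forall fun n k _ => ?_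
    by_contra hcon
    rw [Set.mem_union, not_or, Set.mem_ofPred_eq, not_lt] at hcon
    have : (k : ℝ) / n ∈ K :=
      ⟨mem_closedBall_zero_iff.2 (by rw [Real.norm_eq_abs]; exact hcon.2), hcon.1⟩
    rw [hKe] at this
    exact this
  · obtain ⟨t, htK, htmax⟩ := hKc.exists_isMaxOn hKn hc.continuousOn
    have htz : h t < h z := hz t fun he => htK.2 (he ▸ hzU)
    have hev := (hc.tendsto z).comp hfloor
    filter_upwards [hev.eventually (lt_mem_nhds htz)] with n hn k hk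
    by_contra hcon
    rw [Set.mem_union, not_or, Set.mem_ofPred_eq, not_lt] at hcon
    have hkK : (k : ℝ) / n ∈ K :=
      ⟨mem_closedBall_zero_iff.2 (by rw [Real.norm_eq_abs]; exact hcon.2), hcon.1⟩
    have h1 : h ((k : ℝ) / n) ≤ h t := htmax hkK
    have h2 : h t < h (((⌊(n : ℝ) * z⌋ : ℤ) : ℝ) / n) := hn
    by_cases he : ⌊(n : ℝ) * z⌋ = k
    · rw [he] at h2
      exact absurd (h1.trans_lt h2) (lt_irrefl _)
    · exact absurd ((hk _ he).trans_le (h1.trans h2.le)) (lt_irrefl _)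

/-- Fatou for sets. -/
theorem measure_le_liminf {A : Set Ω} {B : ℕ → Set Ω} (hB : ∀ n, MeasurableSet (B n))
    (h : ∀ᵐ ω ∂μ, ω ∈ A → ∀ᶠ n in atTop, ω ∈ B n) :
    μ A ≤ liminf (fun n => μ (B n)) atTop := by
  have h1 : μ A ≤ ∫⁻ ω, liminf (fun n => (B n).indicator (fun _ => (1 : ENNReal)) ω) atTop ∂μ := by
    have h2 : μ A ≤ μ {ω | 1 ≤ liminf (fun n => (B n).indicator (fun _ => (1 : ENNReal)) ω) atTop} := by
      apply measure_mono_ae
      filter_upwards [h] with ω hω hA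
      refine le_liminf_of_le (by isBoundedDefault) ?_
      filter_upwards [hω hA] with n hn
      rw [Set.indicator_of_mem hn]
    refine h2.trans ?_
    have h3 := mul_meas_ge_le_lintegral (μ := μ)
      (f := fun ω => liminf (fun n => (B n).indicator (fun _ => (1 : ENNReal)) ω) atTop)
      (Measurable.liminf fun n => measurable_const.indicator (hB n)) 1
    simpa using h3
  refine h1.trans ((lintegral_liminf_le fun n => measurable_const.indicator (hB n)).trans ?_)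
  simp_rw [lintegral_indicator_const (hB _), one_mul]
  exact le_rfl

/-- weak convergence, one half -/
theorem weak_liminf [IsProbabilityMeasure μ] (hW : IsTwoSidedBM W μ) {Z : Ω → ℝ}
    (hZm : Measurable Z)
    (hZ : ∀ᵐ ω ∂μ, ∀ t, t ≠ Z ω → W t ω - t ^ 2 < W (Z ω) ω - Z ω ^ 2)
    (htight : ∀ ε : ENNReal, 0 < ε → ∃ T : ℝ, ∀ n : ℕ, 1 ≤ n → mass F n {x | T < |x|} ≤ ε)
    {U : Set ℝ} (hU : IsOpen U) :
    (μ.map Z) U ≤ liminf (fun n : ℕ => mass F n U) atTop := by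
  rw [Measure.map_apply hZm hU.measurableSet]
  refine ENNReal.le_of_forall_pos_le_add fun ε hε _ => ?_
  obtain ⟨T, hT⟩ := htight ε (by exact_mod_cast hε)
  have hex : ∀ᵐ ω ∂μ, ∀ n : ℕ, 1 ≤ n → ∃ k : ℤ, ω ∈ evE W n k := by
    rw [ae_all_iff]
    intro n
    by_cases hn : 1 ≤ n
    · filter_upwards [ae_exists_evE hW hn] with ω hω _
      exact hω
    · exact Eventually.of_forall fun ω h => absurd h hn
  set V : Set ℝ := U ∪ {x | T < |x|} with hV
  have h1 : μ (Z ⁻¹' U) ≤ liminf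
      (fun n : ℕ => μ (⋃ k : {k : ℤ // (k : ℝ) / n ∈ V}, evE W n k.1)) atTop := by
    apply measure_le_liminf
    · intro n
      exact MeasurableSet.iUnion fun k => measurable_evE hW n k.1
    · filter_upwards [hex, hZ, hW.cont] with ω hω hz hc hA
      have hc' : Continuous fun t => W t ω - t ^ 2 := hc.sub (continuous_pow 2)
      have hev := eventually_argmax (h := fun t => W t ω - t ^ 2) hc' hz hU hA T
      filter_upwards [hev, eventually_ge_atTop 1] with n hn hn1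
      obtain ⟨k, hk⟩ := hω n hn1
      exact Set.mem_iUnion.2 ⟨⟨k, hn k hk⟩, hk⟩
  refine h1.trans ?_
  have h2 : ∀ᶠ n : ℕ in atTop, μ (⋃ k : {k : ℤ // (k : ℝ) / n ∈ V}, evE W n k.1)
      ≤ mass F n U + ε := by
    filter_upwards [eventually_ge_atTop 1] with n hn
    refine (prob_argmax_mem hW hn V).trans ?_
    have h3 : mass F n V ≤ mass F n U + mass F n {x | T < |x|} := by
      unfold mass
      rw [← ENNReal.tsum_add]
      refine ENNReal.tsum_le_tsum fun k => ?_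
      by_cases hU' : (k : ℝ) / n ∈ U
      · rw [Set.indicator_of_mem (show (k : ℝ) / n ∈ V from Or.inl hU'), Set.indicator_of_mem hU']
        exact le_self_add
      · by_cases hT' : (k : ℝ) / n ∈ {x : ℝ | T < |x|}
        · rw [Set.indicator_of_mem (show (k : ℝ) / n ∈ V from Or.inr hT'), Set.indicator_of_mem hT']
          exact le_add_self
        · have hV' : (k : ℝ) / n ∉ V := fun hc => hc.elim hU' hT'
          rw [Set.indicator_of_notMem hV']
          exact zero_le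
    exact h3.trans (add_le_add le_rfl (hT n hn))
  refine (liminf_le_liminf h2).trans ?_
  exact (liminf_add_const atTop (fun n : ℕ => mass F n U) (ε : ENNReal) (by isBoundedDefault)
    (by isBoundedDefault)).le

theorem not_zero [IsProbabilityMeasure μ] (hW : IsTwoSidedBM W μ) {Z : Ω → ℝ}
    (hZm : Measurable Z)
    (hZ : ∀ᵐ ω ∂μ, ∀ t, t ≠ Z ω → W t ω - t ^ 2 < W (Z ω) ω - Z ω ^ 2) :
    (μ.map Z) {0} < 1 := by
  rw [Measure.map_apply hZm (measurableSet_singleton _)]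
  have hm : Measurable fun ω => W 1 ω - W 0 ω := (hW.measurable 1).sub (hW.measurable 0)
  have h1 : μ (Z ⁻¹' {0}) ≤ μ ((fun ω => W 1 ω - W 0 ω) ⁻¹' Set.Iio 1) := by
    apply measure_mono_ae
    filter_upwards [hZ, hW.zero] with ω hz h0 hA
    have hA' : Z ω = 0 := hA
    have h2 := hz 1 (by rw [hA']; norm_num)
    rw [hA', h0] at h2
    show W 1 ω - W 0 ω < 1
    rw [h0]
    linarith
  refine h1.trans_lt ?_
  rw [← Measure.map_apply hm measurableSet_Iio, hW.gauss 0 1 zero_le_one]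
  have hv : Real.toNNReal (1 - 0) ≠ 0 := by simp
  have h3 : gaussianReal 0 (Real.toNNReal (1 - 0)) (Set.Iio (1 : ℝ))ᶜ ≠ 0 := by
    intro h
    have h4 := gaussianReal_absolutelyContinuous' 0 hv h
    rw [Set.compl_Iio, Real.volume_Ici] at h4
    exact ENNReal.top_ne_zero h4
  have h5 := prob_compl_eq_one_sub (μ := gaussianReal 0 (Real.toNNReal (1 - 0)))
    (measurableSet_Iio (a := (1 : ℝ)))
  rw [h5] at h3
  exact tsub_pos_iff_lt.1 (pos_iff_ne_zero.2 h3)

end Pool.Agent.Helper85.Chern
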