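import Pool.Agent.Helper85.Chern.LogG

/-!
# M7a: Brownian motion on the grid, product formula
-/

namespace Pool.Agent.Helper85.Chern

open MeasureTheory ProbabilityTheory Filter Topology

variable {Ω : Type*} [MeasurableSpace Ω] {μ : Measure Ω} {W : ℝ → Ω → ℝ}

/-- Integration of a function of two independent variables. -/
private theorem lintegral_indep [IsProbabilityMeasure μ] {α : Type*} [MeasurableSpace α]
    {V : Ω → α} {Y : Ω → ℝ} (hV : Measurable V) (hY : Measurable Y) (h : IndepFun V Y μ)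
    {f : α × ℝ → ENNReal} (hf : Measurable f) :
    ∫⁻ ω, f (V ω, Y ω) ∂μ = ∫⁻ ω, ∫⁻ y, f (V ω, y) ∂(μ.map Y) ∂μ := by
  have h1 : ∫⁻ ω, f (V ω, Y ω) ∂μ = ∫⁻ p, f p ∂(μ.map fun ω => (V ω, Y ω)) := by
    rw [lintegral_map hf (hV.prodMk hY)]
  have : IsProbabilityMeasure (μ.map Y) := Measure.isProbabilityMeasure_map hY.aemeasurable
  have : IsProbabilityMeasure (μ.map V) := Measure.isProbabilityMeasure_map hV.aemeasurable
  rw [h1, h.map_prod_eq_prod_map_map hV.aemeasurable hY.aemeasurable,
    lintegral_prod _ hf.aemeasurable, lintegral_map hf.lintegral_prod_right' hV]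

/-- the Gaussian average is `P` -/
private theorem lintegral_gauss {s : ℝ} (hs : 0 < s) {g : ℝ → ℝ} (hgm : Measurable g)
    (hg0 : ∀ x, 0 ≤ g x) {C : ℝ} (hgC : ∀ x, g x ≤ C) (x : ℝ) :
    ∫⁻ y, ENNReal.ofReal (g (x + y)) ∂(gaussianReal 0 (Real.toNNReal s))
      = ENNReal.ofReal (P s g x) := by
  have hv : Real.toNNReal s ≠ 0 := by
    simpa using hs
  rw [← ofReal_integral_eq_lintegral_ofReal, integral_gaussianReal_eq_integral_smul hv, P_shift]
  · congr 2
    ext u
    rw [gaussianPDFReal_def]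
    simp only [smul_eq_mul, sub_zero, phi, Real.coe_toNNReal s hs.le]
  · refine Integrable.of_bound (C := C) ?_ ?_
    · exact (hgm.comp (measurable_const.add measurable_id)).aestronglyMeasurable
    · refine Filter.Eventually.of_forall fun y => ?_
      rw [Real.norm_eq_abs, abs_of_nonneg (hg0 _)]
      exact hgC _
  · exact Filter.Eventually.of_forall fun y => hg0 _

/-- the walk lemma: independent Gaussian steps -/
private theorem walk_lintegral [IsProbabilityMeasure μ] {s : ℝ} (hs : 0 < s) {ξ : ℕ → Ω → ℝ}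
    (hm : ∀ i, Measurable (ξ i)) (hi : iIndepFun ξ μ)
    (hg : ∀ i, μ.map (ξ i) = gaussianReal 0 (Real.toNNReal s)) (β : ℕ → ℝ) (N : ℕ) :
    ∀ (g : ℝ → ℝ), EG g → (∀ x, 0 ≤ g x) → (∀ x, g x ≤ 1) →
    ∫⁻ ω, {ω | ∀ i, 1 ≤ i → i ≤ N → ∑ l ∈ Finset.range i, ξ l ω < β i}.indicator
      (fun ω => ENNReal.ofReal (g (∑ l ∈ Finset.range N, ξ l ω))) ω ∂μ
      = ENNReal.ofReal (chain s β 0 N g 0) := by
  induction N with
  | zero =>
    intro g hgE hg0 hg1
    have : {ω : Ω | ∀ i, 1 ≤ i → i ≤ 0 → ∑ l ∈ Finset.range i, ξ l ω < β i} = Set.univ := by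
      ext ω
      simp only [Set.mem_ofPred_eq, Set.mem_univ, iff_true]
      intro i h1 h2
      omega
    rw [this]
    simp [chain]
  | succ N ih =>
    intro g hgE hg0 hg1
    set h : ℝ → ℝ := cut (β (N + 1)) g with hh
    have hhE : EG h := EG_cut hgE _
    have hh0 : ∀ x, 0 ≤ h x := by
      intro x
      rw [hh]; unfold cut
      split_ifs
      · exact hg0 x
      · exact le_rfl
    have hh1 : ∀ x, h x ≤ 1 := by
      intro x
      rw [hh]; unfold cut
      split_ifs
      · exact hg1 x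
      · exact zero_le_one
    -- the vector of the first `N` steps
    let V : Ω → (Finset.range N → ℝ) := fun ω i => ξ i ω
    have hV : Measurable V := measurable_pi_lambda _ fun i => hm i
    have hind : IndepFun V (ξ N) μ := by
      have h1 := hi.indepFun_finset (Finset.range N) {N} (by simp) hm
      exact h1.comp (φ := fun v => v)
        (ψ := fun v : (({N} : Finset ℕ) → ℝ) => v ⟨N, Finset.mem_singleton_self N⟩)
        measurable_id (measurable_pi_apply _)
    let Sv : ℕ → (Finset.range N → ℝ) → ℝ := fun i v =>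
      ∑ l ∈ Finset.range i, if hl : l ∈ Finset.range N then v ⟨l, hl⟩ else 0
    have hSvm : ∀ i, Measurable (Sv i) := by
      intro i
      refine Finset.measurable_sum _ fun l _ => ?_
      by_cases hl : l ∈ Finset.range N
      · simp only [hl, dif_pos]
        exact measurable_pi_apply _
      · simp only [hl, dif_neg, not_false_eq_true]
        exact measurable_const
    have hSv : ∀ i, i ≤ N → ∀ ω, Sv i (V ω) = ∑ l ∈ Finset.range i, ξ l ω := by
      intro i hiN ω
      refine Finset.sum_congr rfl fun l hl => ?_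
      have hl' : l ∈ Finset.range N := by
        rw [Finset.mem_range] at hl ⊢
        omega
      simp only [hl', dif_pos, V]
    let A : Set (Finset.range N → ℝ) := {v | ∀ i, 1 ≤ i → i ≤ N → Sv i v < β i}
    have hA : MeasurableSet A := by
      have : A = ⋂ i : ℕ, ⋂ (_ : 1 ≤ i), ⋂ (_ : i ≤ N), {v | Sv i v < β i} := by
        ext v
        simp only [A, Set.mem_ofPred_eq, Set.mem_iInter]
      rw [this]
      refine MeasurableSet.iInter fun i => MeasurableSet.iInter fun _ =>
        MeasurableSet.iInter fun _ => ?_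
      exact measurableSet_lt (hSvm i) measurable_const
    let f : (Finset.range N → ℝ) × ℝ → ENNReal := fun p =>
      A.indicator (fun _ => (1 : ENNReal)) p.1 * ENNReal.ofReal (h (Sv N p.1 + p.2))
    have hf : Measurable f := by
      refine Measurable.mul ?_ ?_
      · exact (measurable_const.indicator hA).comp measurable_fst
      · refine ENNReal.measurable_ofReal.comp (hhE.1.comp ?_)
        exact ((hSvm N).comp measurable_fst).add measurable_snd
    have hAV : ∀ ω, (V ω ∈ A) ↔ ω ∈ {ω | ∀ i, 1 ≤ i → i ≤ N →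
        ∑ l ∈ Finset.range i, ξ l ω < β i} := by
      intro ω
      simp only [A, Set.mem_ofPred_eq]
      constructor
      · intro H i h1 h2
        rw [← hSv i h2]
        exact H i h1 h2
      · intro H i h1 h2
        rw [hSv i h2]
        exact H i h1 h2
    have key : ∀ ω, {ω | ∀ i, 1 ≤ i → i ≤ N + 1 → ∑ l ∈ Finset.range i, ξ l ω < β i}.indicator
        (fun ω => ENNReal.ofReal (g (∑ l ∈ Finset.range (N + 1), ξ l ω))) ω
        = f (V ω, ξ N ω) := by
      intro ω
      simp only [f, hSv N le_rfl]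
      by_cases hω : V ω ∈ A
      · rw [Set.indicator_of_mem hω, one_mul]
        have hω' := (hAV ω).1 hω
        simp only [Set.mem_ofPred_eq] at hω'
        have hsum : ∑ l ∈ Finset.range (N + 1), ξ l ω
            = ∑ l ∈ Finset.range N, ξ l ω + ξ N ω := Finset.sum_range_succ _ _
        by_cases hb : ∑ l ∈ Finset.range N, ξ l ω + ξ N ω < β (N + 1)
        · rw [Set.indicator_of_mem, hsum, hh]
          · unfold cut
            rw [if_pos hb]
          · simp only [Set.mem_ofPred_eq]
            intro i h1 h2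
            rcases Nat.lt_or_ge i (N + 1) with h3 | h3
            · exact hω' i h1 (by omega)
            · have : i = N + 1 := by omega
              subst this
              rw [hsum]
              exact hb
        · rw [Set.indicator_of_notMem, hh]
          · unfold cut
            rw [if_neg hb, ENNReal.ofReal_zero]
          · simp only [Set.mem_ofPred_eq]
            intro H
            apply hb
            rw [← hsum]
            exact H (N + 1) (by omega) le_rfl
      · rw [Set.indicator_of_notMem hω, zero_mul]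
        rw [Set.indicator_of_notMem]
        intro H
        apply hω
        rw [hAV]
        intro i h1 h2
        exact H i h1 (by omega)
    rw [lintegral_congr key, lintegral_indep hV (hm N) hind hf, chain_succ_last, zero_add, ← hh]
    have hPE : EG (P s h) := EG_P hs hhE
    have hP0 : ∀ x, 0 ≤ P s h x := P_nonneg hs hh0
    have hP1 : ∀ x, P s h x ≤ 1 := by
      intro x
      calc P s h x ≤ P s (fun _ => 1) x := P_mono hs hhE (EG_const 1) hh1 x
        _ = 1 := P_one hs x
    rw [← ih (P s h) hPE hP0 hP1]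
    refine lintegral_congr fun ω => ?_
    simp only [f, hg N, hSv N le_rfl]
    rw [lintegral_const_mul' _ _ (by
      by_cases hω : V ω ∈ A
      · rw [Set.indicator_of_mem hω]; exact ENNReal.one_ne_top
      · rw [Set.indicator_of_notMem hω]; exact ENNReal.zero_ne_top),
      lintegral_gauss hs hhE.1 hh0 hh1]
    by_cases hω : V ω ∈ A
    · rw [Set.indicator_of_mem hω, one_mul, Set.indicator_of_mem ((hAV ω).1 hω)]
    · rw [Set.indicator_of_notMem hω, zero_mul, Set.indicator_of_notMem]
      intro H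
      exact hω ((hAV ω).2 H)

/-- the walk lemma: independent Gaussian steps -/
theorem walk_prob [IsProbabilityMeasure μ] {s : ℝ} (hs : 0 < s) {ξ : ℕ → Ω → ℝ}
    (hm : ∀ i, Measurable (ξ i)) (hi : iIndepFun ξ μ)
    (hg : ∀ i, μ.map (ξ i) = gaussianReal 0 (Real.toNNReal s)) (β : ℕ → ℝ) (N : ℕ) :
    μ {ω | ∀ i, 1 ≤ i → i ≤ N → ∑ l ∈ Finset.range i, ξ l ω < β i}
      = ENNReal.ofReal (chain s β 0 N (fun _ => 1) 0) := by
  have hmeas : MeasurableSet {ω | ∀ i, 1 ≤ i → i ≤ N → ∑ l ∈ Finset.range i, ξ l ω < β i} := by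
    have : {ω | ∀ i, 1 ≤ i → i ≤ N → ∑ l ∈ Finset.range i, ξ l ω < β i}
        = ⋂ i : ℕ, ⋂ (_ : 1 ≤ i), ⋂ (_ : i ≤ N),
          {ω | ∑ l ∈ Finset.range i, ξ l ω < β i} := by
      ext ω
      simp only [Set.mem_ofPred_eq, Set.mem_iInter]
    rw [this]
    refine MeasurableSet.iInter fun i => MeasurableSet.iInter fun _ =>
      MeasurableSet.iInter fun _ => ?_
    exact measurableSet_lt (Finset.measurable_sum _ fun l _ => hm l) measurable_const
  rw [← walk_lintegral hs hm hi hg β N (fun _ => 1) (EG_const 1) (fun _ => zero_le_one)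
    (fun _ => le_rfl), ENNReal.ofReal_one, lintegral_indicator_const hmeas, one_mul]

/-- The event that the grid argmax (mesh `1/n`) is `k/n`, strictly. -/
def evE (W : ℝ → Ω → ℝ) (n : ℕ) (k : ℤ) : Set Ω :=
  {ω | ∀ j : ℤ, j ≠ k → W ((j : ℝ) / n) ω - ((j : ℝ) / n) ^ 2
      < W ((k : ℝ) / n) ω - ((k : ℝ) / n) ^ 2}

theorem measurable_evE (hW : IsTwoSidedBM W μ) (n : ℕ) (k : ℤ) : MeasurableSet (evE W n k) := by
  have : evE W n k = ⋂ j : ℤ, ⋂ (_ : j ≠ k), {ω | W ((j : ℝ) / n) ω - ((j : ℝ) / n) ^ 2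
      < W ((k : ℝ) / n) ω - ((k : ℝ) / n) ^ 2} := by
    ext ω
    simp only [evE, Set.mem_ofPred_eq, Set.mem_iInter]
  rw [this]
  refine MeasurableSet.iInter fun j => MeasurableSet.iInter fun _ => ?_
  exact measurableSet_lt ((hW.measurable _).sub measurable_const)
    ((hW.measurable _).sub measurable_const)

/-- The event restricted to grid points at distance at most `N`. -/
private def evN (W : ℝ → Ω → ℝ) (n : ℕ) (k : ℤ) (N : ℕ) : Set Ω :=
  {ω | ∀ j : ℤ, j ≠ k → |j - k| ≤ N → W ((j : ℝ) / n) ω - ((j : ℝ) / n) ^ 2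
      < W ((k : ℝ) / n) ω - ((k : ℝ) / n) ^ 2}

private theorem measurable_evN (hW : IsTwoSidedBM W μ) (n : ℕ) (k : ℤ) (N : ℕ) :
    MeasurableSet (evN W n k N) := by
  have : evN W n k N = ⋂ j : ℤ, ⋂ (_ : j ≠ k), ⋂ (_ : |j - k| ≤ N),
      {ω | W ((j : ℝ) / n) ω - ((j : ℝ) / n) ^ 2
        < W ((k : ℝ) / n) ω - ((k : ℝ) / n) ^ 2} := by
    ext ω
    simp only [evN, Set.mem_ofPred_eq, Set.mem_iInter]
  rw [this]
  refine MeasurableSet.iInter fun j => MeasurableSet.iInter fun _ =>
    MeasurableSet.iInter fun _ => ?_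
  exact measurableSet_lt ((hW.measurable _).sub measurable_const)
    ((hW.measurable _).sub measurable_const)

omit [MeasurableSpace Ω] in
private theorem anti_evN (n : ℕ) (k : ℤ) : Antitone (evN W n k) := by
  intro N N' hN ω hω j hj hjk
  refine hω j hj (hjk.trans ?_)
  exact_mod_cast hN

omit [MeasurableSpace Ω] in
private theorem iInter_evN (n : ℕ) (k : ℤ) : ⋂ N, evN W n k N = evE W n k := by
  ext ω
  simp only [Set.mem_iInter]
  constructor
  · intro H j hj
    refine H (j - k).natAbs j hj ?_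
    rw [Int.natCast_natAbs]
  · intro H N j hj _
    exact H j hj

/-- the walk with steps `ζ` stays below the parabola -/
private def wEv (ζ : ℕ → Ω → ℝ) (n : ℕ) (z : ℝ) (N : ℕ) : Set Ω :=
  {ω | ∀ i, 1 ≤ i → i ≤ N → ∑ l ∈ Finset.range i, ζ l ω
    < ((i : ℝ) / n) ^ 2 + 2 * z * ((i : ℝ) / n)}

omit [MeasurableSpace Ω] in
private theorem evN_eq {n : ℕ} (hn : 1 ≤ n) (k : ℤ) (N : ℕ) :
    evN W n k N = wEv (fun l ω => W (((k : ℝ) + l + 1) / n) ω - W (((k : ℝ) + l) / n) ω)
        n ((k : ℝ) / n) N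
      ∩ wEv (fun l ω => W (((k : ℝ) - l - 1) / n) ω - W (((k : ℝ) - l) / n) ω)
        n (-((k : ℝ) / n)) N := by
  have hn' : (n : ℝ) ≠ 0 := by positivity
  have hr : ∀ (i : ℕ) (ω : Ω), ∑ l ∈ Finset.range i,
      (W (((k : ℝ) + l + 1) / n) ω - W (((k : ℝ) + l) / n) ω)
      = W (((k : ℝ) + i) / n) ω - W ((k : ℝ) / n) ω := by
    intro i ω
    have := Finset.sum_range_sub (fun l : ℕ => W (((k : ℝ) + l) / n) ω) i
    simp only [Nat.cast_add, Nat.cast_one, Nat.cast_zero, add_zero] at this
    rw [← this]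
    refine Finset.sum_congr rfl fun l _ => ?_
    rw [add_assoc]
  have hl : ∀ (i : ℕ) (ω : Ω), ∑ l ∈ Finset.range i,
      (W (((k : ℝ) - l - 1) / n) ω - W (((k : ℝ) - l) / n) ω)
      = W (((k : ℝ) - i) / n) ω - W ((k : ℝ) / n) ω := by
    intro i ω
    have := Finset.sum_range_sub (fun l : ℕ => W (((k : ℝ) - l) / n) ω) i
    simp only [Nat.cast_add, Nat.cast_one, Nat.cast_zero, sub_zero] at this
    rw [← this]
    refine Finset.sum_congr rfl fun l _ => ?_
    rw [sub_add_eq_sub_sub]
  ext ω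
  constructor
  · intro H
    constructor
    · intro i h1 h2
      have := H (k + i) (by omega) (by
        rw [add_sub_cancel_left, Nat.abs_cast]
        exact_mod_cast h2)
      rw [hr]
      push_cast at this
      have e : (((k : ℝ) + i) / n) ^ 2 - ((k : ℝ) / n) ^ 2
          = ((i : ℝ) / n) ^ 2 + 2 * ((k : ℝ) / n) * ((i : ℝ) / n) := by
        field_simp
        ring
      linarith
    · intro i h1 h2
      have := H (k - i) (by omega) (by
        rw [show k - (i : ℤ) - k = -(i : ℤ) by ring, abs_neg, Nat.abs_cast]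
        exact_mod_cast h2)
      rw [hl]
      push_cast at this
      have e : (((k : ℝ) - i) / n) ^ 2 - ((k : ℝ) / n) ^ 2
          = ((i : ℝ) / n) ^ 2 + 2 * (-((k : ℝ) / n)) * ((i : ℝ) / n) := by
        field_simp
        ring
      linarith
  · rintro ⟨H1, H2⟩ j hj hjk
    rcases lt_or_gt_of_ne hj with hlt | hgt
    · obtain ⟨i, hi⟩ : ∃ i : ℕ, j = k - i := ⟨(k - j).toNat, by omega⟩
      subst hi
      have h1 : 1 ≤ i := by omega
      have h2 : i ≤ N := by
        rw [show k - (i : ℤ) - k = -(i : ℤ) by ring, abs_neg, Nat.abs_cast] at hjk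
        exact_mod_cast hjk
      have := H2 i h1 h2
      rw [hl] at this
      push_cast
      have e : (((k : ℝ) - i) / n) ^ 2 - ((k : ℝ) / n) ^ 2
          = ((i : ℝ) / n) ^ 2 + 2 * (-((k : ℝ) / n)) * ((i : ℝ) / n) := by
        field_simp
        ring
      linarith
    · obtain ⟨i, hi⟩ : ∃ i : ℕ, j = k + i := ⟨(j - k).toNat, by omega⟩
      subst hi
      have h1 : 1 ≤ i := by omega
      have h2 : i ≤ N := by
        rw [add_sub_cancel_left, Nat.abs_cast] at hjk
        exact_mod_cast hjk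
      have := H1 i h1 h2
      rw [hr] at this
      push_cast
      have e : (((k : ℝ) + i) / n) ^ 2 - ((k : ℝ) / n) ^ 2
          = ((i : ℝ) / n) ^ 2 + 2 * ((k : ℝ) / n) * ((i : ℝ) / n) := by
        field_simp
        ring
      linarith

private theorem prob_evN [IsProbabilityMeasure μ] (hW : IsTwoSidedBM W μ) {n : ℕ} (hn : 1 ≤ n)
    (k : ℤ) (N : ℕ) :
    μ (evN W n k N)
      = ENNReal.ofReal (G n N ((k : ℝ) / n) * G n N (-((k : ℝ) / n))) := by
  have hn0 : (0 : ℝ) < n := by positivity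
  have hs : (0 : ℝ) < 1 / (n : ℝ) := by positivity
  -- all increments from `k - N` on
  let t : ℕ → ℝ := fun i => ((k : ℝ) - N + i) / n
  have ht : Monotone t := by
    intro i j hij
    have : (i : ℝ) ≤ j := by exact_mod_cast hij
    simp only [t]
    gcongr
  have hη := hW.indep.nat ht
  set η : ℕ → Ω → ℝ := fun i ω => W (t (i + 1)) ω - W (t i) ω with hηd
  have hηm : ∀ i, Measurable (η i) := fun i => (hW.measurable _).sub (hW.measurable _)
  have hηg : ∀ i, μ.map (η i) = gaussianReal 0 (Real.toNNReal (1 / (n : ℝ))) := by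
    intro i
    rw [hηd]
    simp only
    rw [hW.gauss _ _ (ht (Nat.le_succ i))]
    congr 2
    simp only [t]
    push_cast
    field_simp
    ring
  have hηneg : ∀ i, μ.map (fun ω => -(η i ω)) = gaussianReal 0 (Real.toNNReal (1 / (n : ℝ))) := by
    intro i
    have h1 : (fun ω => -(η i ω)) = (fun x : ℝ => -x) ∘ (η i) := rfl
    rw [h1, ← Measure.map_map measurable_neg (hηm i), hηg i, gaussianReal_map_neg, neg_zero]
  -- the right walk
  let ξ : ℕ → Ω → ℝ := fun l => η (N + l)
  -- the left walk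
  let r : ℕ → ℕ := fun l => if l < N then N - 1 - l else l
  have hr : Function.Injective r := by
    intro a b hab
    simp only [r] at hab
    split_ifs at hab <;> omega
  let ξ' : ℕ → Ω → ℝ := fun l ω => -(η (r l) ω)
  have hξi : iIndepFun ξ μ := hη.precomp (g := fun l => N + l) (add_right_injective N)
  have hξ'i : iIndepFun ξ' μ := by
    have h1 : iIndepFun (fun l => η (r l)) μ := hη.precomp hr
    exact h1.comp (fun _ x => -x) (fun _ => measurable_neg)
  have p1 := walk_prob (μ := μ) hs (ξ := ξ) (fun i => hηm _) hξi (fun i => hηg _)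
    (fun j => ((j : ℝ) / n) ^ 2 + 2 * ((k : ℝ) / n) * ((j : ℝ) / n)) N
  have p2 := walk_prob (μ := μ) hs (ξ := ξ') (fun i => (hηm _).neg) hξ'i (fun i => hηneg _)
    (fun j => ((j : ℝ) / n) ^ 2 + 2 * (-((k : ℝ) / n)) * ((j : ℝ) / n)) N
  have e1 : wEv (fun l ω => W (((k : ℝ) + l + 1) / n) ω - W (((k : ℝ) + l) / n) ω)
        n ((k : ℝ) / n) N = {ω | ∀ i, 1 ≤ i → i ≤ N → ∑ l ∈ Finset.range i, ξ l ω
          < ((i : ℝ) / n) ^ 2 + 2 * ((k : ℝ) / n) * ((i : ℝ) / n)} := by
    have : (fun (l : ℕ) (ω : Ω) => W (((k : ℝ) + l + 1) / n) ω - W (((k : ℝ) + l) / n) ω) = ξ := by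
      ext l ω
      simp only [ξ, hηd, t]
      have a1 : (k : ℝ) - N + ((N + l + 1 : ℕ) : ℝ) = (k : ℝ) + l + 1 := by
        push_cast; ring
      have a2 : (k : ℝ) - N + ((N + l : ℕ) : ℝ) = (k : ℝ) + l := by
        push_cast; ring
      rw [a1, a2]
    rw [this]
    rfl
  have e2 : wEv (fun l ω => W (((k : ℝ) - l - 1) / n) ω - W (((k : ℝ) - l) / n) ω)
        n (-((k : ℝ) / n)) N = {ω | ∀ i, 1 ≤ i → i ≤ N → ∑ l ∈ Finset.range i, ξ' l ω
          < ((i : ℝ) / n) ^ 2 + 2 * (-((k : ℝ) / n)) * ((i : ℝ) / n)} := by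
    have hk : ∀ l : ℕ, l < N → ∀ ω, W (((k : ℝ) - l - 1) / n) ω - W (((k : ℝ) - l) / n) ω
        = ξ' l ω := by
      intro l hl ω
      simp only [ξ', hηd, t, r, if_pos hl, neg_sub]
      have h1 : ((N - 1 - l : ℕ) : ℝ) = (N : ℝ) - 1 - l := by
        rw [Nat.cast_sub (by omega), Nat.cast_sub (by omega)]
        simp
      have a1 : (k : ℝ) - N + ((N - 1 - l + 1 : ℕ) : ℝ) = (k : ℝ) - l := by
        push_cast; rw [h1]; ring
      have a2 : (k : ℝ) - N + ((N - 1 - l : ℕ) : ℝ) = (k : ℝ) - l - 1 := by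
        rw [h1]; ring
      rw [a1, a2]
    ext ω
    simp only [wEv, Set.mem_ofPred_eq]
    constructor
    · intro H i h1 h2
      refine lt_of_eq_of_lt (Finset.sum_congr rfl fun l hl => ?_) (H i h1 h2)
      rw [Finset.mem_range] at hl
      exact (hk l (by omega) ω).symm
    · intro H i h1 h2
      refine lt_of_eq_of_lt (Finset.sum_congr rfl fun l hl => ?_) (H i h1 h2)
      rw [Finset.mem_range] at hl
      exact hk l (by omega) ω
  -- independence of the two walks
  have hind := hη.indepFun_finset (Finset.Ico N (2 * N)) (Finset.range N) (by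
    rw [Finset.disjoint_left]
    intro a ha hb
    rw [Finset.mem_Ico] at ha
    rw [Finset.mem_range] at hb
    omega) hηm
  have hmul : μ ({ω | ∀ i, 1 ≤ i → i ≤ N → ∑ l ∈ Finset.range i, ξ l ω
          < ((i : ℝ) / n) ^ 2 + 2 * ((k : ℝ) / n) * ((i : ℝ) / n)} ∩
        {ω | ∀ i, 1 ≤ i → i ≤ N → ∑ l ∈ Finset.range i, ξ' l ω
          < ((i : ℝ) / n) ^ 2 + 2 * (-((k : ℝ) / n)) * ((i : ℝ) / n)})
      = μ {ω | ∀ i, 1 ≤ i → i ≤ N → ∑ l ∈ Finset.range i, ξ l ω
          < ((i : ℝ) / n) ^ 2 + 2 * ((k : ℝ) / n) * ((i : ℝ) / n)} *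
        μ {ω | ∀ i, 1 ≤ i → i ≤ N → ∑ l ∈ Finset.range i, ξ' l ω
          < ((i : ℝ) / n) ^ 2 + 2 * (-((k : ℝ) / n)) * ((i : ℝ) / n)} := by
    refine hind.meas_inter ?_ ?_
    · refine ⟨{v | ∀ i, 1 ≤ i → i ≤ N → ∑ l ∈ Finset.range i,
        (if hl : N + l ∈ Finset.Ico N (2 * N) then v ⟨N + l, hl⟩ else 0)
          < ((i : ℝ) / n) ^ 2 + 2 * ((k : ℝ) / n) * ((i : ℝ) / n)}, ?_, ?_⟩
      · have : {v : (Finset.Ico N (2 * N) → ℝ) | ∀ i, 1 ≤ i → i ≤ N → ∑ l ∈ Finset.range i,
            (if hl : N + l ∈ Finset.Ico N (2 * N) then v ⟨N + l, hl⟩ else 0)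
              < ((i : ℝ) / n) ^ 2 + 2 * ((k : ℝ) / n) * ((i : ℝ) / n)}
            = ⋂ i : ℕ, ⋂ (_ : 1 ≤ i), ⋂ (_ : i ≤ N), {v | ∑ l ∈ Finset.range i,
            (if hl : N + l ∈ Finset.Ico N (2 * N) then v ⟨N + l, hl⟩ else 0)
              < ((i : ℝ) / n) ^ 2 + 2 * ((k : ℝ) / n) * ((i : ℝ) / n)} := by
          ext v
          simp only [Set.mem_ofPred_eq, Set.mem_iInter]
        rw [this]
        refine MeasurableSet.iInter fun i => MeasurableSet.iInter fun _ =>
          MeasurableSet.iInter fun _ => measurableSet_lt (Finset.measurable_sum _ fun l _ => ?_)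
            measurable_const
        by_cases hl : N + l ∈ Finset.Ico N (2 * N)
        · simp only [hl, dif_pos]
          exact measurable_pi_apply _
        · simp only [hl, dif_neg, not_false_eq_true]
          exact measurable_const
      · ext ω
        simp only [Set.mem_preimage, Set.mem_ofPred_eq]
        have hk : ∀ i, i ≤ N → ∑ l ∈ Finset.range i,
            (if hl : N + l ∈ Finset.Ico N (2 * N) then η (N + l) ω else 0)
            = ∑ l ∈ Finset.range i, ξ l ω := by
          intro i hi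
          refine Finset.sum_congr rfl fun l hl => ?_
          rw [Finset.mem_range] at hl
          rw [dif_pos (by rw [Finset.mem_Ico]; omega)]
        constructor
        · intro H i h1 h2
          rw [← hk i h2]; exact H i h1 h2
        · intro H i h1 h2
          rw [hk i h2]; exact H i h1 h2
    · refine ⟨{v | ∀ i, 1 ≤ i → i ≤ N → ∑ l ∈ Finset.range i,
        (if hl : r l ∈ Finset.range N then -(v ⟨r l, hl⟩) else 0)
          < ((i : ℝ) / n) ^ 2 + 2 * (-((k : ℝ) / n)) * ((i : ℝ) / n)}, ?_, ?_⟩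
      · have : {v : (Finset.range N → ℝ) | ∀ i, 1 ≤ i → i ≤ N → ∑ l ∈ Finset.range i,
            (if hl : r l ∈ Finset.range N then -(v ⟨r l, hl⟩) else 0)
              < ((i : ℝ) / n) ^ 2 + 2 * (-((k : ℝ) / n)) * ((i : ℝ) / n)}
            = ⋂ i : ℕ, ⋂ (_ : 1 ≤ i), ⋂ (_ : i ≤ N), {v | ∑ l ∈ Finset.range i,
            (if hl : r l ∈ Finset.range N then -(v ⟨r l, hl⟩) else 0)
              < ((i : ℝ) / n) ^ 2 + 2 * (-((k : ℝ) / n)) * ((i : ℝ) / n)} := by
          ext v
          simp only [Set.mem_ofPred_eq, Set.mem_iInter]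
        rw [this]
        refine MeasurableSet.iInter fun i => MeasurableSet.iInter fun _ =>
          MeasurableSet.iInter fun _ => measurableSet_lt (Finset.measurable_sum _ fun l _ => ?_)
            measurable_const
        by_cases hl : r l ∈ Finset.range N
        · simp only [hl, dif_pos]
          exact (measurable_pi_apply _).neg
        · simp only [hl, dif_neg, not_false_eq_true]
          exact measurable_const
      · ext ω
        simp only [Set.mem_preimage, Set.mem_ofPred_eq]
        have hk : ∀ i, i ≤ N → ∑ l ∈ Finset.range i,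
            (if hl : r l ∈ Finset.range N then -(η (r l) ω) else 0)
            = ∑ l ∈ Finset.range i, ξ' l ω := by
          intro i hi
          refine Finset.sum_congr rfl fun l hl => ?_
          rw [Finset.mem_range] at hl
          rw [dif_pos (by
            rw [Finset.mem_range]
            simp only [r]
            rw [if_pos (by omega)]
            omega)]
        constructor
        · intro H i h1 h2
          rw [← hk i h2]; exact H i h1 h2
        · intro H i h1 h2
          rw [hk i h2]; exact H i h1 h2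
  have hG0 : ∀ z, 0 ≤ G n N z := fun z =>
    chain_nonneg hs _ _ _ (fun _ => zero_le_one) _
  rw [evN_eq hn, e1, e2, hmul, p1, p2, ENNReal.ofReal_mul (hG0 _)]
  rfl

theorem prob_evE [IsProbabilityMeasure μ] (hW : IsTwoSidedBM W μ) {n : ℕ} (hn : 1 ≤ n) (k : ℤ) :
    μ (evE W n k) = ENNReal.ofReal (F n ((k : ℝ) / n)) := by
  have h1 : Tendsto (μ ∘ evN W n k) atTop (𝓝 (μ (⋂ N, evN W n k N))) :=
    tendsto_measure_iInter_atTop (fun N => (measurable_evN hW n k N).nullMeasurableSet)
      (anti_evN n k) ⟨0, measure_ne_top _ _⟩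
  rw [iInter_evN] at h1
  have h2 : Tendsto (μ ∘ evN W n k) atTop (𝓝 (ENNReal.ofReal (F n ((k : ℝ) / n)))) := by
    have h3 : (μ ∘ evN W n k) = fun N =>
        ENNReal.ofReal (G n N ((k : ℝ) / n) * G n N (-((k : ℝ) / n))) := by
      ext N
      exact prob_evN hW hn k N
    rw [h3]
    exact ENNReal.tendsto_ofReal ((tendsto_G hn _).mul (tendsto_G hn _))
  exact tendsto_nhds_unique h1 h2

end Pool.Agent.Helper85.Chern
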