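import Pool.Agent.Helper85.Chern.Basic

/-!
# M2: the variance inequality (Stein kernel)
-/

namespace Pool.Agent.Helper85.Chern

open MeasureTheory Filter Topology

namespace Stein

/-- the Stein kernel times the density -/
noncomputable def T (r : ℝ → ℝ) (x : ℝ) : ℝ := - ∫ y in Set.Iic x, r y

theorem T_sub {r : ℝ → ℝ} (hr : Integrable r) (a x : ℝ) :
    T r x = T r a - ∫ y in a..x, r y := by
  have := intervalIntegral.integral_Iic_sub_Iic (a := a) (b := x) (f := r) (μ := volume)
    hr.integrableOn hr.integrableOn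
  unfold T
  linarith

theorem continuous_T {r : ℝ → ℝ} (hr : Integrable r) : Continuous (T r) := by
  have : T r = fun x => T r 0 - ∫ y in (0 : ℝ)..x, r y := by
    funext x
    exact T_sub hr 0 x
  rw [this]
  exact continuous_const.sub (intervalIntegral.continuous_primitive (fun a b => hr.intervalIntegrable) 0)

theorem tendsto_T {r : ℝ → ℝ} (hr : Integrable r) : Tendsto (T r) atBot (𝓝 0) := by
  have h := intervalIntegral_tendsto_integral_Iic (μ := volume) (f := r) (l := atBot)
    (a := fun x : ℝ => x) 0 hr.integrableOn tendsto_id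
  have h1 : T r = fun x => T r 0 + ∫ y in x..(0:ℝ), r y := by
    funext x
    rw [T_sub hr 0 x, intervalIntegral.integral_symm]
    ring
  rw [h1]
  have h2 := (tendsto_const_nhds (x := T r 0)).add h
  have h3 : T r 0 + ∫ y in Set.Iic (0:ℝ), r y = 0 := by
    unfold T
    ring
  rwa [h3] at h2

theorem T_eq_zero {r : ℝ → ℝ} (h0 : ∫ y, r y = 0) {b x : ℝ} (hbx : b ≤ x)
    (hb : ∀ y, b ≤ y → r y = 0) : T r x = 0 := by
  unfold T
  rw [← integral_indicator measurableSet_Iic]
  have : (Set.Iic x).indicator r = r := by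
    funext y
    by_cases hy : y ∈ Set.Iic x
    · rw [Set.indicator_of_mem hy]
    · rw [Set.indicator_of_notMem hy, hb y (hbx.trans (not_le.1 hy).le)]
  rw [this, h0, neg_zero]

theorem stein_le {s b μ : ℝ} {ρ κ : ℝ → ℝ} (hs : 0 < s) (hρ0 : ∀ y, 0 ≤ ρ y)
    (hρb : ∀ y, b ≤ y → ρ y = 0)
    (hd : ∀ y < b, HasDerivAt ρ (ρ y * (κ y - y / s)) y) (hκ : Antitone κ)
    (hr : Integrable fun y => (y - μ) * ρ y) (h0 : ∫ y, (y - μ) * ρ y = 0) (x : ℝ) :
    T (fun y => (y - μ) * ρ y) x ≤ s * ρ x := by
  set r : ℝ → ℝ := fun y => (y - μ) * ρ y with hrdef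
  have hrb : ∀ y, b ≤ y → r y = 0 := fun y hy => by simp [hrdef, hρb y hy]
  rcases le_or_gt b x with hx | hx
  · rw [T_eq_zero h0 hx hrb, hρb x hx, mul_zero]
  -- derivative of `T`
  have hT : ∀ y < b, HasDerivAt (T r) (-((y - μ) * ρ y)) y := by
    intro y hy
    have e : T r = fun x => T r y - ∫ z in y..x, r z := by
      funext x
      exact T_sub hr y x
    rw [e]
    have hcr : ContinuousAt r y := by
      have h1 := (hd y hy).continuousAt
      exact (continuousAt_id.sub continuousAt_const).mul h1
    have h2 := intervalIntegral.integral_hasDerivAt_right (a := y) (b := y) (f := r)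
      (hr.intervalIntegrable) (hr.aestronglyMeasurable.stronglyMeasurableAtFilter) hcr
    have h3 := h2.const_sub (T r y)
    exact h3
  have hD : ∀ y < b, HasDerivAt (fun z => s * ρ z - T r z) (ρ y * (s * κ y - μ)) y := by
    intro y hy
    have h1 := ((hd y hy).const_mul s).sub (hT y hy)
    have e : ρ y * (s * κ y - μ) = s * (ρ y * (κ y - y / s)) - -((y - μ) * ρ y) := by
      have : s * (y / s) = y := by field_simp
      linear_combination (ρ y) * this
    rw [e]
    exact h1
  have hDc : ContinuousOn (fun z => s * ρ z - T r z) (Set.Iio b) := fun y hy =>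
    (hD y hy).continuousAt.continuousWithinAt
  rcases le_or_gt 0 (s * κ x - μ) with hc | hc
  · have hm : MonotoneOn (fun z => s * ρ z - T r z) (Set.Iic x) := by
      refine monotoneOn_of_deriv_nonneg (convex_Iic x) (hDc.mono fun y hy => lt_of_le_of_lt hy hx) ?_ ?_
      · intro y hy
        rw [interior_Iic] at hy
        exact (hD y (hy.trans hx)).differentiableAt.differentiableWithinAt
      · intro y hy
        rw [interior_Iic] at hy
        rw [(hD y (hy.trans hx)).deriv]
        refine mul_nonneg (hρ0 y) ?_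
        have := hκ hy.le
        nlinarith
    have h1 : ∀ᶠ y in atBot, -(T r y) ≤ s * ρ x - T r x := by
      filter_upwards [eventually_le_atBot x] with y hy
      have h2 := hm hy (Set.mem_Iic.2 le_rfl) hy
      have h3 := mul_nonneg hs.le (hρ0 y)
      simp only at h2
      linarith
    have h2 := le_of_tendsto (tendsto_T hr).neg h1
    rw [neg_zero] at h2
    linarith
  · have hm : AntitoneOn (fun z => s * ρ z - T r z) (Set.Ico x b) := by
      refine antitoneOn_of_deriv_nonpos (convex_Ico x b) (hDc.mono fun y hy => hy.2) ?_ ?_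
      · intro y hy
        rw [interior_Ico] at hy
        exact (hD y hy.2).differentiableAt.differentiableWithinAt
      · intro y hy
        rw [interior_Ico] at hy
        rw [(hD y hy.2).deriv]
        refine mul_nonpos_of_nonneg_of_nonpos (hρ0 y) ?_
        have := hκ hy.1.le
        nlinarith
    have h1 : ∀ᶠ y in 𝓝[<] b, -(T r y) ≤ s * ρ x - T r x := by
      filter_upwards [Ico_mem_nhdsLT hx] with y hy
      have h2 := hm (Set.left_mem_Ico.2 hx) hy hy.1
      have h3 := mul_nonneg hs.le (hρ0 y)
      simp only at h2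
      linarith
    have h4 : Tendsto (T r) (𝓝[<] b) (𝓝 0) := by
      have := (continuous_T hr).continuousAt (x := b)
      rw [ContinuousAt, T_eq_zero h0 le_rfl hrb] at this
      exact this.mono_left nhdsWithin_le_nhds
    have h2 := le_of_tendsto h4.neg h1
    rw [neg_zero] at h2
    linarith

/-- the kernel in Fubini -/
noncomputable def q (μ x y : ℝ) : ℝ := (if x < y then 1 else 0) - (if x < μ then 1 else 0)

theorem q_of_le {μ y : ℝ} (h : μ ≤ y) (x : ℝ) : q μ x y = (Set.Ico μ y).indicator 1 x := by
  unfold q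
  by_cases h1 : x < μ
  · have h2 : x < y := h1.trans_le h
    have h3 : x ∉ Set.Ico μ y := fun h' => absurd h'.1 (not_le.2 h1)
    simp [h1, h2, h3]
  · by_cases h2 : x < y
    · have h3 : x ∈ Set.Ico μ y := ⟨not_lt.1 h1, h2⟩
      simp [h1, h2, h3]
    · have h3 : x ∉ Set.Ico μ y := fun h' => h2 h'.2
      simp [h1, h2, h3]

theorem q_of_ge {μ y : ℝ} (h : y ≤ μ) (x : ℝ) : q μ x y = -(Set.Ico y μ).indicator 1 x := by
  unfold q
  by_cases h1 : x < y
  · have h2 : x < μ := h1.trans_le h
    have h3 : x ∉ Set.Ico y μ := fun h' => absurd h'.1 (not_le.2 h1)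
    simp [h1, h2, h3]
  · by_cases h2 : x < μ
    · have h3 : x ∈ Set.Ico y μ := ⟨not_lt.1 h1, h2⟩
      simp [h1, h2, h3]
    · have h3 : x ∉ Set.Ico y μ := fun h' => h2 h'.2
      simp [h1, h2, h3]

theorem measurable_q (μ : ℝ) : Measurable fun p : ℝ × ℝ => q μ p.1 p.2 := by
  unfold q
  refine Measurable.sub ?_ ?_
  · exact Measurable.ite (measurableSet_lt measurable_fst measurable_snd) measurable_const
      measurable_const
  · exact Measurable.ite (measurableSet_lt measurable_fst measurable_const) measurable_const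
      measurable_const

variable {μ : ℝ} {g h : ℝ → ℝ}

theorem integrable_qh (hh : Continuous h) (y : ℝ) : Integrable fun x => q μ x y * h x := by
  rcases le_total μ y with hy | hy
  · have : (fun x => q μ x y * h x) = (Set.Ico μ y).indicator h := by
      funext x
      rw [q_of_le hy]
      by_cases hx : x ∈ Set.Ico μ y <;> simp [hx]
    rw [this, integrable_indicator_iff measurableSet_Ico]
    exact (hh.integrableOn_Icc).mono_set Set.Ico_subset_Icc_self
  · have : (fun x => q μ x y * h x) = fun x => -(Set.Ico y μ).indicator h x := by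
      funext x
      rw [q_of_ge hy]
      by_cases hx : x ∈ Set.Ico y μ <;> simp [hx]
    rw [this]
    refine Integrable.neg ?_
    rw [integrable_indicator_iff measurableSet_Ico]
    exact (hh.integrableOn_Icc).mono_set Set.Ico_subset_Icc_self

theorem integral_qh (hg : ∀ x, HasDerivAt g (h x) x) (hh : Continuous h) (y : ℝ) :
    ∫ x, q μ x y * h x = g y - g μ := by
  rcases le_total μ y with hy | hy
  · have : (fun x => q μ x y * h x) = (Set.Ico μ y).indicator h := by
      funext x
      rw [q_of_le hy]
      by_cases hx : x ∈ Set.Ico μ y <;> simp [hx]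
    rw [this, integral_indicator measurableSet_Ico, integral_Ico_eq_integral_Ioc,
      ← intervalIntegral.integral_of_le hy]
    exact intervalIntegral.integral_eq_sub_of_hasDerivAt (fun x _ => hg x)
      (hh.intervalIntegrable _ _)
  · have : (fun x => q μ x y * h x) = fun x => -(Set.Ico y μ).indicator h x := by
      funext x
      rw [q_of_ge hy]
      by_cases hx : x ∈ Set.Ico y μ <;> simp [hx]
    rw [this, integral_neg, integral_indicator measurableSet_Ico, integral_Ico_eq_integral_Ioc,
      ← intervalIntegral.integral_of_le hy,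
      intervalIntegral.integral_eq_sub_of_hasDerivAt (fun x _ => hg x)
      (hh.intervalIntegrable _ _)]
    ring

theorem integral_abs_qh (hg : ∀ x, HasDerivAt g (h x) x) (hh : Continuous h)
    (h0 : ∀ x, 0 ≤ h x) (y : ℝ) :
    ∫ x, |q μ x y * h x| = |g y - g μ| := by
  rcases le_total μ y with hy | hy
  · have : (fun x => |q μ x y * h x|) = fun x => q μ x y * h x := by
      funext x
      refine abs_of_nonneg (mul_nonneg ?_ (h0 x))
      rw [q_of_le hy]
      exact Set.indicator_nonneg (fun _ _ => zero_le_one) _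
    rw [this, integral_qh hg hh]
    have h1 := integral_qh (μ := μ) hg hh y
    rw [abs_of_nonneg]
    rw [← h1, ← this]
    exact integral_nonneg fun x => abs_nonneg _
  · have : (fun x => |q μ x y * h x|) = fun x => -(q μ x y * h x) := by
      funext x
      refine abs_of_nonpos (mul_nonpos_of_nonpos_of_nonneg ?_ (h0 x))
      rw [q_of_ge hy, neg_nonpos]
      exact Set.indicator_nonneg (fun _ _ => zero_le_one) _
    have h1 := integral_qh (μ := μ) hg hh y
    have h2 : 0 ≤ ∫ x, |q μ x y * h x| := integral_nonneg fun x => abs_nonneg _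
    rw [this, integral_neg, h1] at h2 ⊢
    rw [abs_of_nonpos (by linarith)]

theorem T_eq {r : ℝ → ℝ} (hr : Integrable r) (h0 : ∫ y, r y = 0) (x : ℝ) :
    T r x = ∫ y, q μ x y * r y := by
  have h1 : (fun y => q μ x y * r y)
      = fun y => (Set.Ioi x).indicator r y - (if x < μ then 1 else 0) * r y := by
    funext y
    unfold q
    by_cases hy : x < y
    · have : y ∈ Set.Ioi x := hy
      simp only [hy, if_true, Set.indicator_of_mem this]
      ring
    · have : y ∉ Set.Ioi x := hy
      simp only [hy, if_false, Set.indicator_of_notMem this]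
      ring
  rw [h1, integral_sub (hr.indicator measurableSet_Ioi) (hr.const_mul _), integral_const_mul, h0,
    mul_zero, sub_zero, integral_indicator measurableSet_Ioi]
  have h2 := intervalIntegral.integral_Iic_add_Ioi (b := x) (f := r) (μ := volume)
    hr.integrableOn hr.integrableOn
  unfold T
  linarith

theorem integrable_prod {r : ℝ → ℝ} (hg : ∀ x, HasDerivAt g (h x) x) (hh : Continuous h)
    (hh0 : ∀ x, 0 ≤ h x) (hr : Integrable r)
    (hi : Integrable fun y => (g y - g μ) * r y) :
    Integrable (fun p : ℝ × ℝ => (q μ p.1 p.2 * h p.1) * r p.2)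
      ((volume : Measure ℝ).prod (volume : Measure ℝ)) := by
  have hm : AEStronglyMeasurable (fun p : ℝ × ℝ => (q μ p.1 p.2 * h p.1) * r p.2)
      ((volume : Measure ℝ).prod (volume : Measure ℝ)) := by
    refine AEStronglyMeasurable.mul ?_ ?_
    · exact ((measurable_q μ).mul (hh.measurable.comp measurable_fst)).aestronglyMeasurable
    · exact hr.aestronglyMeasurable.comp_snd
  rw [integrable_prod_iff' hm]
  constructor
  · exact Eventually.of_forall fun y => (integrable_qh (μ := μ) hh y).mul_const (r y)
  · have : (fun y => ∫ x, ‖(q μ x y * h x) * r y‖) = fun y => ‖(g y - g μ) * r y‖ := by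
      funext y
      simp only [norm_mul]
      rw [integral_mul_const]
      congr 1
      have := integral_abs_qh (μ := μ) hg hh hh0 y
      simp only [Real.norm_eq_abs, ← abs_mul]
      exact this
    simp only
    rw [this]
    exact hi.norm

theorem integral_hT {r : ℝ → ℝ} (hg : ∀ x, HasDerivAt g (h x) x) (hh : Continuous h)
    (hh0 : ∀ x, 0 ≤ h x) (hr : Integrable r) (h0 : ∫ y, r y = 0)
    (hi : Integrable fun y => (g y - g μ) * r y) :
    Integrable (fun x => h x * T r x) ∧
      ∫ x, h x * T r x = ∫ y, (g y - g μ) * r y := by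
  have hp := integrable_prod hg hh hh0 hr hi
  have e : (fun x => h x * T r x) = fun x => ∫ y, (q μ x y * h x) * r y := by
    funext x
    rw [T_eq (μ := μ) hr h0 x, ← integral_const_mul]
    congr 1
    funext y
    ring
  rw [e]
  refine ⟨hp.integral_prod_left, ?_⟩
  have h1 := integral_integral_swap (f := fun x y => (q μ x y * h x) * r y) hp
  rw [h1]
  congr 1
  funext y
  rw [integral_mul_const, integral_qh hg hh]

end Stein

open Stein

section

variable {s : ℝ} {K : ℝ → ℝ}

theorem hasDerivAt_phi_st (hs : 0 < s) (u : ℝ) : HasDerivAt (phi s) (phi s u * (-u / s)) u := by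
  unfold phi
  have h1 : HasDerivAt (fun u : ℝ => -(u ^ 2) / (2 * s)) (-u / s) u := by
    refine ((hasDerivAt_pow 2 u).fun_neg.div_const (2 * s)).congr_deriv ?_
    norm_num
    field_simp
  refine (h1.exp.const_mul ((Real.sqrt (2 * Real.pi * s))⁻¹)).congr_deriv ?_
  ring

/-- the density -/
noncomputable def rho (s b x : ℝ) (K : ℝ → ℝ) (y : ℝ) : ℝ := phi s (y - x) * cut b K y

theorem cut_nonneg (hK : Nice K) (b y : ℝ) : 0 ≤ cut b K y := by
  unfold cut
  split_ifs
  · exact (hK.pos y).le
  · exact le_rfl

theorem rho_nonneg (hs : 0 < s) (hK : Nice K) (b x y : ℝ) : 0 ≤ rho s b x K y :=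
  mul_nonneg (phi_pos hs _).le (cut_nonneg hK b y)

theorem rho_zero {b x y : ℝ} (h : b ≤ y) : rho s b x K y = 0 := by
  unfold rho cut
  rw [if_neg (not_lt.2 h), mul_zero]

theorem rho_deriv (hs : 0 < s) (hK : Nice K) (b x : ℝ) (y : ℝ) (hy : y < b) :
    HasDerivAt (rho s b x K) (rho s b x K y * ((x / s + deriv K y / K y) - y / s)) y := by
  have h1 : rho s b x K =ᶠ[𝓝 y] fun z => phi s (z - x) * K z := by
    filter_upwards [Iio_mem_nhds hy] with z hz
    unfold rho cut
    rw [if_pos (Set.mem_Iio.1 hz)]
  refine HasDerivAt.congr_of_eventuallyEq ?_ h1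
  have h2 : HasDerivAt (fun z => phi s (z - x)) (phi s (y - x) * (-(y - x) / s)) y := by
    have := (hasDerivAt_phi_st hs (y - x)).comp_sub_const y x
    exact this
  have h3 := h2.mul (hK.diff y).hasDerivAt
  have h4 : rho s b x K y = phi s (y - x) * K y := by
    unfold rho cut
    rw [if_pos hy]
  rw [h4]
  refine h3.congr_deriv ?_
  have h5 := (hK.pos y).ne'
  field_simp
  ring

theorem kappa_antitone (hK : Nice K) (x : ℝ) : Antitone fun y => x / s + deriv K y / K y :=
  fun _ _ h => add_le_add le_rfl (hK.anti h)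

theorem integrable_rho (hs : 0 < s) (hK : Nice K) (b x : ℝ) {f : ℝ → ℝ} (hf : EG f) :
    Integrable fun y => f y * rho s b x K y := by
  have := EG_integrable hs (EG_mul hf (EG_cut hK.eg b)) x
  refine this.congr (Eventually.of_forall fun y => ?_)
  simp only [rho]
  ring

theorem integral_rho (s b x : ℝ) (K f : ℝ → ℝ) :
    ∫ y, f y * rho s b x K y = P s (fun y => f y * cut b K y) x := by
  unfold P rho
  congr 1
  funext y
  ring

theorem P_cut_eq (s b x : ℝ) (K : ℝ → ℝ) : P s (cut b K) x = ∫ y, rho s b x K y := by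
  unfold P rho
  rfl

end

section main

variable {s : ℝ} {K : ℝ → ℝ} (hs : 0 < s) (hK : Nice K) (b x : ℝ)

include hs hK in
/-- the basic data: the mean is `μ`, and the integral of `T` is the variance -/
theorem basic (μ : ℝ) (hμ : μ = P s (fun y => y * cut b K y) x / P s (cut b K) x) :
    Integrable (fun y => (y - μ) * rho s b x K y) ∧ (∫ y, (y - μ) * rho s b x K y = 0) ∧
    Integrable (T fun y => (y - μ) * rho s b x K y) ∧
    ∫ y, T (fun y => (y - μ) * rho s b x K y) y
      = P s (fun y => y ^ 2 * cut b K y) x - μ ^ 2 * P s (cut b K) x := by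
  have hm0 : 0 < P s (cut b K) x := P_cut_pos hs hK.eg hK.pos b x
  have i0 : Integrable (rho s b x K) := by
    have := integrable_rho hs hK b x (EG_const 1)
    simpa using this
  have i1 : Integrable fun y => y * rho s b x K y := integrable_rho hs hK b x EG_id
  have i2 : Integrable fun y => y ^ 2 * rho s b x K y := integrable_rho hs hK b x (EG_pow EG_id 2)
  have hr : Integrable fun y => (y - μ) * rho s b x K y := by
    refine (i1.sub (i0.const_mul μ)).congr (Eventually.of_forall fun y => ?_)
    simp only [Pi.sub_apply]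
    ring
  have e1 := integral_rho s b x K (fun y => y)
  have e2 := integral_rho s b x K (fun y => y ^ 2)
  have e0 := P_cut_eq s b x K
  have hμ' : P s (fun y => y * cut b K y) x = μ * P s (cut b K) x := by
    rw [hμ]
    field_simp
  have h0 : ∫ y, (y - μ) * rho s b x K y = 0 := by
    have : (fun y => (y - μ) * rho s b x K y) = fun y => y * rho s b x K y - μ * rho s b x K y := by
      funext y
      ring
    rw [this, integral_sub i1 (i0.const_mul μ), integral_const_mul, e1, ← e0, hμ', sub_self]
  have hi : Integrable fun y => (y - μ) * ((y - μ) * rho s b x K y) := by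
    refine ((i2.sub (i1.const_mul (2 * μ))).add (i0.const_mul (μ ^ 2))).congr
      (Eventually.of_forall fun y => ?_)
    simp only [Pi.sub_apply, Pi.add_apply]
    ring
  have key := integral_hT (μ := μ) (g := fun y => y) (h := fun _ => 1)
    (r := fun y => (y - μ) * rho s b x K y) (fun x => hasDerivAt_id x)
    continuous_const (fun _ => zero_le_one) hr h0 hi
  simp only [one_mul] at key
  refine ⟨hr, h0, key.1, key.2.trans ?_⟩
  have : (fun y => (y - μ) * ((y - μ) * rho s b x K y)) = fun y =>
      y ^ 2 * rho s b x K y - (2 * μ) * (y * rho s b x K y) + μ ^ 2 * rho s b x K y := by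
    funext y
    ring
  rw [this, integral_add (f := fun y => y ^ 2 * rho s b x K y - (2 * μ) * (y * rho s b x K y))
      (i2.sub (i1.const_mul (2 * μ))) (i0.const_mul (μ ^ 2)),
    integral_sub i2 (i1.const_mul (2 * μ)), integral_const_mul, integral_const_mul, e1, e2, ← e0,
    hμ']
  ring

end main

theorem var_le {s : ℝ} (hs : 0 < s) {K : ℝ → ℝ} (hK : Nice K) (b x : ℝ) :
    P s (fun y => y ^ 2 * cut b K y) x / P s (cut b K) x
      - (P s (fun y => y * cut b K y) x / P s (cut b K) x) ^ 2 ≤ s := by
  obtain ⟨hr, h0, hT, hV⟩ := basic hs hK b x _ rfl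
  set μ := P s (fun y => y * cut b K y) x / P s (cut b K) x with hμ
  have hm0 : 0 < P s (cut b K) x := P_cut_pos hs hK.eg hK.pos b x
  have i0 : Integrable (rho s b x K) := by
    have := integrable_rho hs hK b x (EG_const 1)
    simpa using this
  have h1 : ∫ y, T (fun y => (y - μ) * rho s b x K y) y ≤ ∫ y, s * rho s b x K y :=
    integral_mono hT (i0.const_mul s) fun y =>
      stein_le hs (rho_nonneg hs hK b x) (fun _ h => rho_zero h) (rho_deriv hs hK b x)
        (kappa_antitone hK x) hr h0 y
  rw [hV, integral_const_mul, ← P_cut_eq] at h1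
  have h2 : P s (fun y => y ^ 2 * cut b K y) x / P s (cut b K) x - μ ^ 2
      = (P s (fun y => y ^ 2 * cut b K y) x - μ ^ 2 * P s (cut b K) x) / P s (cut b K) x := by
    field_simp
  rw [h2, div_le_iff₀ hm0]
  exact h1

theorem var_le_improved {K : ℝ → ℝ} (hK : Nice K) {M : ℝ} (hM : 0 ≤ M)
    (hmean : -M ≤ P 1 (fun y => y * cut 1 K y) 0 / P 1 (cut 1 K) 0) :
    P 1 (fun y => y ^ 2 * cut 1 K y) 0 / P 1 (cut 1 K) 0
      - (P 1 (fun y => y * cut 1 K y) 0 / P 1 (cut 1 K) 0) ^ 2
      ≤ 1 - Real.exp (-((M + 2) * (M + 1))) / (M + 2) := by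
  have hs : (0 : ℝ) < 1 := one_pos
  obtain ⟨hr, h0, hT, hV⟩ := basic hs hK 1 0 _ rfl
  set μ := P 1 (fun y => y * cut 1 K y) 0 / P 1 (cut 1 K) 0 with hμ
  have hm0 : 0 < P 1 (cut 1 K) 0 := P_cut_pos hs hK.eg hK.pos 1 0
  have i0 : Integrable (rho 1 1 0 K) := by
    have := integrable_rho hs hK 1 0 (EG_const 1)
    simpa using this
  have i1 : Integrable fun y => y * rho 1 1 0 K y := integrable_rho hs hK 1 0 EG_id
  set lam : ℝ := M + 2 with hlam
  have hlam0 : 0 < lam := by linarith
  have ie : Integrable fun y => Real.exp (lam * y) * rho 1 1 0 K y :=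
    integrable_rho hs hK 1 0 (EG_exp lam)
  have iye : Integrable fun y => (y * Real.exp (lam * y)) * rho 1 1 0 K y :=
    integrable_rho hs hK 1 0 (EG_mul EG_id (EG_exp lam))
  have hi : Integrable fun y => (Real.exp (lam * y) - Real.exp (lam * μ)) *
      ((y - μ) * rho 1 1 0 K y) := by
    refine ((iye.sub (ie.const_mul μ)).sub (hr.const_mul (Real.exp (lam * μ)))).congr
      (Eventually.of_forall fun y => ?_)
    simp only [Pi.sub_apply]
    ring
  have hder : ∀ x, HasDerivAt (fun y => Real.exp (lam * y)) (lam * Real.exp (lam * x)) x := by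
    intro x
    have := ((hasDerivAt_id x).const_mul lam).exp
    simp only [id, mul_one] at this
    rwa [mul_comm] at this
  have key := integral_hT (μ := μ) (g := fun y => Real.exp (lam * y))
    (h := fun y => lam * Real.exp (lam * y))
    (r := fun y => (y - μ) * rho 1 1 0 K y) hder
    (by fun_prop) (fun y => by positivity) hr h0 hi
  set TT := T (fun y => (y - μ) * rho 1 1 0 K y) with hTT
  have hst : ∀ y, TT y ≤ rho 1 1 0 K y := fun y => by
    have := stein_le (μ := μ) hs (rho_nonneg hs hK 1 0) (fun _ h => rho_zero h) (rho_deriv hs hK 1 0)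
        (kappa_antitone hK 0) hr h0 y
    rwa [one_mul] at this
  have hT1 : ∀ y, 1 ≤ y → TT y = 0 := fun y hy =>
    T_eq_zero h0 hy (fun z hz => by rw [rho_zero hz, mul_zero])
  -- the chain of inequalities
  have A1 : ∫ y, (rho 1 1 0 K y - TT y) * (lam * Real.exp (lam * y))
      ≤ ∫ y, (rho 1 1 0 K y - TT y) * (lam * Real.exp lam) := by
    have hA : Integrable fun y => (rho 1 1 0 K y - TT y) * (lam * Real.exp (lam * y)) := by
      refine ((ie.const_mul lam).sub key.1).congr (Eventually.of_forall fun y => ?_)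
      simp only [Pi.sub_apply]
      ring
    refine integral_mono hA ((i0.sub hT).mul_const _) fun y => ?_
    simp only
    rcases le_or_gt 1 y with hy | hy
    · rw [hT1 y hy, rho_zero hy]
      simp
    · refine mul_le_mul_of_nonneg_left ?_ (by have := hst y; linarith)
      refine mul_le_mul_of_nonneg_left ?_ hlam0.le
      exact Real.exp_le_exp.2 (by nlinarith)
  have A2 : ∫ y, (rho 1 1 0 K y - TT y) * (lam * Real.exp (lam * y))
      = ∫ y, (lam - y + μ) * (Real.exp (lam * y) * rho 1 1 0 K y) := by
    have e1 : (fun y => (rho 1 1 0 K y - TT y) * (lam * Real.exp (lam * y)))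
        = fun y => lam * (Real.exp (lam * y) * rho 1 1 0 K y)
          - lam * Real.exp (lam * y) * TT y := by
      funext y
      ring
    rw [e1, integral_sub (ie.const_mul lam) key.1, key.2, ← integral_sub (ie.const_mul lam) hi]
    have e2 : (fun y => lam * (Real.exp (lam * y) * rho 1 1 0 K y)
        - (Real.exp (lam * y) - Real.exp (lam * μ)) * ((y - μ) * rho 1 1 0 K y))
        = fun y => (lam - y + μ) * (Real.exp (lam * y) * rho 1 1 0 K y)
          + Real.exp (lam * μ) * ((y - μ) * rho 1 1 0 K y) := by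
      funext y
      ring
    have i3 : Integrable fun y => (lam - y + μ) * (Real.exp (lam * y) * rho 1 1 0 K y) := by
      refine ((ie.const_mul (lam + μ)).sub iye).congr (Eventually.of_forall fun y => ?_)
      simp only [Pi.sub_apply]
      ring
    rw [e2, integral_add i3 (hr.const_mul _), integral_const_mul, h0]
    ring
  have i3 : Integrable fun y => (lam - y + μ) * (Real.exp (lam * y) * rho 1 1 0 K y) := by
    refine ((ie.const_mul (lam + μ)).sub iye).congr (Eventually.of_forall fun y => ?_)
    simp only [Pi.sub_apply]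
    ring
  have A3 : ∫ y, Real.exp (lam * y) * rho 1 1 0 K y
      ≤ ∫ y, (lam - y + μ) * (Real.exp (lam * y) * rho 1 1 0 K y) := by
    refine integral_mono ie i3 fun y => ?_
    simp only
    rcases le_or_gt 1 y with hy | hy
    · rw [rho_zero hy]
      simp
    · have h1 : 0 ≤ Real.exp (lam * y) * rho 1 1 0 K y :=
        mul_nonneg (Real.exp_pos _).le (rho_nonneg hs hK 1 0 y)
      have h2 : 1 ≤ lam - y + μ := by linarith
      nlinarith
  have A4 : Real.exp (-(lam * M)) * P 1 (cut 1 K) 0 ≤ ∫ y, Real.exp (lam * y) * rho 1 1 0 K y := by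
    have B1 : ∫ y, (Real.exp (lam * μ) * rho 1 1 0 K y
          + Real.exp (lam * μ) * lam * ((y - μ) * rho 1 1 0 K y))
        ≤ ∫ y, Real.exp (lam * y) * rho 1 1 0 K y := by
      refine integral_mono ((i0.const_mul _).add (hr.const_mul _)) ie fun y => ?_
      have h1 : Real.exp (lam * μ) * (1 + lam * (y - μ)) ≤ Real.exp (lam * y) := by
        have h2 := Real.add_one_le_exp (lam * (y - μ))
        have h3 : Real.exp (lam * y) = Real.exp (lam * μ) * Real.exp (lam * (y - μ)) := by
          rw [← Real.exp_add]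
          congr 1
          ring
        rw [h3]
        refine mul_le_mul_of_nonneg_left ?_ (Real.exp_pos _).le
        linarith
      have h4 := mul_le_mul_of_nonneg_right h1 (rho_nonneg hs hK 1 0 y)
      simp only
      nlinarith
    rw [integral_add (i0.const_mul _) (hr.const_mul _), integral_const_mul, integral_const_mul, h0,
      mul_zero, add_zero, ← P_cut_eq] at B1
    refine le_trans ?_ B1
    refine mul_le_mul_of_nonneg_right ?_ hm0.le
    refine Real.exp_le_exp.2 ?_
    nlinarith
  have A5 : ∫ y, (rho 1 1 0 K y - TT y) * (lam * Real.exp lam)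
      = (P 1 (cut 1 K) 0 - (P 1 (fun y => y ^ 2 * cut 1 K y) 0 - μ ^ 2 * P 1 (cut 1 K) 0))
        * (lam * Real.exp lam) := by
    rw [integral_mul_const, integral_sub i0 hT, hV, ← P_cut_eq]
  have A6 : Real.exp (-(lam * M)) * P 1 (cut 1 K) 0
      ≤ (P 1 (cut 1 K) 0 - (P 1 (fun y => y ^ 2 * cut 1 K y) 0 - μ ^ 2 * P 1 (cut 1 K) 0))
        * (lam * Real.exp lam) := by
    rw [← A5]
    refine le_trans A4 (le_trans A3 ?_)
    rw [← A2]
    exact A1
  have h2 : P 1 (fun y => y ^ 2 * cut 1 K y) 0 / P 1 (cut 1 K) 0 - μ ^ 2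
      = 1 - (P 1 (cut 1 K) 0 - (P 1 (fun y => y ^ 2 * cut 1 K y) 0 - μ ^ 2 * P 1 (cut 1 K) 0))
        / P 1 (cut 1 K) 0 := by
    field_simp
    ring
  rw [h2]
  refine sub_le_sub_left ?_ _
  rw [div_le_div_iff₀ hlam0 hm0]
  have h3 : Real.exp (-(lam * (M + 1))) * Real.exp lam = Real.exp (-(lam * M)) := by
    rw [← Real.exp_add]
    congr 1
    ring
  have h4 : 0 < Real.exp lam := Real.exp_pos _
  refine le_of_mul_le_mul_right ?_ h4
  calc Real.exp (-(lam * (M + 1))) * P 1 (cut 1 K) 0 * Real.exp lam
      = Real.exp (-(lam * M)) * P 1 (cut 1 K) 0 := by rw [← h3]; ring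
    _ ≤ _ := A6
    _ = _ := by ring

end Pool.Agent.Helper85.Chern
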