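import Pool.Agent.Helper85.Chern.Stein

/-!
# M3: the backward induction
-/

namespace Pool.Agent.Helper85.Chern

open MeasureTheory Filter Topology

theorem P_at_zero (s : ℝ) (g : ℝ → ℝ) (x : ℝ) : P s g x = P s (fun u => g (x + u)) 0 := by
  rw [P_shift, P_shift]
  simp only [zero_add]

theorem EG_translate {g : ℝ → ℝ} (hg : EG g) (x : ℝ) : EG (fun u => g (x + u)) := by
  have h := EG_affine hg 1 x
  refine (by convert h using 2; ring_nf)

theorem cut_nonneg_step {K : ℝ → ℝ} (hK : ∀ x, 0 ≤ K x) (b x : ℝ) : 0 ≤ cut b K x := by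
  unfold cut
  split_ifs
  · exact hK x
  · exact le_rfl

theorem Nice.mlr_translate {K : ℝ → ℝ} (hK : Nice K) (b : ℝ) {x x' : ℝ} (h : x ≤ x') :
    MLR (fun u => cut b K (x' + u)) (fun u => cut b K (x + u)) := by
  intro u v huv
  have := hK.four b (x := x + u) (y := x + v) (d := x' - x) (by linarith) (by linarith)
  have e1 : x + v + (x' - x) = x' + v := by ring
  have e2 : x + u + (x' - x) = x' + u := by ring
  rw [e1, e2] at this
  exact this

theorem Nice_step {s : ℝ} (hs : 0 < s) {K : ℝ → ℝ} (hK : Nice K) (b : ℝ) :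
    Nice (P s (cut b K)) := by
  have hw : EG (cut b K) := EG_cut hK.eg b
  have hpos : ∀ x, 0 < P s (cut b K) x := fun x => P_cut_pos hs hK.eg hK.pos b x
  refine ⟨hpos, fun x => (hasDerivAt_P hs hw x).differentiableAt, ?_, EG_P hs hw⟩
  intro x x' hxx'
  simp only
  rw [(hasDerivAt_P hs hw x).deriv, (hasDerivAt_P hs hw x').deriv]
  have e : ∀ z, P s (fun y => (y - z) * cut b K y) z = P s (fun u => u * cut b K (z + u)) 0 := by
    intro z
    rw [P_at_zero]
    congr 1
    funext u
    rw [add_sub_cancel_left]
  have e' : ∀ z, P s (cut b K) z = P s (fun u => cut b K (z + u)) 0 := fun z => P_at_zero s _ z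
  have key := assoc_P hs (hK.mlr_translate b hxx') (m := fun u => u) monotone_id
    (EG_translate hw x') (EG_translate hw x) (EG_mul EG_id (EG_translate hw x'))
    (EG_mul EG_id (EG_translate hw x)) 0
  rw [e, e]
  have h1 := hpos x
  have h2 := hpos x'
  rw [← e', ← e'] at key
  rw [div_div, div_div, div_le_div_iff₀ (by positivity) (by positivity)]
  nlinarith [mul_le_mul_of_nonneg_left key hs.le]

theorem phi_mlr {s : ℝ} (hs : 0 < s) {x x' u v : ℝ} (hx : x ≤ x') (huv : u ≤ v) :
    phi s (u - x') * phi s (v - x) ≤ phi s (v - x') * phi s (u - x) := by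
  unfold phi
  have h1 : ∀ a b c d : ℝ, c * Real.exp a * (d * Real.exp b) = c * d * Real.exp (a + b) := by
    intro a b c d
    rw [Real.exp_add]; ring
  rw [h1, h1]
  apply mul_le_mul_of_nonneg_left _ (by positivity)
  apply Real.exp_le_exp.2
  rw [← add_div, ← add_div]
  apply div_le_div_of_nonneg_right _ (by positivity)
  nlinarith [mul_nonneg (sub_nonneg.2 hx) (sub_nonneg.2 huv)]

theorem Tri_step {s v : ℝ} (hs : 0 < s) {K L Q : ℝ → ℝ} (h : Tri v K L Q) (b : ℝ) :
    Tri (v + s) (P s (cut b K)) (P s (cut b L)) (P s (cut b Q)) := by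
  have hK := h.nice
  have hw : EG (cut b K) := EG_cut hK.eg b
  have hw0 : ∀ y, 0 ≤ cut b K y := cut_nonneg_step (fun y => (hK.pos y).le) b
  have hpos : ∀ x, 0 < P s (cut b K) x := fun x => P_cut_pos hs hK.eg hK.pos b x
  set m : ℝ → ℝ := fun y => L y / K y with hm
  have hmm : Monotone m := h.mono
  have hlip : ∀ x y, x ≤ y → m y - m x ≤ y - x := h.lip
  have hmeas : Measurable m := h.egL.1.div hK.eg.1
  have hEGm : EG m := by
    have h1 : EG (fun y : ℝ => |m 0| + |y|) := EG_add (EG_const _) (EG_abs EG_id)
    refine EG_mono h1 hmeas ?_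
    intro y
    have h2 : |m y - m 0| ≤ |y| := by
      rcases le_total 0 y with hy | hy
      · rw [abs_of_nonneg (sub_nonneg.2 (hmm hy)), abs_of_nonneg hy]
        have := hlip 0 y hy
        linarith
      · rw [abs_of_nonpos (sub_nonpos.2 (hmm hy)), abs_of_nonpos hy]
        have := hlip y 0 hy
        linarith
    have h3 : |m y| ≤ |m y - m 0| + |m 0| := by
      have := abs_add_le (m y - m 0) (m 0)
      simpa using this
    rw [abs_of_nonneg (by positivity : (0:ℝ) ≤ |m 0| + |y|)]
    linarith
  have hcutL : cut b L = fun y => m y * cut b K y := by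
    funext y
    simp only [cut, hm]
    split_ifs
    · rw [div_mul_cancel₀ _ (hK.pos y).ne']
    · rw [mul_zero]
  have hmw : EG (fun y => m y * cut b K y) := EG_mul hEGm hw
  have hcutQ : ∀ y, cut b Q y ≤ v * cut b K y + m y ^ 2 * cut b K y := by
    intro y
    simp only [cut]
    split_ifs
    · have h1 := h.var y
      have h2 := hK.pos y
      have h3 : Q y / K y ≤ v + m y ^ 2 := by
        simp only [hm]; linarith
      rw [div_le_iff₀ h2] at h3
      nlinarith
    · simp
  -- general expansions
  have hquad : ∀ (f : ℝ → ℝ) (_ : EG f) (c x : ℝ),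
      P s (fun y => (f y - c) ^ 2 * cut b K y) x
        = P s (fun y => f y ^ 2 * cut b K y) x - 2 * c * P s (fun y => f y * cut b K y) x
          + c ^ 2 * P s (cut b K) x := by
    intro f hf c x
    have e1 : (fun y => (f y - c) ^ 2 * cut b K y)
        = fun y => (f y ^ 2 * cut b K y - (2 * c) * (f y * cut b K y)) + c ^ 2 * cut b K y := by
      funext y; ring
    rw [e1, P_add hs (EG_sub (EG_mul (EG_pow hf 2) hw) (EG_mul (EG_const _) (EG_mul hf hw)))
      (EG_mul (EG_const _) hw), P_sub hs (EG_mul (EG_pow hf 2) hw)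
      (EG_mul (EG_const _) (EG_mul hf hw)), P_const_mul, P_const_mul]
  refine ⟨Nice_step hs hK b, EG_P hs (EG_cut h.egL b), EG_P hs (EG_cut h.egQ b), ?_, ?_, ?_⟩
  · -- monotone
    intro x x' hxx'
    simp only
    rw [hcutL]
    have hmlr : MLR (fun y => phi s (y - x) * cut b K y) (fun y => phi s (y - x') * cut b K y) := by
      intro u v' huv
      simp only
      have h1 := phi_mlr hs hxx' huv
      have h2 : 0 ≤ cut b K u * cut b K v' := mul_nonneg (hw0 u) (hw0 v')
      nlinarith [mul_le_mul_of_nonneg_right h1 h2]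
    have key := assoc hmlr hmm (EG_integrable hs hw x) (EG_integrable hs hw x')
      (by
        have := EG_integrable hs hmw x
        refine this.congr (Eventually.of_forall fun y => ?_)
        simp only; ring)
      (by
        have := EG_integrable hs hmw x'
        refine this.congr (Eventually.of_forall fun y => ?_)
        simp only; ring)
    have e : ∀ z, ∫ y, m y * (phi s (y - z) * cut b K y) = P s (fun y => m y * cut b K y) z := by
      intro z
      unfold P
      congr 1
      funext y
      ring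
    rw [e, e] at key
    rw [div_le_div_iff₀ (hpos x) (hpos x')]
    exact key
  · -- Lipschitz
    intro x x' hxx'
    rw [hcutL]
    have key := assoc_P hs (hK.mlr_translate b hxx') (m := fun u => m (x + u))
      (fun u v' huv => hmm (by linarith)) (EG_translate hw x') (EG_translate hw x)
      (EG_mul (EG_translate hEGm x) (EG_translate hw x'))
      (EG_mul (EG_translate hEGm x) (EG_translate hw x)) 0
    have e1 : P s (cut b K) x' = P s (fun u => cut b K (x' + u)) 0 := P_at_zero s _ x'
    have e2 : P s (cut b K) x = P s (fun u => cut b K (x + u)) 0 := P_at_zero s _ x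
    have e3 : P s (fun y => m y * cut b K y) x = P s (fun u => m (x + u) * cut b K (x + u)) 0 :=
      P_at_zero s _ x
    have e4 : P s (fun y => m y * cut b K y) x'
        ≤ P s (fun u => m (x + u) * cut b K (x' + u)) 0 + (x' - x) * P s (cut b K) x' := by
      rw [P_at_zero s _ x', e1, ← P_const_mul, ← P_add hs
        (EG_mul (EG_translate hEGm x) (EG_translate hw x'))
        (EG_mul (EG_const _) (EG_translate hw x'))]
      refine P_mono hs (EG_translate hmw x') (EG_add
        (EG_mul (EG_translate hEGm x) (EG_translate hw x'))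
        (EG_mul (EG_const _) (EG_translate hw x'))) ?_ 0
      intro u
      have h1 := hlip (x + u) (x' + u) (by linarith)
      have h2 := hw0 (x' + u)
      nlinarith
    rw [← e1, ← e2, ← e3] at key
    have hp := hpos x
    have hp' := hpos x'
    have h5 : P s (fun y => m y * cut b K y) x' / P s (cut b K) x'
        ≤ P s (fun u => m (x + u) * cut b K (x' + u)) 0 / P s (cut b K) x' + (x' - x) := by
      rw [div_add' _ _ _ hp'.ne']
      exact div_le_div_of_nonneg_right e4 hp'.le
    have h6 : P s (fun u => m (x + u) * cut b K (x' + u)) 0 / P s (cut b K) x'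
        ≤ P s (fun y => m y * cut b K y) x / P s (cut b K) x := by
      rw [div_le_div_iff₀ hp' hp]
      exact key
    linarith
  · -- variance
    intro x
    rw [hcutL]
    have hp := hpos x
    have hQle : P s (cut b Q) x ≤ v * P s (cut b K) x + P s (fun y => m y ^ 2 * cut b K y) x := by
      rw [← P_const_mul, ← P_add hs (EG_mul (EG_const _) hw) (EG_mul (EG_pow hEGm 2) hw)]
      exact P_mono hs (EG_cut h.egQ b) (EG_add (EG_mul (EG_const _) hw)
        (EG_mul (EG_pow hEGm 2) hw)) hcutQ x
    set N := P s (cut b K) x with hN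
    set μ := P s (fun y => y * cut b K y) x / N with hμ
    have h1 := hquad m hEGm (m μ) x
    have h2 := hquad (fun y => y) EG_id μ x
    have h3 : P s (fun y => (m y - m μ) ^ 2 * cut b K y) x
        ≤ P s (fun y => (y - μ) ^ 2 * cut b K y) x := by
      refine P_mono hs (EG_mul (EG_pow (EG_sub hEGm (EG_const _)) 2) hw)
        (EG_mul (EG_pow (EG_sub EG_id (EG_const _)) 2) hw) ?_ x
      intro y
      apply mul_le_mul_of_nonneg_right _ (hw0 y)
      apply sq_le_sq.2
      rcases le_total μ y with hy | hy
      · rw [abs_of_nonneg (sub_nonneg.2 (hmm hy)), abs_of_nonneg (sub_nonneg.2 hy)]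
        exact hlip μ y hy
      · rw [abs_of_nonpos (sub_nonpos.2 (hmm hy)), abs_of_nonpos (sub_nonpos.2 hy)]
        have := hlip y μ hy
        linarith
    have h4 := var_le hs hK b x
    rw [← hN, ← hμ] at h4
    rw [← hN] at h1 h2
    have hPy : P s (fun y => y * cut b K y) x = μ * N := by
      rw [hμ, div_mul_cancel₀ _ hp.ne']
    set a := P s (fun y => m y * cut b K y) x / N with ha
    have hPm : P s (fun y => m y * cut b K y) x = a * N := by
      rw [ha, div_mul_cancel₀ _ hp.ne']
    have h5 : P s (fun y => y ^ 2 * cut b K y) x ≤ (s + μ ^ 2) * N := by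
      rw [← div_le_iff₀ hp]; linarith
    rw [hPm] at h1
    rw [hPy] at h2
    have h6 : P s (fun y => m y ^ 2 * cut b K y) x ≤ (s + 2 * m μ * a - m μ ^ 2) * N := by
      nlinarith
    have h7 : P s (cut b Q) x ≤ (v + (s + 2 * m μ * a - m μ ^ 2)) * N := by
      nlinarith
    rw [← div_le_iff₀ hp] at h7
    nlinarith [sq_nonneg (m μ - a)]

theorem Tri_base (a : ℝ) : Tri 0 (fun x => Real.exp (a * x)) (fun x => x * Real.exp (a * x))
    (fun x => x ^ 2 * Real.exp (a * x)) := by
  have e1 : ∀ x : ℝ, x * Real.exp (a * x) / Real.exp (a * x) = x := fun x =>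
    mul_div_cancel_right₀ _ (Real.exp_ne_zero _)
  have e2 : ∀ x : ℝ, x ^ 2 * Real.exp (a * x) / Real.exp (a * x) = x ^ 2 := fun x =>
    mul_div_cancel_right₀ _ (Real.exp_ne_zero _)
  refine ⟨Nice_exp a, EG_mul EG_id (EG_exp a), EG_mul (EG_pow EG_id 2) (EG_exp a), ?_, ?_, ?_⟩
  · intro x y hxy
    simp only [e1]
    exact hxy
  · intro x y hxy
    simp only [e1]
    exact le_rfl
  · intro x
    simp only [e1, e2]
    linarith

theorem Tri_chain {s : ℝ} (hs : 0 < s) (b : ℕ → ℝ) (a : ℝ) (k j : ℕ) :
    Tri (j * s) (chain s b k j (fun x => Real.exp (a * x)))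
      (chain s b k j (fun x => x * Real.exp (a * x)))
      (chain s b k j (fun x => x ^ 2 * Real.exp (a * x))) := by
  induction j generalizing k with
  | zero =>
    simp only [Nat.cast_zero, zero_mul]
    exact Tri_base a
  | succ j ih =>
    have h := Tri_step hs (ih (k + 1)) (b (k + 1))
    have e : ((j + 1 : ℕ) : ℝ) * s = j * s + s := by push_cast; ring
    rw [e]
    exact h

end Pool.Agent.Helper85.Chern
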