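import Pool.Agent.Helper85.Chern.Walk

/-!
# M4b: the main variance inequality
-/

namespace Pool.Agent.Helper85.Chern

open MeasureTheory Filter Topology

/-- the density of `X` at time `1` relative to the Gaussian one, before the cut at `1`;
here the mesh is `1/(m+1)` and there are `j` further steps after time `1`. -/
noncomputable def Kz (m j : ℕ) (z : ℝ) (x : ℝ) : ℝ :=
  qt (1 / ((m + 1 : ℕ) : ℝ)) (bq (m + 1)) m x *
    chain (1 / ((m + 1 : ℕ) : ℝ)) (bq (m + 1)) (m + 1) j (fun y => Real.exp (-2 * z * y)) x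

/-- exponential moments of the killed walk after `m+1+j` steps -/
noncomputable def Mom (m j : ℕ) (z : ℝ) (i : ℕ) : ℝ :=
  chain (1 / ((m + 1 : ℕ) : ℝ)) (bq (m + 1)) 0 (m + 1 + j)
    (fun y => y ^ i * Real.exp (-2 * z * y)) 0

theorem step_pos (m : ℕ) : (0 : ℝ) < 1 / ((m + 1 : ℕ) : ℝ) := by positivity

theorem step_mul (m : ℕ) : ((m : ℝ) + 1) * (1 / ((m + 1 : ℕ) : ℝ)) = 1 := by
  push_cast
  have : (m : ℝ) + 1 ≠ 0 := by positivity
  field_simp

theorem bq_nonneg (n j : ℕ) : 0 ≤ bq n j := sq_nonneg _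

theorem bq_self (m : ℕ) : bq (m + 1) (m + 1) = 1 := by
  unfold bq
  rw [div_self (by positivity)]
  norm_num

theorem Kz_nice (m j : ℕ) (z : ℝ) : Nice (Kz m j z) :=
  (qt_nice (step_pos m) (bq (m + 1)) m).mul
    (Tri_chain (step_pos m) (bq (m + 1)) (-2 * z) (m + 1) j).nice

theorem cut_nonneg_vm {b : ℝ} {g : ℝ → ℝ} (h : ∀ y, 0 ≤ g y) (y : ℝ) : 0 ≤ cut b g y := by
  unfold cut
  split_ifs
  · exact h y
  · exact le_rfl

theorem cut_mul_left (b : ℝ) (f g : ℝ → ℝ) (y : ℝ) :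
    cut b (fun x => f x * g x) y = cut b f y * g y := by
  unfold cut
  split_ifs <;> simp

/-- numerical constant -/
theorem const_ineq : 3 * Real.sqrt (2 * Real.pi) ≤ 8 * (1 - Real.exp (-4)) := by
  have h1 : Real.sqrt (2 * Real.pi) ≤ 2.51 := by
    rw [Real.sqrt_le_left (by norm_num)]
    have := Real.pi_lt_d2
    nlinarith
  have h2 : Real.exp (-4) ≤ 1 / 20 := by
    have h3 : (2.7 : ℝ) ≤ Real.exp 1 := by
      have := Real.exp_one_gt_d9
      linarith
    have h4 : Real.exp (-4) = (Real.exp 1 ^ 4)⁻¹ := by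
      rw [← Real.exp_nat_mul, ← Real.exp_neg]
      norm_num
    rw [h4, one_div]
    apply inv_anti₀ (by norm_num)
    calc (20 : ℝ) ≤ 2.7 ^ 4 := by norm_num
      _ ≤ Real.exp 1 ^ 4 := by gcongr
  linarith

theorem mean_bound (m j : ℕ) {z : ℝ} (hz : z ≤ 0) :
    -8 ≤ P 1 (fun y => y * cut 1 (Kz m j z) y) 0 / P 1 (cut 1 (Kz m j z)) 0 := by
  have hs := step_pos m
  set s : ℝ := 1 / ((m + 1 : ℕ) : ℝ) with hs_def
  set h : ℝ → ℝ := chain s (bq (m + 1)) (m + 1) j (fun _ => 1) with h_def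
  have hEG : EG h := EG_chain hs _ _ _ (EG_const 1)
  have hpos : ∀ x, 0 < h x := fun x => chain_pos hs _ _ _ (EG_const 1) (fun _ => one_pos) x
  have hqN : Nice (qt s (fun _ => 0) m) := qt_nice hs _ m
  have hK : Nice (Kz m j z) := Kz_nice m j z
  -- the two densities
  set p0 : ℝ → ℝ := cut 0 (fun x => qt s (fun _ => 0) m x * h x) with p0_def
  set p1 : ℝ → ℝ := cut 1 (Kz m j z) with p1_def
  have hmlr : MLR p0 p1 := by
    have e1 : MLR h (chain s (bq (m + 1)) (m + 1) j (fun x => Real.exp (-2 * z * x))) := by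
      have := chain_exp_mlr hs (bq (m + 1)) (a := 0) (a' := -2 * z) (by linarith) (m + 1) j
      simpa using this
    have e2 : MLR (qt s (fun _ => 0) m) (qt s (bq (m + 1)) m) :=
      qt_mlr hs (bq_nonneg _) m
    refine MLR_cut (MLR_mul e2 e1 ?_ ?_ ?_ ?_) ?_ ?_ zero_le_one
    · exact fun x => (hqN.pos x).le
    · exact fun x => ((qt_nice hs _ m).pos x).le
    · exact fun x => (hpos x).le
    · exact fun x => chain_nonneg hs _ _ _ (fun y => (Real.exp_pos _).le) x
    · exact fun x => mul_nonneg (hqN.pos x).le (hpos x).le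
    · exact fun x => (hK.pos x).le
  have hp0 : EG p0 := EG_cut (EG_mul hqN.eg hEG) 0
  have hp1 : EG p1 := EG_cut hK.eg 1
  have key := assoc_P one_pos hmlr monotone_id hp0 hp1 (EG_mul EG_id hp0) (EG_mul EG_id hp1) 0
  simp only [id] at key
  have hP1 : 0 < P 1 p1 0 := P_cut_pos one_pos hK.eg hK.pos 1 0
  have hP0 : 0 < P 1 p0 0 :=
    P_cut_pos one_pos (EG_mul hqN.eg hEG) (fun y => mul_pos (hqN.pos y) (hpos y)) 0 0
  -- the forward representations
  have f0 : P 1 p0 0 = chain s (fun _ => 0) 0 (m + 1) h 0 := by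
    rw [fwd hs (fun _ => 0) m hEG, step_mul]
    congr 1
    funext y
    exact cut_mul_left 0 _ _ y
  have f1 : P 1 (fun y => y * p0 y) 0 = chain s (fun _ => 0) 0 (m + 1) (fun y => y * h y) 0 := by
    rw [fwd hs (fun _ => 0) m (EG_mul EG_id hEG), step_mul]
    congr 1
    funext y
    rw [p0_def, cut_mul_left]
    ring
  -- comparison of functionals of the killed walk
  have cmp : ∀ f g : ℝ → ℝ, EG f → EG g → (∀ y, y < 0 → f y ≤ g y) →
      chain s (fun _ => 0) 0 (m + 1) f 0 ≤ chain s (fun _ => 0) 0 (m + 1) g 0 := by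
    intro f g hf hg hfg
    rw [chain_succ_last, chain_succ_last]
    refine chain_mono hs _ _ _ (EG_P hs (EG_cut hf _)) (EG_P hs (EG_cut hg _)) ?_ 0
    intro x
    refine P_mono hs (EG_cut hf _) (EG_cut hg _) ?_ x
    intro y
    unfold cut
    split_ifs with hy
    · exact hfg y hy
    · exact le_rfl
  have c1 : chain s (fun _ => 0) 0 (m + 1) (fun y => (-1) * (y * h y)) 0
      ≤ chain s (fun _ => 0) 0 (m + 1) (fun x => -x) 0 := by
    refine cmp _ _ (EG_mul (EG_const (-1)) (EG_mul EG_id hEG)) (EG_neg EG_id) ?_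
    intro y hy
    have hle : h y ≤ 1 := chain_one_le hs _ _ _ y
    nlinarith
  have c2 : chain s (fun _ => 0) 0 (m + 1) (fun _ => (1 - Real.exp (-4)) * 1) 0
      ≤ chain s (fun _ => 0) 0 (m + 1) h 0 := by
    refine cmp _ _ (EG_const _) hEG ?_
    intro y hy
    have := h_lower (n := m + 1) (by omega) j hy.le
    rw [mul_one]
    exact this
  rw [chain_const_mul] at c1 c2
  have c3 := walk_ratio (n := m + 1) (by omega)
  rw [← hs_def] at c3
  have hu : 0 ≤ chain s (fun _ => 0) 0 (m + 1) (fun _ => 1) 0 :=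
    chain_nonneg hs _ _ _ (fun _ => zero_le_one) 0
  have c4 : 3 * Real.sqrt (2 * Real.pi) * chain s (fun _ => 0) 0 (m + 1) (fun _ => 1) 0
      ≤ 8 * (1 - Real.exp (-4)) * chain s (fun _ => 0) 0 (m + 1) (fun _ => 1) 0 :=
    mul_le_mul_of_nonneg_right const_ineq hu
  have c5 : -8 * P 1 p0 0 ≤ P 1 (fun y => y * p0 y) 0 := by
    rw [f0, f1]
    linarith
  rw [le_div_iff₀ hP1]
  have c6 : (-8 * P 1 p0 0) * P 1 p1 0 ≤ P 1 (fun y => y * p1 y) 0 * P 1 p0 0 :=
    (mul_le_mul_of_nonneg_right c5 hP1.le).trans key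
  have c7 : (-8 * P 1 p1 0) * P 1 p0 0 ≤ P 1 (fun y => y * p1 y) 0 * P 1 p0 0 := by
    linarith
  exact le_of_mul_le_mul_right c7 hP0

/-- the variance of the exponential moments is at most the variance after time one plus the
variance at time one of the tilted law -/
theorem variance_aux (m j : ℕ) (z : ℝ) :
    Mom m j z 2 / Mom m j z 0 - (Mom m j z 1 / Mom m j z 0) ^ 2
      ≤ (j : ℝ) * (1 / ((m + 1 : ℕ) : ℝ)) +
        (P 1 (fun y => y ^ 2 * cut 1 (Kz m j z) y) 0 / P 1 (cut 1 (Kz m j z)) 0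
          - (P 1 (fun y => y * cut 1 (Kz m j z) y) 0 / P 1 (cut 1 (Kz m j z)) 0) ^ 2) := by
  have hs := step_pos m
  have hT := Tri_chain hs (bq (m + 1)) (-2 * z) (m + 1) j
  set s : ℝ := 1 / ((m + 1 : ℕ) : ℝ) with hs_def
  set K : ℝ → ℝ := chain s (bq (m + 1)) (m + 1) j (fun x => Real.exp (-2 * z * x)) with K_def
  set L : ℝ → ℝ := chain s (bq (m + 1)) (m + 1) j (fun x => x * Real.exp (-2 * z * x)) with L_def
  set Q : ℝ → ℝ := chain s (bq (m + 1)) (m + 1) j (fun x => x ^ 2 * Real.exp (-2 * z * x))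
    with Q_def
  have hq : Nice (qt s (bq (m + 1)) m) := qt_nice hs _ m
  have hKz : Nice (Kz m j z) := Kz_nice m j z
  have hKpos := hT.nice.pos
  set w : ℝ → ℝ := cut 1 (Kz m j z) with w_def
  have hw : EG w := EG_cut hKz.eg 1
  have hw0 : ∀ y, 0 ≤ w y := cut_nonneg_vm fun y => (hKz.pos y).le
  have hw_eq : ∀ y, w y = cut 1 (qt s (bq (m + 1)) m) y * K y := by
    intro y
    exact cut_mul_left 1 _ _ y
  set r : ℝ → ℝ := fun x => L x / K x with r_def
  have hrm : Monotone r := hT.mono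
  have hrl : ∀ x y, x ≤ y → r y - r x ≤ y - x := hT.lip
  have hr_EG : EG r := by
    refine EG_mono (g := fun x => |r 0| + |x|) (EG_add (EG_const _) (EG_abs EG_id))
      hrm.measurable ?_
    intro x
    rw [abs_of_nonneg (add_nonneg (abs_nonneg (r 0)) (abs_nonneg x))]
    have h1 : |r x - r 0| ≤ |x| := by
      rcases le_total 0 x with hx | hx
      · rw [abs_of_nonneg (sub_nonneg.2 (hrm hx)), abs_of_nonneg hx]
        simpa using hrl 0 x hx
      · rw [abs_sub_comm, abs_of_nonneg (sub_nonneg.2 (hrm hx)), abs_of_nonpos hx]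
        simpa using hrl x 0 hx
    calc |r x| = |r 0 + (r x - r 0)| := by ring_nf
      _ ≤ |r 0| + |r x - r 0| := abs_add_le _ _
      _ ≤ |r 0| + |x| := by linarith
  -- the moments as integrals at time one
  have mom : ∀ (g : ℝ → ℝ), EG g → chain s (bq (m + 1)) 0 (m + 1 + j) g 0
      = P 1 (fun y => cut 1 (qt s (bq (m + 1)) m) y * chain s (bq (m + 1)) (m + 1) j g y) 0 := by
    intro g hg
    rw [chain_add', fwd hs (bq (m + 1)) m (EG_chain hs _ _ _ hg), step_mul, bq_self, Nat.zero_add]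
  have hE : EG (fun y => Real.exp (-2 * z * y)) := EG_exp _
  have m0 : Mom m j z 0 = P 1 w 0 := by
    unfold Mom
    rw [mom _ (EG_mul (EG_pow EG_id 0) hE)]
    congr 1
    funext y
    rw [hw_eq]
    simp only [pow_zero, one_mul, K_def]
  have m1 : Mom m j z 1 = P 1 (fun y => w y * r y) 0 := by
    unfold Mom
    rw [mom _ (EG_mul (EG_pow EG_id 1) hE)]
    congr 1
    funext y
    rw [hw_eq, r_def]
    simp only [pow_one]
    have := (hKpos y).ne'
    rw [mul_assoc, mul_div_cancel₀ _ this]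
  have hwr : EG (fun y => w y * r y) := EG_mul hw hr_EG
  have hwr2 : EG (fun y => w y * r y ^ 2) := EG_mul hw (EG_pow hr_EG 2)
  have m2 : Mom m j z 2 ≤ (j : ℝ) * s * P 1 w 0 + P 1 (fun y => w y * r y ^ 2) 0 := by
    unfold Mom
    rw [mom _ (EG_mul (EG_pow EG_id 2) hE), ← P_const_mul,
      ← P_add one_pos (EG_mul (EG_const _) hw) hwr2]
    refine P_mono one_pos (EG_mul (EG_cut hq.eg 1) (EG_chain hs _ _ _ (EG_mul (EG_pow EG_id 2) hE)))
      (EG_add (EG_mul (EG_const _) hw) hwr2) ?_ 0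
    intro y
    have hv := hT.var y
    have hKy := hKpos y
    have h1 : Q y ≤ K y * ((j : ℝ) * s + r y ^ 2) := by
      have : Q y / K y ≤ (j : ℝ) * s + r y ^ 2 := by
        rw [r_def]
        linarith
      rw [div_le_iff₀ hKy] at this
      linarith
    have h2 : 0 ≤ cut 1 (qt s (bq (m + 1)) m) y := cut_nonneg_vm (fun y => (hq.pos y).le) y
    rw [hw_eq]
    calc cut 1 (qt s (bq (m + 1)) m) y * Q y
        ≤ cut 1 (qt s (bq (m + 1)) m) y * (K y * ((j : ℝ) * s + r y ^ 2)) :=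
          mul_le_mul_of_nonneg_left h1 h2
      _ = _ := by ring
  have hP : 0 < P 1 w 0 := P_cut_pos one_pos hKz.eg hKz.pos 1 0
  set A := P 1 w 0 with A_def
  set μ := P 1 (fun y => y * w y) 0 / A with μ_def
  set c := r μ with c_def
  -- expansions
  have hyw : EG (fun y => y * w y) := EG_mul EG_id hw
  have hy2w : EG (fun y => y ^ 2 * w y) := EG_mul (EG_pow EG_id 2) hw
  have ex1 : P 1 (fun y => w y * (r y - c) ^ 2) 0
      = P 1 (fun y => w y * r y ^ 2) 0 + ((-2 * c) * P 1 (fun y => w y * r y) 0 + c ^ 2 * A) := by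
    rw [A_def, ← P_const_mul, ← P_const_mul,
      ← P_add one_pos (EG_mul (EG_const _) hwr) (EG_mul (EG_const _) hw),
      ← P_add one_pos hwr2 (EG_add (EG_mul (EG_const _) hwr) (EG_mul (EG_const _) hw))]
    congr 1
    funext y
    ring
  have ex2 : P 1 (fun y => w y * (y - μ) ^ 2) 0
      = P 1 (fun y => y ^ 2 * w y) 0 + ((-2 * μ) * P 1 (fun y => y * w y) 0 + μ ^ 2 * A) := by
    rw [A_def, ← P_const_mul, ← P_const_mul,
      ← P_add one_pos (EG_mul (EG_const _) hyw) (EG_mul (EG_const _) hw),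
      ← P_add one_pos hy2w (EG_add (EG_mul (EG_const _) hyw) (EG_mul (EG_const _) hw))]
    congr 1
    funext y
    ring
  have cmp : P 1 (fun y => w y * (r y - c) ^ 2) 0 ≤ P 1 (fun y => w y * (y - μ) ^ 2) 0 := by
    refine P_mono one_pos (EG_mul hw (EG_pow (EG_sub hr_EG (EG_const c)) 2))
      (EG_mul hw (EG_pow (EG_sub EG_id (EG_const μ)) 2)) ?_ 0
    intro y
    refine mul_le_mul_of_nonneg_left ?_ (hw0 y)
    rcases le_total μ y with hy | hy
    · have h1 := hrm hy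
      have h2 := hrl μ y hy
      exact pow_le_pow_left₀ (sub_nonneg.2 h1) h2 2
    · have h1 := hrm hy
      have h2 := hrl y μ hy
      have e1 : (r y - c) ^ 2 = (c - r y) ^ 2 := by ring
      have e2 : (y - μ) ^ 2 = (μ - y) ^ 2 := by ring
      rw [e1, e2]
      exact pow_le_pow_left₀ (sub_nonneg.2 h1) h2 2
  rw [ex1, ex2] at cmp
  rw [m0, m1]
  set B := P 1 (fun y => w y * r y) 0 with B_def
  set R := P 1 (fun y => w y * r y ^ 2) 0 with R_def
  set Y1 := P 1 (fun y => y * w y) 0 with Y1_def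
  set Y2 := P 1 (fun y => y ^ 2 * w y) 0 with Y2_def
  have hY1 : Y1 = μ * A := by
    rw [μ_def]
    field_simp
  have hB : B = B / A * A := by field_simp
  have hM : Mom m j z 2 / A ≤ ((j : ℝ) * s * A + R) / A := by gcongr
  have hM' : ((j : ℝ) * s * A + R) / A = (j : ℝ) * s + R / A := by field_simp
  have hR : R / A ≤ (Y2 + ((-2 * μ) * Y1 + μ ^ 2 * A) - ((-2 * c) * B + c ^ 2 * A)) / A := by
    gcongr
    linarith
  have hR' : (Y2 + ((-2 * μ) * Y1 + μ ^ 2 * A) - ((-2 * c) * B + c ^ 2 * A)) / A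
      = Y2 / A - μ ^ 2 + 2 * c * (B / A) - c ^ 2 := by
    rw [hY1]
    field_simp
    ring
  have hsq := sq_nonneg (B / A - c)
  nlinarith

theorem variance_le (m j : ℕ) (z : ℝ) :
    Mom m j z 2 / Mom m j z 0 - (Mom m j z 1 / Mom m j z 0) ^ 2
      ≤ ((m + 1 + j : ℕ) : ℝ) / ((m + 1 : ℕ) : ℝ) := by
  have h1 := variance_aux m j z
  have h2 := var_le one_pos (Kz_nice m j z) 1 0
  have h3 : ((m + 1 + j : ℕ) : ℝ) / ((m + 1 : ℕ) : ℝ)
      = (j : ℝ) * (1 / ((m + 1 : ℕ) : ℝ)) + 1 := by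
    push_cast
    have : (m : ℝ) + 1 ≠ 0 := by positivity
    field_simp
    ring
  rw [h3]
  linarith

theorem variance_le_improved (m j : ℕ) {z : ℝ} (hz : z ≤ 0) :
    Mom m j z 2 / Mom m j z 0 - (Mom m j z 1 / Mom m j z 0) ^ 2
      ≤ ((m + 1 + j : ℕ) : ℝ) / ((m + 1 : ℕ) : ℝ) - c0 := by
  have h1 := variance_aux m j z
  have h2 := var_le_improved (Kz_nice m j z) (M := 8) (by norm_num) (mean_bound m j hz)
  have h3 : ((m + 1 + j : ℕ) : ℝ) / ((m + 1 : ℕ) : ℝ)
      = (j : ℝ) * (1 / ((m + 1 : ℕ) : ℝ)) + 1 := by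
    push_cast
    have : (m : ℝ) + 1 ≠ 0 := by positivity
    field_simp
    ring
  have h4 : Real.exp (-((8 + 2) * (8 + 1))) / (8 + 2) = c0 := by
    unfold c0
    norm_num
  rw [h4] at h2
  rw [h3]
  linarith

end Pool.Agent.Helper85.Chern
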