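import Pool.Agent.Helper85.Chern.Fwd

/-!
# M5: random walk estimates
-/

namespace Pool.Agent.Helper85.Chern

open MeasureTheory Filter Topology

/-- the killed walk expectation -/
noncomputable def EE (s : ℝ) (k : ℕ) (g : ℝ → ℝ) : ℝ := chain s (fun _ => 0) 0 k g 0

lemma EE_zero (s : ℝ) (g : ℝ → ℝ) : EE s 0 g = g 0 := rfl

lemma EE_succ (s : ℝ) (k : ℕ) (g : ℝ → ℝ) : EE s (k + 1) g = EE s k (P s (cut 0 g)) := by
  unfold EE; rw [chain_succ_last]

lemma EE_mono {s : ℝ} (hs : 0 < s) (k : ℕ) {f g : ℝ → ℝ} (hf : EG f) (hg : EG g)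
    (h : ∀ x ≤ 0, f x ≤ g x) : EE s k f ≤ EE s k g := by
  cases k with
  | zero => exact h 0 le_rfl
  | succ k =>
    rw [EE_succ, EE_succ]
    refine chain_mono hs _ _ _ (EG_P hs (EG_cut hf 0)) (EG_P hs (EG_cut hg 0)) (fun x => ?_) 0
    refine P_mono hs (EG_cut hf 0) (EG_cut hg 0) (fun y => ?_) x
    unfold cut
    split_ifs with hy
    · exact h y hy.le
    · exact le_rfl

lemma EE_add {s : ℝ} (hs : 0 < s) (k : ℕ) {f g : ℝ → ℝ} (hf : EG f) (hg : EG g) :
    EE s k (fun x => f x + g x) = EE s k f + EE s k g := chain_add_fun hs _ _ _ hf hg 0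

lemma EE_const_mul (s : ℝ) (k : ℕ) (c : ℝ) (g : ℝ → ℝ) :
    EE s k (fun x => c * g x) = c * EE s k g := chain_const_mul s _ _ _ c g 0

lemma EG_negid : EG (fun x : ℝ => -x) := EG_neg EG_id

lemma EG_sq : EG (fun x : ℝ => x ^ 2) := EG_pow EG_id 2

lemma P_cut_zero (s : ℝ) (g : ℝ → ℝ) :
    P s (cut 0 g) 0 = ∫ y in Set.Ioi (0 : ℝ), phi s y * g (-y) := by
  have h1 : P s (cut 0 g) 0 = ∫ y in Set.Iio (0 : ℝ), phi s y * g y := by
    unfold P
    rw [← integral_indicator measurableSet_Iio]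
    congr 1
    funext y
    by_cases hy : y < 0
    · simp [cut, hy]
    · simp [cut, hy]
  rw [h1, ← integral_Iic_eq_integral_Iio]
  have h2 := integral_comp_neg_Ioi (0 : ℝ) (fun y => phi s y * g y)
  rw [neg_zero] at h2
  rw [← h2]
  simp only [phi_neg]

lemma phi_eq (s y : ℝ) : phi s y = (Real.sqrt (2 * Real.pi * s))⁻¹ * Real.exp (-(1 / (2 * s)) * y ^ 2) := by
  unfold phi
  congr 2
  ring

lemma P_cut_one_zero {s : ℝ} (hs : 0 < s) : P s (cut 0 (fun _ => 1)) 0 = 1 / 2 := by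
  rw [P_cut_zero]
  simp only [mul_one, phi_eq]
  rw [integral_const_mul, integral_gaussian_Ioi]
  have h1 : Real.pi / (1 / (2 * s)) = 2 * Real.pi * s := by field_simp
  rw [h1]
  have h2 : 0 < Real.sqrt (2 * Real.pi * s) := Real.sqrt_pos.mpr (by positivity)
  field_simp

lemma P_cut_id_zero {s : ℝ} (hs : 0 < s) :
    P s (cut 0 (fun y => y)) 0 = -Real.sqrt (s / (2 * Real.pi)) := by
  rw [P_cut_zero]
  have h0 : ∀ y : ℝ, phi s y * -y =
      (-(Real.sqrt (2 * Real.pi * s))⁻¹) * (y * Real.exp (-(1 / (2 * s)) * y ^ 2)) := by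
    intro y; rw [phi_eq]; ring
  simp only [h0]
  rw [integral_const_mul]
  have h1 : ∫ y in Set.Ioi (0 : ℝ), y * Real.exp (-(1 / (2 * s)) * y ^ 2) = s := by
    have h2 := integral_rpow_mul_exp_neg_mul_rpow (p := 2) (q := 1) (b := 1 / (2 * s))
      (by norm_num) (by norm_num) (by positivity)
    have h3 : ∫ y in Set.Ioi (0 : ℝ), y * Real.exp (-(1 / (2 * s)) * y ^ 2) =
      ∫ x in Set.Ioi (0 : ℝ), x ^ (1 : ℝ) * Real.exp (-(1 / (2 * s)) * x ^ (2 : ℝ)) := by
      refine setIntegral_congr_fun measurableSet_Ioi fun x _ => ?_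
      simp only [Real.rpow_one]
      norm_num
    rw [h3, h2]
    norm_num
    rw [Real.rpow_neg_one]
    field_simp
  rw [h1]
  have h4 : Real.sqrt (s / (2 * Real.pi)) * Real.sqrt (2 * Real.pi * s) = s := by
    rw [← Real.sqrt_mul (by positivity)]
    have : s / (2 * Real.pi) * (2 * Real.pi * s) = s ^ 2 := by field_simp
    rw [this, Real.sqrt_sq hs.le]
  have h5 : 0 < Real.sqrt (2 * Real.pi * s) := Real.sqrt_pos.mpr (by positivity)
  rw [neg_mul, neg_inj, inv_mul_eq_div, div_eq_iff h5.ne']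
  exact h4.symm

/-- the positive part of the identity -/
noncomputable def gA (y : ℝ) : ℝ := y - cut 0 (fun y => y) y

/-- the indicator of the nonnegative half line -/
noncomputable def gB (y : ℝ) : ℝ := 1 - cut 0 (fun _ => 1) y

lemma gB_nonneg (y : ℝ) : 0 ≤ gB y := by
  unfold gB cut; split_ifs <;> norm_num

lemma gA_nonneg (y : ℝ) : 0 ≤ gA y := by
  unfold gA cut
  split_ifs with h
  · simp
  · push Not at h; simpa using h

lemma mul_gB (y : ℝ) : y * gB y = gA y := by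
  unfold gA gB cut; split_ifs <;> ring

lemma EG_gA : EG gA := EG_sub EG_id (EG_cut EG_id 0)

lemma EG_gB : EG gB := EG_sub (EG_const 1) (EG_cut (EG_const 1) 0)

lemma P_gB_zero {s : ℝ} (hs : 0 < s) : P s gB 0 = 1 / 2 := by
  have := P_sub hs (EG_const 1) (EG_cut (EG_const 1) 0) 0
  rw [P_one hs] at this
  have h2 := P_cut_one_zero hs
  have h3 : P s gB 0 = P s (fun y => (fun _ => (1 : ℝ)) y - cut 0 (fun _ => 1) y) 0 := rfl
  rw [h3, this, h2]; norm_num

lemma P_gA_zero {s : ℝ} (hs : 0 < s) : P s gA 0 = Real.sqrt (s / (2 * Real.pi)) := by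
  have := P_sub hs EG_id (EG_cut EG_id 0) 0
  rw [P_id hs] at this
  have h2 := P_cut_id_zero hs
  have h3 : P s gA 0 = P s (fun y => y - cut 0 (fun y => y) y) 0 := rfl
  rw [h3, this, h2]; ring

/-- the mean of a Gaussian conditioned to be positive -/
lemma P_gA_le {s : ℝ} (hs : 0 < s) {x : ℝ} (hx : x ≤ 0) :
    P s gA x ≤ 2 * Real.sqrt (s / (2 * Real.pi)) * P s gB x := by
  set a := -x / s with ha
  have ha0 : 0 ≤ a := div_nonneg (by linarith) hs.le
  have hxa : x + a * s = 0 := by rw [ha]; field_simp; ring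
  set E := Real.exp (a * x + a ^ 2 * s / 2) with hE
  have hE0 : 0 < E := Real.exp_pos _
  have t1 : P s (fun y => Real.exp (a * y) * gB y) x = E * (1 / 2) := by
    rw [P_tilt hs, hxa, P_gB_zero hs]
  have t2 : P s (fun y => y * (Real.exp (a * y) * gB y)) x = E * Real.sqrt (s / (2 * Real.pi)) := by
    have : (fun y => y * (Real.exp (a * y) * gB y)) = fun y => Real.exp (a * y) * gA y := by
      funext y; rw [← mul_gB]; ring
    rw [this, P_tilt hs, hxa, P_gA_zero hs]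
  have t3 : P s (fun y => y * gB y) x = P s gA x := by
    congr 1
    funext y; exact mul_gB y
  have hm : MLR gB (fun y => Real.exp (a * y) * gB y) := by
    intro y z hyz
    have h1 : Real.exp (a * y) ≤ Real.exp (a * z) :=
      Real.exp_le_exp.mpr (mul_le_mul_of_nonneg_left hyz ha0)
    have h2 : 0 ≤ gB y * gB z := mul_nonneg (gB_nonneg y) (gB_nonneg z)
    nlinarith
  have h := assoc_P hs hm monotone_id EG_gB (EG_mul (EG_exp a) EG_gB)
    (EG_mul EG_id EG_gB) (EG_mul EG_id (EG_mul (EG_exp a) EG_gB)) x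
  simp only [id] at h
  rw [t3, t2, t1] at h
  have h5 : E * (P s gA x * (1 / 2)) ≤ E * (Real.sqrt (s / (2 * Real.pi)) * P s gB x) := by linarith
  have := le_of_mul_le_mul_left h5 hE0
  linarith

/-- one step of the walk for the mean -/
lemma EE_neg_succ {s : ℝ} (hs : 0 < s) (k : ℕ) :
    EE s (k + 1) (fun x => -x) = EE s k (fun x => -x) + EE s k (P s gA) := by
  rw [EE_succ, ← EE_add hs k EG_negid (EG_P hs EG_gA)]
  congr 1
  funext x
  have h1 : cut 0 (fun x : ℝ => -x) = fun y => (fun y : ℝ => -1 * y) y + gA y := by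
    funext y; unfold gA cut; split_ifs <;> ring
  have h2 : EG (fun y : ℝ => -1 * y) := by
    have := EG_mul (EG_const (-1)) EG_id; exact this
  rw [h1, P_add hs h2 EG_gA, P_const_mul, P_id hs]
  ring

/-- one step of the walk for the mass -/
lemma EE_one_succ {s : ℝ} (hs : 0 < s) (k : ℕ) :
    EE s (k + 1) (fun _ => 1) = EE s k (fun _ => 1) - EE s k (P s gB) := by
  have h0 : EE s k (fun _ => 1) = EE s (k + 1) (fun _ => 1) + EE s k (P s gB) := by
    rw [EE_succ, ← EE_add hs k (EG_P hs (EG_cut (EG_const 1) 0)) (EG_P hs EG_gB)]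
    congr 1
    funext x
    rw [← P_add hs (EG_cut (EG_const 1) 0) EG_gB]
    have h1 : (fun y => cut 0 (fun _ => (1 : ℝ)) y + gB y) = fun _ => (1 : ℝ) := by
      funext y; unfold gB; ring
    rw [h1, P_one hs]
  linarith

lemma EE_sq_succ {s : ℝ} (hs : 0 < s) (k : ℕ) :
    EE s (k + 1) (fun x => x ^ 2) ≤ EE s k (fun x => x ^ 2) + s * EE s k (fun _ => 1) := by
  have e : EG (fun x : ℝ => s * 1) := EG_const _
  rw [EE_succ, ← EE_const_mul, ← EE_add hs k EG_sq e]
  refine EE_mono hs k (EG_P hs (EG_cut EG_sq 0)) (EG_add EG_sq e) (fun x _ => ?_)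
  calc P s (cut 0 fun x => x ^ 2) x ≤ P s (fun x => x ^ 2) x := by
        refine P_mono hs (EG_cut EG_sq 0) EG_sq (fun y => ?_) x
        unfold cut
        split_ifs
        · exact le_rfl
        · positivity
    _ = x ^ 2 + s * 1 := by rw [P_sq hs]; ring

lemma EE_nonneg {s : ℝ} (hs : 0 < s) (k : ℕ) {g : ℝ → ℝ} (h : ∀ x, 0 ≤ g x) : 0 ≤ EE s k g :=
  chain_nonneg hs _ _ _ h 0

lemma I_add_u_le {s : ℝ} (hs : 0 < s) (k : ℕ) :
    EE s k (fun x => -x) + 2 * Real.sqrt (s / (2 * Real.pi)) * EE s k (fun _ => 1)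
      ≤ 2 * Real.sqrt (s / (2 * Real.pi)) := by
  induction k with
  | zero => simp [EE_zero]
  | succ k ih =>
    rw [EE_neg_succ hs, EE_one_succ hs]
    have h1 : EE s k (P s gA) ≤ EE s k (fun x => 2 * Real.sqrt (s / (2 * Real.pi)) * P s gB x) :=
      EE_mono hs k (EG_P hs EG_gA) (EG_mul (EG_const _) (EG_P hs EG_gB)) fun x hx => P_gA_le hs hx
    rw [EE_const_mul] at h1
    have h2 : 2 * Real.sqrt (s / (2 * Real.pi)) * EE s k (fun x => P s gB x)
      = 2 * Real.sqrt (s / (2 * Real.pi)) * EE s k (P s gB) := rfl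
    linarith

lemma I_le {s : ℝ} (hs : 0 < s) (k : ℕ) :
    EE s k (fun x => -x) ≤ 2 * Real.sqrt (s / (2 * Real.pi)) := by
  have h1 := I_add_u_le hs k
  have h2 : 0 ≤ EE s k (fun _ => 1) := EE_nonneg hs k fun _ => zero_le_one
  have h3 : 0 ≤ 2 * Real.sqrt (s / (2 * Real.pi)) * EE s k (fun _ => 1) := by positivity
  linarith

lemma I_ge {s : ℝ} (hs : 0 < s) (k : ℕ) :
    Real.sqrt (s / (2 * Real.pi)) ≤ EE s (k + 1) (fun x => -x) := by
  induction k with
  | zero =>
    rw [EE_neg_succ hs, EE_zero, EE_zero, P_gA_zero hs]; simp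
  | succ k ih =>
    rw [EE_neg_succ hs]
    have : 0 ≤ EE s (k + 1) (P s gA) := EE_nonneg hs _ fun x => P_nonneg hs gA_nonneg x
    linarith

lemma u_le {s : ℝ} (hs : 0 < s) (k : ℕ) :
    EE s (k + 1) (fun _ => 1) * Real.sqrt ((k : ℝ) + 1) ≤ 1 := by
  set S := ((k : ℝ) + 1) * s with hS
  have hS0 : 0 < S := by positivity
  have f1 : ∀ g : ℝ → ℝ, EG g → EE s (k + 1) g = P S (fun y => cut 0 (qt s (fun _ => 0) k) y * g y) 0 :=
    fun g hg => fwd hs (fun _ => 0) k hg
  have hq := qt_nice hs (fun _ => 0) k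
  have hqa := qt_anti hs k
  have ec : EG (cut 0 (qt s (fun _ => 0) k)) := EG_cut hq.eg 0
  have e1 : EG (cut 0 (fun _ => (1 : ℝ))) := EG_cut (EG_const 1) 0
  have hm : MLR (cut 0 (qt s (fun _ => 0) k)) (cut 0 (fun _ => 1)) := by
    intro x y hxy
    unfold cut
    split_ifs with h1 h2 h2
    · have := hqa hxy; linarith
    · simp
    · exact absurd (lt_of_le_of_lt hxy h2) h1
    · simp
  have h := assoc_P hS0 hm monotone_id ec e1 (EG_mul EG_id ec) (EG_mul EG_id e1) 0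
  simp only [id] at h
  have h2 : P S (fun y => y * cut 0 (fun _ => (1 : ℝ)) y) 0 = -Real.sqrt (S / (2 * Real.pi)) := by
    rw [← P_cut_id_zero hS0]
    congr 1
    funext y; unfold cut; split_ifs <;> ring
  have h3 : P S (fun y => y * cut 0 (qt s (fun _ => 0) k) y) 0 = -EE s (k + 1) (fun x => -x) := by
    rw [f1 _ EG_negid]
    have : (fun y => y * cut 0 (qt s (fun _ => 0) k) y) =
      fun y => -1 * (cut 0 (qt s (fun _ => 0) k) y * -y) := by funext y; ring
    rw [this, P_const_mul]; ring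
  have h4 : P S (cut 0 (qt s (fun _ => 0) k)) 0 = EE s (k + 1) (fun _ => 1) := by
    rw [f1 _ (EG_const 1)]; simp
  rw [h2, h3, h4, P_cut_one_zero hS0] at h
  have h5 := I_le hs (k + 1)
  have h6 : Real.sqrt (S / (2 * Real.pi)) = Real.sqrt ((k : ℝ) + 1) * Real.sqrt (s / (2 * Real.pi)) := by
    rw [← Real.sqrt_mul (by positivity), hS]; congr 1; ring
  rw [h6] at h
  have h7 : 0 < Real.sqrt (s / (2 * Real.pi)) := Real.sqrt_pos.mpr (by positivity)
  have h8 : Real.sqrt (s / (2 * Real.pi)) * (EE s (k + 1) (fun _ => 1) * Real.sqrt ((k : ℝ) + 1))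
      ≤ Real.sqrt (s / (2 * Real.pi)) * 1 := by linarith
  exact le_of_mul_le_mul_left h8 h7

lemma J_le {s : ℝ} (hs : 0 < s) (k : ℕ) :
    EE s (k + 1) (fun x => x ^ 2) ≤ s * (1 + 2 * Real.sqrt k) := by
  induction k with
  | zero =>
    have := EE_sq_succ hs 0
    rw [EE_zero, EE_zero] at this
    simpa using this
  | succ k ih =>
    have h1 := EE_sq_succ hs (k + 1)
    have h2 := u_le hs k
    have h3 : 0 ≤ Real.sqrt k := Real.sqrt_nonneg _
    have h4 : 0 < Real.sqrt ((k : ℝ) + 1) := Real.sqrt_pos.mpr (by positivity)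
    have h5 : Real.sqrt ((k : ℝ) + 1) ^ 2 = k + 1 := Real.sq_sqrt (by positivity)
    have h6 : Real.sqrt k ^ 2 = k := Real.sq_sqrt (by positivity)
    have h7 : EE s (k + 1) (fun _ => 1) ≤ 2 * Real.sqrt ((k : ℝ) + 1) - 2 * Real.sqrt k := by
      have h8 : Real.sqrt k ≤ Real.sqrt ((k : ℝ) + 1) := Real.sqrt_le_sqrt (by linarith)
      have h9 : EE s (k + 1) (fun _ => 1) * Real.sqrt ((k : ℝ) + 1) ≤
        (2 * Real.sqrt ((k : ℝ) + 1) - 2 * Real.sqrt k) * Real.sqrt ((k : ℝ) + 1) := by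
        refine h2.trans ?_
        nlinarith [sq_nonneg (Real.sqrt ((k : ℝ) + 1) - Real.sqrt k)]
      exact le_of_mul_le_mul_right h9 h4
    push_cast
    calc _ ≤ s * (1 + 2 * Real.sqrt k) + s * EE s (k + 1) (fun _ => 1) := by linarith
      _ ≤ s * (1 + 2 * Real.sqrt k) + s * (2 * Real.sqrt ((k : ℝ) + 1) - 2 * Real.sqrt k) := by
          have := mul_le_mul_of_nonneg_left h7 hs.le
          linarith
      _ = _ := by ring

lemma CS {s : ℝ} (hs : 0 < s) (k : ℕ) (hu : 0 < EE s k (fun _ => 1)) :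
    EE s k (fun x => -x) ^ 2 ≤ EE s k (fun _ => 1) * EE s k (fun x => x ^ 2) := by
  set u := EE s k (fun _ => 1) with hudef
  set I := EE s k (fun x => -x) with hI
  set J := EE s k (fun x => x ^ 2) with hJ
  have h1 : 0 ≤ EE s k (fun x => (u * x + I) ^ 2) := EE_nonneg hs k fun x => sq_nonneg _
  have e1 : EG (fun x : ℝ => u ^ 2 * x ^ 2) := EG_mul (EG_const _) EG_sq
  have e2 : EG (fun x : ℝ => (-2 * u * I) * -x) := EG_mul (EG_const _) EG_negid
  have e3 : EG (fun x : ℝ => I ^ 2 * 1) := EG_const _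
  have h2 : EE s k (fun x => (u * x + I) ^ 2) = u ^ 2 * J + ((-2 * u * I) * I + I ^ 2 * u) := by
    have : (fun x => (u * x + I) ^ 2) = fun x => u ^ 2 * x ^ 2 + ((-2 * u * I) * -x + I ^ 2 * 1) := by
      funext x; ring
    rw [this, EE_add hs k e1 (EG_add e2 e3), EE_add hs k e2 e3, EE_const_mul, EE_const_mul,
      EE_const_mul]
  rw [h2] at h1
  have h3 : 0 ≤ u * (u * J - I ^ 2) := by nlinarith
  have h4 : 0 ≤ u * J - I ^ 2 := nonneg_of_mul_nonneg_right h3 hu
  linarith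

/-- `E[-X_n ; X_1,...,X_n < 0] ≤ 3 sqrt(2 pi) P(X_1,...,X_n < 0)` for the walk with `n` steps of
variance `1/n`. -/
theorem walk_ratio {n : ℕ} (hn : 1 ≤ n) :
    chain (1 / (n : ℝ)) (fun _ => 0) 0 n (fun x => -x) 0
      ≤ 3 * Real.sqrt (2 * Real.pi) * chain (1 / (n : ℝ)) (fun _ => 0) 0 n (fun _ => 1) 0 := by
  obtain ⟨k, rfl⟩ : ∃ k, n = k + 1 := ⟨n - 1, by omega⟩
  have hn0 : (0 : ℝ) < ((k + 1 : ℕ) : ℝ) := by positivity
  set s : ℝ := 1 / ((k + 1 : ℕ) : ℝ) with hs'
  have hs : 0 < s := by positivity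
  change EE s (k + 1) (fun x => -x) ≤ 3 * Real.sqrt (2 * Real.pi) * EE s (k + 1) (fun _ => 1)
  have hu : 0 < EE s (k + 1) (fun _ => 1) := chain_pos hs _ _ _ (EG_const 1) (fun _ => one_pos) 0
  have h1 := CS hs (k + 1) hu
  have h2 := I_ge hs k
  have h3 := J_le hs k
  set u := EE s (k + 1) (fun _ => 1) with hudef
  set I := EE s (k + 1) (fun x => -x) with hI
  set J := EE s (k + 1) (fun x => x ^ 2) with hJ
  have hq : 0 < Real.sqrt (s / (2 * Real.pi)) := Real.sqrt_pos.mpr (by positivity)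
  have h4 : s * (1 + 2 * Real.sqrt k) ≤ 3 * Real.sqrt s := by
    have a1 : Real.sqrt s * Real.sqrt s = s := Real.mul_self_sqrt hs.le
    have a2 : Real.sqrt s * Real.sqrt ((k + 1 : ℕ) : ℝ) = 1 := by
      rw [← Real.sqrt_mul hs.le, hs', one_div, inv_mul_cancel₀ hn0.ne', Real.sqrt_one]
    have a3 : Real.sqrt k ≤ Real.sqrt ((k + 1 : ℕ) : ℝ) := Real.sqrt_le_sqrt (by push_cast; linarith)
    have a4 : (1 : ℝ) ≤ Real.sqrt ((k + 1 : ℕ) : ℝ) := by
      rw [Real.one_le_sqrt]; push_cast; linarith [(Nat.cast_nonneg k : (0 : ℝ) ≤ k)]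
    calc s * (1 + 2 * Real.sqrt k) ≤ s * (3 * Real.sqrt ((k + 1 : ℕ) : ℝ)) := by
          refine mul_le_mul_of_nonneg_left (by linarith) hs.le
      _ = 3 * Real.sqrt s * (Real.sqrt s * Real.sqrt ((k + 1 : ℕ) : ℝ)) := by
          calc s * (3 * Real.sqrt ((k + 1 : ℕ) : ℝ)) =
              (Real.sqrt s * Real.sqrt s) * (3 * Real.sqrt ((k + 1 : ℕ) : ℝ)) := by rw [a1]
            _ = _ := by ring
      _ = 3 * Real.sqrt s := by rw [a2, mul_one]
  have h5 : Real.sqrt (s / (2 * Real.pi)) * Real.sqrt (2 * Real.pi) = Real.sqrt s := by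
    rw [← Real.sqrt_mul (by positivity)]; congr 1; field_simp
  have h6 : Real.sqrt (s / (2 * Real.pi)) * I ≤
      Real.sqrt (s / (2 * Real.pi)) * (3 * Real.sqrt (2 * Real.pi) * u) := by
    calc Real.sqrt (s / (2 * Real.pi)) * I ≤ I * I := by nlinarith
      _ = I ^ 2 := by ring
      _ ≤ u * J := h1
      _ ≤ u * (3 * Real.sqrt s) := mul_le_mul_of_nonneg_left (h3.trans h4) hu.le
      _ = _ := by rw [← h5]; ring
  exact le_of_mul_le_mul_left h6 hq

lemma h_lower_aux {n : ℕ} (hn : 1 ≤ n) (j : ℕ) : ∀ (i : ℕ) (x : ℝ),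
    1 - chain (1 / (n : ℝ)) (bq n) (n + i) j (fun _ => 1) x
      ≤ Real.exp (4 * x + (-4 - 8 * i / n)) := by
  have hn0 : (0 : ℝ) < n := by exact_mod_cast hn
  have hs : (0 : ℝ) < 1 / (n : ℝ) := by positivity
  induction j with
  | zero => intro i x; simp only [chain, sub_self]; exact (Real.exp_pos _).le
  | succ j ih =>
    intro i x
    set K := chain (1 / (n : ℝ)) (bq n) (n + i + 1) j (fun _ => 1) with hK
    have eK : EG K := EG_chain hs _ _ _ (EG_const 1)
    have h1 : 1 - chain (1 / (n : ℝ)) (bq n) (n + i) (j + 1) (fun _ => 1) x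
        = P (1 / (n : ℝ)) (fun y => 1 - cut (bq n (n + i + 1)) K y) x := by
      have := P_sub hs (EG_const 1) (EG_cut eK (bq n (n + i + 1))) x
      rw [this, P_one hs]; rfl
    rw [h1]
    set c : ℝ := -4 - 8 * ((i : ℝ) + 1) / n with hc
    have h2 : ∀ y, 1 - cut (bq n (n + i + 1)) K y ≤ Real.exp c * Real.exp (4 * y) := by
      intro y
      rw [← Real.exp_add]
      unfold cut
      split_ifs with hy
      · have := ih (i + 1) y
        rw [show n + (i + 1) = n + i + 1 by ring] at this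
        refine this.trans (le_of_eq ?_)
        rw [hc]; push_cast; ring_nf
      · push Not at hy
        rw [sub_zero]
        apply Real.one_le_exp
        have h3 : bq n (n + i + 1) = (1 + ((i : ℝ) + 1) / n) ^ 2 := by
          unfold bq; push_cast; field_simp; ring
        rw [h3] at hy
        have h4 : 0 ≤ ((i : ℝ) + 1) / n := by positivity
        have h5 : 1 + 2 * (((i : ℝ) + 1) / n) ≤ y := by nlinarith
        have h6 : c = -4 - 8 * (((i : ℝ) + 1) / n) := by rw [hc]; ring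
        rw [h6]; linarith
    have e1 : EG (fun y => 1 - cut (bq n (n + i + 1)) K y) := EG_sub (EG_const 1) (EG_cut eK _)
    have e2 : EG (fun y => Real.exp c * Real.exp (4 * y)) := EG_mul (EG_const _) (EG_exp 4)
    refine (P_mono hs e1 e2 h2 x).trans (le_of_eq ?_)
    rw [P_const_mul, P_exp hs, ← Real.exp_add]
    congr 1
    rw [hc]; field_simp; ring

/-- starting from `x ≤ 0` at time `1` the walk stays below the parabola forever with
probability at least `1 - exp (-4)`. -/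
theorem h_lower {n : ℕ} (hn : 1 ≤ n) (j : ℕ) {x : ℝ} (hx : x ≤ 0) :
    1 - Real.exp (-4) ≤ chain (1 / (n : ℝ)) (bq n) n j (fun _ => 1) x := by
  have h := h_lower_aux hn j 0 x
  have h2 : Real.exp (4 * x + (-4 - 8 * ((0 : ℕ) : ℝ) / n)) ≤ Real.exp (-4) := by
    apply Real.exp_le_exp.mpr
    simp only [Nat.cast_zero, mul_zero, zero_div, sub_zero]
    linarith
  simp only [add_zero] at h
  linarith

end Pool.Agent.Helper85.Chern
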